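import Pool.Agent.Helper33K9.RO.St2
import Pool.Agent.Helper33K9.FQ.Emb

/-!
[COO] coordinates for a graph.
-/

set_option autoImplicit false

namespace Pool.Agent.Helper33K9.RO

open MvPowerSeries Pool.Agent.Helper33K9.FQ Pool.Agent.Helper33K9.FQ.EmbL

namespace CooL

theorem lin_sub {σ : Type} (F G : MvPowerSeries σ ℂ) : lin (F - G) = lin F - lin G := by
  funext k
  simp [lin]

theorem ext0_mem {α β : Type} [Fintype α] [DecidableEq α] [DecidableEq β] (e : α ↪ β)
    (S : Submodule ℂ (β → ℂ)) (h : ∀ a, (Pi.single (e a) (1 : ℂ) : β → ℂ) ∈ S) (v : α → ℂ) :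
    ext0 e v ∈ S := by
  have h1 : v = ∑ a, v a • (Pi.single a (1 : ℂ) : α → ℂ) := by
    funext b
    rw [Finset.sum_apply]
    simp [Pi.single_apply]
  rw [h1, map_sum]
  refine Submodule.sum_mem _ fun a _ => ?_
  rw [map_smul, ext0_single]
  exact Submodule.smul_mem _ _ (h a)

end CooL

open CooL in
theorem coo : S_COO := by
  classical
  intro σ _ r y w P K hy hw hK hP
  set Ω := (σ ⊕ Fin r) ⊕ Fin r with hΩ
  let e1 : σ ↪ Ω := ⟨fun i => Sum.inl (Sum.inl i), fun i i' h =>
    Sum.inl_injective (Sum.inl_injective h)⟩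
  let e2 : σ ⊕ Fin r ↪ Ω := ⟨Sum.inl, Sum.inl_injective⟩
  set c : Ω → MvPowerSeries Ω ℂ := Sum.elim (Sum.elim
      (fun i => MvPowerSeries.rename (fun i => Sum.inl (Sum.inl i)) (y i))
      fun j => MvPowerSeries.X (Sum.inl (Sum.inr j)) -
        MvPowerSeries.rename (fun i => Sum.inl (Sum.inl i)) (w j))
      fun j => (∑ i, MvPowerSeries.X (Sum.inr i) * MvPowerSeries.rename Sum.inl (P i j)) +
        MvPowerSeries.rename Sum.inl (K j) with hc
  have hc1 : ∀ i, c (Sum.inl (Sum.inl i)) = rename e1 (y i) := fun i => rfl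
  have hc2 : ∀ j, c (Sum.inl (Sum.inr j)) = X (Sum.inl (Sum.inr j)) - rename e1 (w j) :=
    fun j => rfl
  have hc3 : ∀ j, c (Sum.inr j) = (∑ i, X (Sum.inr i) * rename e2 (P i j)) + rename e2 (K j) :=
    fun j => rfl
  change Coords c
  refine ⟨?_, ?_⟩
  · rintro ((i | j) | j)
    · rw [hc1, cc_rename, hy.1]
    · rw [hc2, map_sub, constantCoeff_X, cc_rename, hw, sub_zero]
    · rw [hc3, map_add, map_sum, cc_rename, hK, add_zero]
      refine Finset.sum_eq_zero fun i _ => ?_
      rw [map_mul, constantCoeff_X, zero_mul]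
  · set S := Submodule.span ℂ (Set.range fun j => lin (c j)) with hS
    have hmem : ∀ j, lin (c j) ∈ S := fun j => Submodule.subset_span ⟨j, rfl⟩
    have s1 : ∀ i : σ, (Pi.single (e1 i) (1 : ℂ) : Ω → ℂ) ∈ S := by
      intro i
      have h4 := Submodule.mem_map_of_mem (f := ext0 e1) (hy.2 i)
      rw [ext0_single, Submodule.map_span] at h4
      refine Submodule.span_mono ?_ h4
      rintro _ ⟨_, ⟨k, rfl⟩, rfl⟩
      refine ⟨Sum.inl (Sum.inl k), ?_⟩
      change lin (c (Sum.inl (Sum.inl k))) = _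
      rw [hc1, lin_rename]
    have s2 : ∀ i : σ ⊕ Fin r, (Pi.single (e2 i) (1 : ℂ) : Ω → ℂ) ∈ S := by
      rintro (i | j)
      · exact s1 i
      · have h5 := hmem (Sum.inl (Sum.inr j))
        rw [hc2, lin_sub, lin_X, lin_rename] at h5
        have h6 := Submodule.add_mem _ h5 (ext0_mem e1 S s1 (lin (w j)))
        rw [sub_add_cancel] at h6
        exact h6
    have s3 : ∀ j : Fin r, ∑ i, constantCoeff (P i j) • (Pi.single (Sum.inr i) (1 : ℂ) : Ω → ℂ) ∈ S := by
      intro j
      have h5 := hmem (Sum.inr j)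
      rw [hc3, lin_add, lin_sum, lin_rename] at h5
      have h6 := Submodule.sub_mem _ h5 (ext0_mem e2 S s2 (lin (K j)))
      rw [add_sub_cancel_right] at h6
      refine (congrArg (· ∈ S) ?_).mp h6
      refine Finset.sum_congr rfl fun i _ => ?_
      rw [lin_mul, constantCoeff_X, zero_smul, zero_add, cc_rename, lin_X]
    have key : ∀ i : Ω, (Pi.single i (1 : ℂ) : Ω → ℂ) ∈ S := by
     rintro (i | k)
     · exact s2 i
     · set M : Matrix (Fin r) (Fin r) ℂ := Matrix.of fun i j => constantCoeff (P i j) with hM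
       have h7 : ∑ j, (M⁻¹ j k) • ∑ i, constantCoeff (P i j) •
           (Pi.single (Sum.inr i) (1 : ℂ) : Ω → ℂ) ∈ S :=
         Submodule.sum_mem _ fun j _ => Submodule.smul_mem _ _ (s3 j)
       refine (congrArg (· ∈ S) ?_).mp h7
       simp only [Finset.smul_sum, smul_smul]
       rw [Finset.sum_comm]
       have h8 : ∀ i, ∑ j, M⁻¹ j k * constantCoeff (P i j) = if i = k then 1 else 0 := by
         intro i
         have h9 := congrFun (congrFun (Matrix.mul_nonsing_inv M hP) i) k
         rw [Matrix.mul_apply, Matrix.one_apply] at h9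
         rw [← h9]
         exact Finset.sum_congr rfl fun j _ => mul_comm _ _
       have h10 : ∀ i, ∑ j, (M⁻¹ j k * constantCoeff (P i j)) •
           (Pi.single (Sum.inr i) (1 : ℂ) : Ω → ℂ) =
           (if i = k then (1 : ℂ) else 0) • (Pi.single (Sum.inr i) (1 : ℂ) : Ω → ℂ) := by
         intro i
         rw [← Finset.sum_smul, h8]
       rw [Finset.sum_congr rfl fun i _ => h10 i]
       simp
    intro i
    exact Eq.mp (congrArg (fun v => v ∈ _) (SumL.single_inst _ _ i)) (key i)

end Pool.Agent.Helper33K9.RO
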