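import Pool.Agent.Helper33K9.RO.St
import Pool.Agent.Helper33K9.FQ.Iso

/-!
[ELI] elimination of two variables.
-/

set_option autoImplicit false

namespace Pool.Agent.Helper33K9.RO

open MvPolynomial Pool.Agent.H628R4.TP Pool.Agent.W428.MOT Pool.Agent.TH192.MT
  Pool.Agent.Helper33K9.HP Pool.Agent.Helper33K9.FQ

namespace EliL

variable {Ω : Type}

/-- the polynomials in the old variables -/
noncomputable def ro : MvPolynomial Ω ℂ →ₐ[ℂ] MvPolynomial (Ω ⊕ Bool) ℂ := rename Sum.inl

/-- the value of a polynomial with coefficients in the old variables -/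
noncomputable def evz (q : Polynomial (MvPolynomial Ω ℂ)) (z : MvPolynomial (Ω ⊕ Bool) ℂ) :
    MvPolynomial (Ω ⊕ Bool) ℂ := q.eval₂ (ro (Ω := Ω)).toRingHom z

theorem map_evz (Φ : MvPolynomial (Ω ⊕ Bool) ℂ →ₐ[ℂ] MvPolynomial (Ω ⊕ Bool) ℂ)
    (h : ∀ ω, Φ (X (Sum.inl ω)) = X (Sum.inl ω)) (q : Polynomial (MvPolynomial Ω ℂ))
    (z : MvPolynomial (Ω ⊕ Bool) ℂ) : Φ (evz q z) = evz q (Φ z) := by
  have h1 : (Φ.toRingHom).comp (ro (Ω := Ω)).toRingHom = (ro (Ω := Ω)).toRingHom := by
    refine ringHom_ext (fun r => ?_) fun i => ?_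
    · change Φ (rename Sum.inl (C r)) = rename Sum.inl (C r)
      rw [rename_C]
      exact Φ.commutes r
    · change Φ (rename Sum.inl (X i)) = rename Sum.inl (X i)
      rw [rename_X, h]
  have h2 := Polynomial.hom_eval₂ q (ro (Ω := Ω)).toRingHom Φ.toRingHom z
  rw [h1] at h2
  exact h2

theorem map_ro (Φ : MvPolynomial (Ω ⊕ Bool) ℂ →ₐ[ℂ] MvPolynomial (Ω ⊕ Bool) ℂ)
    (h : ∀ ω, Φ (X (Sum.inl ω)) = X (Sum.inl ω)) (f : MvPolynomial Ω ℂ) : Φ (ro f) = ro f := by
  have h1 : Φ.comp (ro (Ω := Ω)) = ro := by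
    refine algHom_ext fun i => ?_
    change Φ (rename Sum.inl (X i)) = rename Sum.inl (X i)
    rw [rename_X, h]
  exact DFunLike.congr_fun h1 f

/-- the coordinate change -/
noncomputable def fw (A : MvPolynomial Ω ℂ) (q : Polynomial (MvPolynomial Ω ℂ)) :
    MvPolynomial (Ω ⊕ Bool) ℂ →ₐ[ℂ] MvPolynomial (Ω ⊕ Bool) ℂ :=
  aeval (Sum.elim (fun ω => X (Sum.inl ω)) fun b => if b then X (Sum.inr true) + ro A
    else X (Sum.inr false) + evz q (X (Sum.inr true)))

/-- its inverse -/
noncomputable def bw (A : MvPolynomial Ω ℂ) (q : Polynomial (MvPolynomial Ω ℂ)) :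
    MvPolynomial (Ω ⊕ Bool) ℂ →ₐ[ℂ] MvPolynomial (Ω ⊕ Bool) ℂ :=
  aeval (Sum.elim (fun ω => X (Sum.inl ω)) fun b => if b then X (Sum.inr true) - ro A
    else X (Sum.inr false) - evz q (X (Sum.inr true) - ro A))

variable (A : MvPolynomial Ω ℂ) (q : Polynomial (MvPolynomial Ω ℂ))

theorem fw_l (ω : Ω) : fw A q (X (Sum.inl ω)) = X (Sum.inl ω) := by
  unfold fw
  rw [aeval_X, Sum.elim_inl]

theorem bw_l (ω : Ω) : bw A q (X (Sum.inl ω)) = X (Sum.inl ω) := by
  unfold bw
  rw [aeval_X, Sum.elim_inl]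

theorem fw_t : fw A q (X (Sum.inr true)) = X (Sum.inr true) + ro A := by
  unfold fw
  rw [aeval_X, Sum.elim_inr, if_pos rfl]

theorem bw_t : bw A q (X (Sum.inr true)) = X (Sum.inr true) - ro A := by
  unfold bw
  rw [aeval_X, Sum.elim_inr, if_pos rfl]

theorem fw_f : fw A q (X (Sum.inr false)) = X (Sum.inr false) + evz q (X (Sum.inr true)) := by
  unfold fw
  rw [aeval_X, Sum.elim_inr, if_neg Bool.false_ne_true]

theorem bw_f : bw A q (X (Sum.inr false)) =
    X (Sum.inr false) - evz q (X (Sum.inr true) - ro A) := by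
  unfold bw
  rw [aeval_X, Sum.elim_inr, if_neg Bool.false_ne_true]

/-- the coordinate change as an automorphism -/
noncomputable def au : MvPolynomial (Ω ⊕ Bool) ℂ ≃ₐ[ℂ] MvPolynomial (Ω ⊕ Bool) ℂ :=
  AlgEquiv.ofAlgHom (fw A q) (bw A q)
    (by
      refine algHom_ext fun i => ?_
      change fw A q (bw A q (X i)) = X i
      rcases i with ω | b
      · rw [bw_l, fw_l]
      · cases b
        · rw [bw_f, map_sub, map_evz _ (fw_l A q), map_sub, fw_f, fw_t, map_ro _ (fw_l A q),
            add_sub_cancel_right, add_sub_cancel_right]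
        · rw [bw_t, map_sub, fw_t, map_ro _ (fw_l A q), add_sub_cancel_right])
    (by
      refine algHom_ext fun i => ?_
      change bw A q (fw A q (X i)) = X i
      rcases i with ω | b
      · rw [fw_l, bw_l]
      · cases b
        · rw [fw_f, map_add, map_evz _ (bw_l A q), bw_f, bw_t, sub_add_cancel]
        · rw [fw_t, map_add, bw_t, map_ro _ (bw_l A q), sub_add_cancel])

theorem cc_evz (z : MvPolynomial (Ω ⊕ Bool) ℂ) (hz : constantCoeff z = 0) :
    constantCoeff (evz q z) = constantCoeff (q.coeff 0) := by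
  have h2 := Polynomial.hom_eval₂ q (ro (Ω := Ω)).toRingHom
    (constantCoeff : MvPolynomial (Ω ⊕ Bool) ℂ →+* ℂ) z
  unfold evz
  rw [h2, hz, Polynomial.eval₂_at_zero]
  change constantCoeff (rename Sum.inl (q.coeff 0)) = _
  rw [constantCoeff_rename]

end EliL

open EliL in
theorem eli : S_ELI := by
  intro Ω _ A B hA hB hG hf h0
  set q := B /ₘ (Polynomial.X - Polynomial.C (-A)) with hq
  set f := B.eval (-A) with hfd
  have hB2 : B = Polynomial.C f + (Polynomial.X - Polynomial.C (-A)) * q := by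
    have h1 := Polynomial.modByMonic_add_div B (Polynomial.X - Polynomial.C (-A))
    rw [Polynomial.modByMonic_X_sub_C_eq_C_eval] at h1
    exact h1.symm
  have hq0 : constantCoeff (q.coeff 0) = 0 := by
    have h1 : B.coeff 1 = q.coeff 0 + A * q.coeff 1 := by
      conv_lhs => rw [hB2]
      rw [Polynomial.coeff_add, Polynomial.coeff_C_succ, sub_mul, Polynomial.coeff_sub,
        Polynomial.coeff_X_mul, Polynomial.coeff_C_mul]
      ring
    rw [h1, map_add, map_mul, hA, zero_mul, add_zero] at hB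
    exact hB
  have hev : evz B (X (Sum.inr true)) =
      ro f + (X (Sum.inr true) + ro A) * evz q (X (Sum.inr true)) := by
    conv_lhs => rw [hB2]
    unfold evz
    rw [Polynomial.eval₂_add, Polynomial.eval₂_C, Polynomial.eval₂_mul, Polynomial.eval₂_sub,
      Polynomial.eval₂_X, Polynomial.eval₂_C]
    change ro f + (X (Sum.inr true) - ro (-A)) * _ = _
    rw [map_neg, sub_neg_eq_add]
  have hΦ : au A q (hyp f) = X (Sum.inr false) * X (Sum.inr true) +
      X (Sum.inr false) * rename Sum.inl A +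
      B.eval₂ (rename Sum.inl : MvPolynomial Ω ℂ →ₐ[ℂ] MvPolynomial (Ω ⊕ Bool) ℂ).toRingHom
        (X (Sum.inr true)) := by
    change fw A q (ro f + X (Sum.inr false) * X (Sum.inr true)) =
      X (Sum.inr false) * X (Sum.inr true) + X (Sum.inr false) * ro A + evz B (X (Sum.inr true))
    rw [hev, map_add, map_mul, map_ro _ (fw_l A q), fw_f, fw_t]
    ring
  have hcc : ∀ a, constantCoeff (au A q (X a)) = 0 := by
    rintro (ω | b)
    · change constantCoeff (fw A q (X (Sum.inl ω))) = 0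
      rw [fw_l, constantCoeff_X]
    · cases b
      · change constantCoeff (fw A q (X (Sum.inr false))) = 0
        rw [fw_f, map_add, constantCoeff_X, cc_evz q _ (constantCoeff_X ℂ _), hq0, add_zero]
      · change constantCoeff (fw A q (X (Sum.inr true))) = 0
        rw [fw_t, map_add, constantCoeff_X]
        change 0 + constantCoeff (rename Sum.inl A) = 0
        rw [constantCoeff_rename, hA, add_zero]
  rw [← hΦ] at hG
  rw [← WMMC_hyp hf h0, ← WMMC_iso (au A q) rfl (IsoL.cc_comp _ hcc) (hyp_ne_zero f)]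
  refine hG ?_ ?_
  · intro h
    exact hyp_ne_zero f ((map_eq_zero_iff _ (au A q).injective).1 h)
  · change constantCoeff (fw A q (ro f + X (Sum.inr false) * X (Sum.inr true))) = 0
    rw [map_add, map_mul, map_ro _ (fw_l A q), fw_f, fw_t, map_add, map_mul]
    have h1 : constantCoeff (X (Sum.inr true) + ro A : MvPolynomial (Ω ⊕ Bool) ℂ) = 0 := by
      rw [map_add, constantCoeff_X]
      change 0 + constantCoeff (rename Sum.inl A) = 0
      rw [constantCoeff_rename, hA, add_zero]
    rw [h1, mul_zero, add_zero]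
    change constantCoeff (rename Sum.inl f) = 0
    rw [constantCoeff_rename, h0]

end Pool.Agent.Helper33K9.RO
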