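import Pool.Agent.Helper33K9.RO.Pres

set_option autoImplicit false

/-! # Presentations of the normal forms: the induction -/

namespace Pool.Agent.Helper33K9.RO

open MvPolynomial Pool.Agent.H628R4.TP Pool.Agent.W428.MOT Pool.Agent.TH192.MT
  Pool.Agent.Helper33K9.HP Pool.Agent.Helper33K9.FQ

variable {σ τ : Type} [Fintype σ] [Fintype τ]

theorem rename_val (D : Pr σ) {Ω Ω' : Type} (e : Ω → Ω') (x : σ → MvPolynomial Ω ℂ)
    (t : D.τ → MvPolynomial Ω ℂ) (Y : MvPolynomial Ω ℂ) :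
    rename e (D.val x t Y) = D.val (fun i => rename e (x i)) (fun i => rename e (t i))
      (rename e Y) := D.map_val (rename e) x t Y

theorem rename_aeval {Ω Ω' : Type} (e : Ω → Ω') (a : σ → MvPolynomial Ω ℂ)
    (F : MvPolynomial σ ℂ) : rename e (aeval a F) = aeval (fun i => rename e (a i)) F := by
  rw [← AlgHom.comp_apply, comp_aeval]

theorem pres_leaf {r : ℕ} (m : Fin r → σ → ℕ) :
    Pres (∑ j, ∏ i, X i ^ m j i : MvPolynomial σ ℂ) (prLeaf m) := by
  intro Ω _ a Y R ha h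
  refine Q_equiv (Equiv.sumEmpty Ω Empty).symm _ ?_
  have h1 : (rename (Equiv.sumEmpty Ω Empty).symm (Y * aeval a (∑ j, ∏ i, X i ^ m j i :
      MvPolynomial σ ℂ) + R) : MvPolynomial (Ω ⊕ Empty) ℂ) =
      (prLeaf m).val (fun i => rename Sum.inl (a i)) (fun i => X (Sum.inr i))
        (rename Sum.inl Y) + rename Sum.inl R := by
    rw [prLeaf_val]
    change rename Sum.inl _ = _
    simp only [map_add, map_mul, map_sum, map_prod, map_pow, aeval_X]
  rw [h1]
  exact h

theorem pres_add {F : MvPolynomial σ ℂ} {G : MvPolynomial τ ℂ} {D : Pr σ} {E : Pr τ}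
    (hD : Pres F D) (hE : Pres G E) :
    Pres (rename Sum.inl F + rename Sum.inr G : MvPolynomial (σ ⊕ τ) ℂ) (prAdd D E) := by
  intro Ω _ a Y R ha h
  have e1 : Y * aeval a (rename Sum.inl F + rename Sum.inr G : MvPolynomial (σ ⊕ τ) ℂ) + R =
      Y * aeval (fun i => a (Sum.inl i)) F + (Y * aeval (fun i => a (Sum.inr i)) G + R) := by
    rw [map_add, aeval_rename, aeval_rename]
    simp only [Function.comp_def]
    ring
  rw [e1]
  refine hD Ω (fun i => a (Sum.inl i)) Y _ (fun i => ha _) ?_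
  have e2 : (D.val (fun i => rename Sum.inl (a (Sum.inl i))) (fun i => X (Sum.inr i))
      (rename Sum.inl Y) + rename Sum.inl (Y * aeval (fun i => a (Sum.inr i)) G + R) :
      MvPolynomial (Ω ⊕ D.τ) ℂ) =
      rename Sum.inl Y * aeval (fun i => rename Sum.inl (a (Sum.inr i))) G +
        (D.val (fun i => rename Sum.inl (a (Sum.inl i))) (fun i => X (Sum.inr i))
          (rename Sum.inl Y) + rename Sum.inl R) := by
    rw [map_add, map_mul, rename_aeval]
    ring
  rw [e2]
  refine hE (Ω ⊕ D.τ) (fun i => rename Sum.inl (a (Sum.inr i))) (rename Sum.inl Y) _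
    (fun i => by rw [constantCoeff_rename]; exact ha _) ?_
  refine Q_equiv (Equiv.sumAssoc Ω D.τ E.τ) _ ?_
  refine Eq.mp (congrArg Q ?_) h
  simp only [map_add, prAdd_val, rename_val, rename_rename, rename_X, Function.comp_def,
    Equiv.sumAssoc_apply_inl_inl, Equiv.sumAssoc_apply_inl_inr, Equiv.sumAssoc_apply_inr]
  ring

/-- the new variables first -/
def E3 (Ω α β : Type) : ((Ω ⊕ Bool) ⊕ β) ⊕ α ≃ Ω ⊕ ((Bool ⊕ β) ⊕ α) where
  toFun := fun
    | Sum.inl (Sum.inl (Sum.inl i)) => Sum.inl i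
    | Sum.inl (Sum.inl (Sum.inr b)) => Sum.inr (Sum.inl (Sum.inl b))
    | Sum.inl (Sum.inr i) => Sum.inr (Sum.inl (Sum.inr i))
    | Sum.inr i => Sum.inr (Sum.inr i)
  invFun := fun
    | Sum.inl i => Sum.inl (Sum.inl (Sum.inl i))
    | Sum.inr (Sum.inl (Sum.inl b)) => Sum.inl (Sum.inl (Sum.inr b))
    | Sum.inr (Sum.inl (Sum.inr i)) => Sum.inl (Sum.inr i)
    | Sum.inr (Sum.inr i) => Sum.inr i
  left_inv := by rintro (((_ | _) | _) | _) <;> rfl
  right_inv := by rintro (_ | ((_ | _) | _)) <;> rfl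

theorem E3_1 (Ω α β : Type) (i : Ω) : E3 Ω α β (Sum.inl (Sum.inl (Sum.inl i))) = Sum.inl i := rfl

theorem E3_2 (Ω α β : Type) (b : Bool) :
    E3 Ω α β (Sum.inl (Sum.inl (Sum.inr b))) = Sum.inr (Sum.inl (Sum.inl b)) := rfl

theorem E3_3 (Ω α β : Type) (i : β) :
    E3 Ω α β (Sum.inl (Sum.inr i)) = Sum.inr (Sum.inl (Sum.inr i)) := rfl

theorem E3_4 (Ω α β : Type) (i : α) : E3 Ω α β (Sum.inr i) = Sum.inr (Sum.inr i) := rfl

theorem pres_mul (eli : S_ELI) {F : MvPolynomial σ ℂ} {G : MvPolynomial τ ℂ} {D : Pr σ}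
    {E : Pr τ} (hF : constantCoeff F = 0) (hG : constantCoeff G = 0)
    (hD : Pres F D) (hE : Pres G E) :
    Pres (rename Sum.inl F * rename Sum.inr G : MvPolynomial (σ ⊕ τ) ℂ) (prMul D E) := by
  intro Ω _ a Y R ha h
  set A : MvPolynomial Ω ℂ := -aeval (fun i => a (Sum.inl i)) F with hA
  set B : Polynomial (MvPolynomial Ω ℂ) := Polynomial.C R +
    Polynomial.C (Y * aeval (fun i => a (Sum.inr i)) G) * Polynomial.X with hB
  have e1 : Y * aeval a (rename Sum.inl F * rename Sum.inr G : MvPolynomial (σ ⊕ τ) ℂ) + R =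
      B.eval (-A) := by
    rw [hB, hA, map_mul, aeval_rename, aeval_rename, Polynomial.eval_add, Polynomial.eval_mul,
      Polynomial.eval_C, Polynomial.eval_C, Polynomial.eval_X, neg_neg]
    simp only [Function.comp_def]
    ring
  rw [e1]
  refine eli Ω A B ?_ ?_ ?_
  · rw [hA, map_neg, cc_aeval _ fun i => ha _, hF, neg_zero]
  · rw [hB, Polynomial.coeff_add, Polynomial.coeff_C_succ, Polynomial.coeff_C_mul,
      Polynomial.coeff_X_one, zero_add, mul_one, map_mul, cc_aeval _ fun i => ha _, hG, mul_zero]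
  · have e2 : (X (Sum.inr false) * X (Sum.inr true) + X (Sum.inr false) * rename Sum.inl A +
        B.eval₂ (rename Sum.inl : MvPolynomial Ω ℂ →ₐ[ℂ] MvPolynomial (Ω ⊕ Bool) ℂ).toRingHom
          (X (Sum.inr true)) : MvPolynomial (Ω ⊕ Bool) ℂ) =
        (X (Sum.inr true) * rename Sum.inl Y) *
          aeval (fun i => rename Sum.inl (a (Sum.inr i))) G +
        (X (Sum.inr false) * X (Sum.inr true) +
          (-X (Sum.inr false)) * aeval (fun i => rename Sum.inl (a (Sum.inl i))) F +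
            rename Sum.inl R) := by
      rw [hB, hA, Polynomial.eval₂_add, Polynomial.eval₂_mul, Polynomial.eval₂_C,
        Polynomial.eval₂_C, Polynomial.eval₂_X]
      simp only [AlgHom.toRingHom_eq_coe, RingHom.coe_coe, map_neg, map_mul, rename_aeval]
      ring
    rw [e2]
    refine hE (Ω ⊕ Bool) _ _ _ (fun i => by rw [constantCoeff_rename]; exact ha _) ?_
    have e3 : (E.val (fun i => rename Sum.inl (rename Sum.inl (a (Sum.inr i))))
        (fun i => X (Sum.inr i)) (rename Sum.inl (X (Sum.inr true) * rename Sum.inl Y)) +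
        rename Sum.inl (X (Sum.inr false) * X (Sum.inr true) +
          (-X (Sum.inr false)) * aeval (fun i => rename Sum.inl (a (Sum.inl i))) F +
            rename Sum.inl R) : MvPolynomial ((Ω ⊕ Bool) ⊕ E.τ) ℂ) =
        (-rename Sum.inl (X (Sum.inr false))) *
          aeval (fun i => rename Sum.inl (rename Sum.inl (a (Sum.inl i)))) F +
        (E.val (fun i => rename Sum.inl (rename Sum.inl (a (Sum.inr i))))
          (fun i => X (Sum.inr i)) (rename Sum.inl (X (Sum.inr true) * rename Sum.inl Y)) +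
          rename Sum.inl (X (Sum.inr false) * X (Sum.inr true) + rename Sum.inl R)) := by
      simp only [map_add, map_neg, map_mul, rename_aeval]
      ring
    rw [e3]
    refine hD ((Ω ⊕ Bool) ⊕ E.τ) _ _ _ (fun i => by
      rw [constantCoeff_rename, constantCoeff_rename]; exact ha _) ?_
    refine Q_equiv (E3 Ω D.τ E.τ) _ ?_
    refine Eq.mp (congrArg Q ?_) h
    simp only [map_add, map_neg, map_mul, prMul_val, rename_val, rename_rename, rename_X,
      Function.comp_def, E3_1, E3_2, E3_3, E3_4]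
    ring

/-- the new variables first -/
def E2 (Ω α : Type) : (Ω ⊕ Bool) ⊕ α ≃ Ω ⊕ (Bool ⊕ α) := Equiv.sumAssoc Ω Bool α

theorem pres_pow (eli : S_ELI) {F : MvPolynomial σ ℂ} {D : Pr σ} (hF : constantCoeff F = 0)
    {k : ℕ} (hk : 2 ≤ k) (hD : Pres F D) : Pres (F ^ k) (prPow D k) := by
  intro Ω _ a Y R ha h
  set A : MvPolynomial Ω ℂ := -aeval a F with hA
  set B : Polynomial (MvPolynomial Ω ℂ) := Polynomial.C R +
    Polynomial.C Y * Polynomial.X ^ k with hB
  have e1 : Y * aeval a (F ^ k) + R = B.eval (-A) := by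
    rw [hB, hA, map_pow, Polynomial.eval_add, Polynomial.eval_mul, Polynomial.eval_pow,
      Polynomial.eval_C, Polynomial.eval_C, Polynomial.eval_X, neg_neg]
    ring
  rw [e1]
  refine eli Ω A B ?_ ?_ ?_
  · rw [hA, map_neg, cc_aeval _ ha, hF, neg_zero]
  · rw [hB, Polynomial.coeff_add, Polynomial.coeff_C_succ, Polynomial.coeff_C_mul,
      Polynomial.coeff_X_pow, if_neg (by omega), mul_zero, add_zero, map_zero]
  · have e2 : (X (Sum.inr false) * X (Sum.inr true) + X (Sum.inr false) * rename Sum.inl A +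
        B.eval₂ (rename Sum.inl : MvPolynomial Ω ℂ →ₐ[ℂ] MvPolynomial (Ω ⊕ Bool) ℂ).toRingHom
          (X (Sum.inr true)) : MvPolynomial (Ω ⊕ Bool) ℂ) =
        (-X (Sum.inr false)) * aeval (fun i => rename Sum.inl (a i)) F +
        (X (Sum.inr false) * X (Sum.inr true) + rename Sum.inl Y * X (Sum.inr true) ^ k +
            rename Sum.inl R) := by
      rw [hB, hA, Polynomial.eval₂_add, Polynomial.eval₂_mul, Polynomial.eval₂_pow,
        Polynomial.eval₂_C, Polynomial.eval₂_C, Polynomial.eval₂_X]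
      simp only [AlgHom.toRingHom_eq_coe, RingHom.coe_coe, map_neg, rename_aeval]
      ring
    rw [e2]
    refine hD (Ω ⊕ Bool) _ _ _ (fun i => by rw [constantCoeff_rename]; exact ha _) ?_
    refine Q_equiv (Equiv.sumAssoc Ω Bool D.τ) _ ?_
    refine Eq.mp (congrArg Q ?_) h
    simp only [map_add, map_neg, map_mul, map_pow, prPow_val, rename_val, rename_rename, rename_X,
      Function.comp_def, Equiv.sumAssoc_apply_inl_inl, Equiv.sumAssoc_apply_inl_inr,
      Equiv.sumAssoc_apply_inr]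
    ring

theorem pres (eli : S_ELI) : S_PRES := by
  intro σ _ F h
  induction h with
  | leaf m hm => exact ⟨prLeaf m, prLeaf_LI m hm, pres_leaf m⟩
  | add F G _ _ h1 h2 =>
    obtain ⟨D, hD1, hD2⟩ := h1
    obtain ⟨E, hE1, hE2⟩ := h2
    exact ⟨prAdd D E, prAdd_LI hD1 hE1, pres_add hD2 hE2⟩
  | mul F G hF hG h1 h2 =>
    obtain ⟨D, hD1, hD2⟩ := h1
    obtain ⟨E, hE1, hE2⟩ := h2
    exact ⟨prMul D E, prMul_LI hD1 hE1, pres_mul eli hF.cc hG.cc hD2 hE2⟩
  | pow F k hk hF h1 =>
    obtain ⟨D, hD1, hD2⟩ := h1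
    exact ⟨prPow D k, prPow_LI hD1 (by omega), pres_pow eli hF.cc hk hD2⟩

end Pool.Agent.Helper33K9.RO
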