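import Pool.Agent.Helper33K9.RO.Lm
import Pool.Agent.Helper33K9.RO.Pres2

set_option autoImplicit false
set_option linter.unusedSectionVars false

/-! # The motivic monodromy conjecture for read-once formulas: assembly -/

namespace Pool.Agent.Helper33K9.RO

open Pool.Agent.H628R4.TP Pool.Agent.W428.MOT Pool.Agent.TH192.MT
  Pool.Agent.Helper33K9.HP Pool.Agent.Helper33K9.FQ

open MvPolynomial

theorem linv : S_LINV := by
  intro Ω _ Φ f g h ⟨S, hS, hZ⟩
  refine ⟨S, fun p hp => ⟨(hS p hp).1, fun b hb => (hS p hp).2 b ?_⟩, ?_⟩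
  · exact bf der Ω Ω Φ.symm g f (by rw [← h, AlgEquiv.symm_apply_apply]) b hb
  · rw [← jet Ω Φ f g h]
    exact hZ

/-- normal forms -/
theorem np_Q (pres : S_PRES) (spa : S_SPA) {σ : Type} [Fintype σ] {F : MvPolynomial σ ℂ}
    (hF : NP σ F) : Q F := by
  obtain ⟨D, hD, hP⟩ := pres σ F hF
  have h1 := hP σ X 1 0 (fun i => by rw [constantCoeff_X]) ?_
  · rw [aeval_X_left_apply, one_mul, add_zero] at h1
    exact h1
  · have h2 := spa (σ ⊕ D.τ) D.ι (fun j => Sum.elim (D.P j) (D.N j)) D.c hD.2 ?_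
    · refine Eq.mp (congrArg Q ?_) h2
      rw [map_zero, add_zero, map_one]
      unfold Pr.val
      refine Finset.sum_congr rfl fun j _ => ?_
      rw [Fintype.prod_sum_type, one_pow, mul_one, mul_assoc]
      simp only [Sum.elim_inl, Sum.elim_inr, rename_X]
      rfl
    · rw [Fintype.linearIndependent_iff]
      intro g hg
      refine hD.1 g (fun i => ?_) fun i => ?_
      · have h3 := congrFun hg (Sum.inl i)
        rw [Finset.sum_apply] at h3
        exact h3
      · have h3 := congrFun hg (Sum.inr i)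
        rw [Finset.sum_apply] at h3
        exact h3

/-- **The motivic monodromy conjecture for read-once formulas.** -/
theorem main (sc : S_SC) (liso : S_LISO) (pres : S_PRES) (spa : S_SPA) {Ω : Type} [Fintype Ω]
    {f : MvPolynomial Ω ℂ} (hf : Tls Ω f) (h0 : f ≠ 0) (p : Ω → ℂ) (hp : eval p f = 0) :
    WMMC (trn p f) := by
  classical
  obtain ⟨σ, i1, e, F, y, hF, hy, hG⟩ := tls_loc sc liso hf p
  obtain ⟨Φ, hΦ⟩ := inv Ω (fun ω => y (e ω)) hy.1 (by
    intro i
    have := hy.2 i
    convert this)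
  have h1 : lt p f = trn p f := by rw [lt, hp, map_zero, sub_zero]
  have h2 : Φ ((rename e.symm F : MvPolynomial Ω ℂ) : MvPowerSeries Ω ℂ) =
      (trn p f : MvPowerSeries Ω ℂ) := by
    rw [← h1, hG]
    have h3 : ∀ G : MvPolynomial Ω ℂ, Φ (G : MvPowerSeries Ω ℂ) =
        aeval (fun ω => y (e ω)) G := by
      intro G
      have h4 : ((Φ : MvPowerSeries Ω ℂ →ₐ[ℂ] MvPowerSeries Ω ℂ).comp
          (coeToMvPowerSeries.algHom ℂ) : MvPolynomial Ω ℂ →ₐ[ℂ] MvPowerSeries Ω ℂ) =
          aeval (fun ω => y (e ω)) := by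
        ext i : 1
        rw [aeval_X, ← hΦ]
        change Φ ((X i : MvPolynomial Ω ℂ) : MvPowerSeries Ω ℂ) = _
        rw [coe_X]
      exact congrArg (fun φ => φ G) h4
    rw [h3, aeval_rename]
    simp only [Function.comp_def, Equiv.apply_symm_apply]
  refine linv Ω Φ _ _ h2 ?_
  have h5 : (rename e.symm F : MvPolynomial Ω ℂ) ≠ 0 := by
    intro h
    rw [h, coe_zero, map_zero] at h2
    exact trn_ne_zero h0 p (coe_eq_zero_iff.1 h2.symm)
  refine Q_equiv e _ ?_ h5 ?_
  · rw [rename_rename]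
    have h6 : (e : Ω → σ) ∘ e.symm = id := by
      funext i
      simp
    rw [h6, rename_id_apply]
    exact np_Q pres spa hF
  · rw [constantCoeff_rename]
    exact hF.cc

end Pool.Agent.Helper33K9.RO
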