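import Pool.Agent.Helper33K9.RO.St4

/-!
# RO [FML]
-/

set_option autoImplicit false

namespace Pool.Agent.Helper33K9.RO

open MvPolynomial

/-- products of nodes `f - γ` of the root can be added -/
theorem FmlL.root {Ω : Type} [Fintype Ω] {f h : MvPolynomial Ω ℂ} (hf : Mls Ω f h)
    {k : MvPolynomial Ω ℂ} (hk : k ∈ NodeProd {f}) : Mls Ω f (h * k) := by
  unfold NodeProd at hk
  induction hk using Submonoid.closure_induction_right generalizing h with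
  | one => rw [mul_one]; exact hf
  | mul_right x hx y hy ih =>
    obtain ⟨g, hg, γ, rfl⟩ := hy
    rw [Set.mem_singleton_iff] at hg
    rw [hg, ← mul_assoc]
    exact Mls.node γ f _ (ih hf)

/-- a product of nodes of `insert f S` -/
theorem FmlL.split {Ω : Type} {f : MvPolynomial Ω ℂ} {S : Set (MvPolynomial Ω ℂ)}
    {h : MvPolynomial Ω ℂ} (hh : h ∈ NodeProd (insert f S)) :
    ∃ a ∈ NodeProd S, ∃ b ∈ NodeProd ({f} : Set (MvPolynomial Ω ℂ)), h = a * b := by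
  have h1 : NodeProd (insert f S) ≤ NodeProd S ⊔ NodeProd {f} := by
    unfold NodeProd
    rw [Submonoid.closure_le]
    rintro x ⟨g, hg, γ, rfl⟩
    rcases Set.mem_insert_iff.1 hg with h | h
    · exact Submonoid.mem_sup_right (Submonoid.subset_closure ⟨g, h, γ, rfl⟩)
    · exact Submonoid.mem_sup_left (Submonoid.subset_closure ⟨g, h, γ, rfl⟩)
  obtain ⟨a, ha, b, hb, hab⟩ := Submonoid.mem_sup.1 (h1 hh)
  exact ⟨a, ha, b, hb, hab.symm⟩

theorem FmlL.union {Ω : Type} {S T : Set (MvPolynomial Ω ℂ)} {h : MvPolynomial Ω ℂ}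
    (hh : h ∈ NodeProd (S ∪ T)) : ∃ a ∈ NodeProd S, ∃ b ∈ NodeProd T, h = a * b := by
  have h1 : NodeProd (S ∪ T) ≤ NodeProd S ⊔ NodeProd T := by
    unfold NodeProd
    rw [Submonoid.closure_le]
    rintro x ⟨g, hg, γ, rfl⟩
    rcases hg with h | h
    · exact Submonoid.mem_sup_left (Submonoid.subset_closure ⟨g, h, γ, rfl⟩)
    · exact Submonoid.mem_sup_right (Submonoid.subset_closure ⟨g, h, γ, rfl⟩)
  obtain ⟨a, ha, b, hb, hab⟩ := Submonoid.mem_sup.1 (h1 hh)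
  exact ⟨a, ha, b, hb, hab.symm⟩

theorem FmlL.image {Ω Ω' : Type} (φ : MvPolynomial Ω ℂ →ₐ[ℂ] MvPolynomial Ω' ℂ)
    {S : Set (MvPolynomial Ω ℂ)} {h : MvPolynomial Ω' ℂ} (hh : h ∈ NodeProd (φ '' S)) :
    ∃ a ∈ NodeProd S, h = φ a := by
  have h1 : NodeProd (φ '' S) ≤ (NodeProd S).map (φ : MvPolynomial Ω ℂ →* MvPolynomial Ω' ℂ) := by
    unfold NodeProd
    rw [Submonoid.closure_le]
    rintro x ⟨g, ⟨g', hg', rfl⟩, γ, rfl⟩
    refine ⟨g' - C γ, Submonoid.subset_closure ⟨g', hg', γ, rfl⟩, ?_⟩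
    show φ (g' - C γ) = φ g' - C γ
    rw [map_sub]
    congr 1
    exact φ.commutes γ
  obtain ⟨a, ha, hab⟩ := h1 hh
  exact ⟨a, ha, hab.symm⟩

theorem fml : S_FML := by
  intro Ω _ f S hF
  induction hF with
  | cls f hf =>
    intro h hh
    have := FmlL.root (Mls.cls f hf) hh
    rwa [one_mul] at this
  | sum f g S T _ _ ihf ihg =>
    intro h hh
    obtain ⟨a, ha, b, hb, rfl⟩ := FmlL.split hh
    obtain ⟨a1, ha1, a2, ha2, rfl⟩ := FmlL.union ha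
    obtain ⟨c1, hc1, rfl⟩ := FmlL.image (rename Sum.inl) ha1
    obtain ⟨c2, hc2, rfl⟩ := FmlL.image (rename Sum.inr) ha2
    exact FmlL.root (Mls.sum f c1 g c2 (ihf c1 hc1) (ihg c2 hc2)) hb
  | prod f g S T _ _ ihf ihg =>
    intro h hh
    obtain ⟨a, ha, b, hb, rfl⟩ := FmlL.split hh
    obtain ⟨a1, ha1, a2, ha2, rfl⟩ := FmlL.union ha
    obtain ⟨c1, hc1, rfl⟩ := FmlL.image (rename Sum.inl) ha1
    obtain ⟨c2, hc2, rfl⟩ := FmlL.image (rename Sum.inr) ha2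
    exact FmlL.root (Mls.prod f c1 g c2 (ihf c1 hc1) (ihg c2 hc2)) hb
  | comp φ f S _ ihf =>
    intro h hh
    obtain ⟨a, ha, b, hb, rfl⟩ := FmlL.split hh
    exact FmlL.root (Mls.comp φ f a (ihf a ha)) hb
  | @iso Ω₁ Ω₂ _ _ Φ f S _ ihf =>
    intro h hh
    have hh' : h ∈ NodeProd (⇑(Φ.toAlgHom) '' S) := hh
    obtain ⟨a, ha, e⟩ := FmlL.image Φ.toAlgHom hh'
    have e' : h = Φ a := e
    rw [e']
    exact Mls.iso Φ f a (ihf a ha)

end Pool.Agent.Helper33K9.RO
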