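import Pool.Agent.Helper33K9.RO.St

set_option autoImplicit false

/-! # Presentations of the normal forms -/

namespace Pool.Agent.Helper33K9.RO

open MvPolynomial Pool.Agent.H628R4.TP Pool.Agent.W428.MOT Pool.Agent.TH192.MT
  Pool.Agent.Helper33K9.HP Pool.Agent.Helper33K9.FQ

theorem Q_equiv {σ τ : Type} [Fintype σ] [Fintype τ] (e : σ ≃ τ) (f : MvPolynomial σ ℂ)
    (h : Q (rename e f)) : Q f := by
  intro hf h0
  have h1 : (renameEquiv ℂ e) f ≠ 0 := (map_ne_zero_iff _ (renameEquiv ℂ e).injective).2 hf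
  have h2 := h h1 (by rw [constantCoeff_rename]; exact h0)
  exact (WMMC_iso (renameEquiv ℂ e) (Fintype.card_congr e) (fun a => constantCoeff_rename _ _)
    hf).1 h2

theorem cc_aeval {σ Ω : Type} (a : σ → MvPolynomial Ω ℂ) (ha : ∀ i, constantCoeff (a i) = 0)
    (F : MvPolynomial σ ℂ) : constantCoeff (aeval a F) = constantCoeff F := by
  have : (constantCoeff.comp ((aeval a : MvPolynomial σ ℂ →ₐ[ℂ] MvPolynomial Ω ℂ) :
      MvPolynomial σ ℂ →+* MvPolynomial Ω ℂ)) = (constantCoeff : MvPolynomial σ ℂ →+* ℂ) := by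
    refine ringHom_ext (fun r => ?_) fun i => ?_
    · simp
    · simp [ha]
  exact RingHom.congr_fun this F

theorem NP.cc {σ : Type} [Fintype σ] {F : MvPolynomial σ ℂ} (h : NP σ F) :
    constantCoeff F = 0 := by
  classical
  induction h with
  | @leaf σ _ r m hm =>
    rw [map_sum]
    refine Finset.sum_eq_zero fun j _ => ?_
    obtain ⟨i, hi⟩ : ∃ i, m j i ≠ 0 := by
      by_contra h
      push Not at h
      refine hm.ne_zero j ?_
      funext i
      simp [h]
    rw [map_prod]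
    refine Finset.prod_eq_zero (Finset.mem_univ i) ?_
    rw [map_pow, constantCoeff_X, zero_pow hi]
  | add F G _ _ h1 h2 => rw [map_add, constantCoeff_rename, constantCoeff_rename, h1, h2, add_zero]
  | mul F G _ _ h1 h2 => rw [map_mul, constantCoeff_rename, h1, zero_mul]
  | pow F k hk _ h1 => rw [map_pow, h1, zero_pow (by omega)]

variable {σ τ : Type} [Fintype σ] [Fintype τ]

theorem Pr.map_val (D : Pr σ) {A B : Type} [CommRing A] [Algebra ℂ A] [CommRing B] [Algebra ℂ B]
    (φ : A →ₐ[ℂ] B) (x : σ → A) (t : D.τ → A) (Y : A) :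
    φ (D.val x t Y) = D.val (fun i => φ (x i)) (fun i => φ (t i)) (φ Y) := by
  unfold Pr.val
  simp only [map_sum, map_mul, map_pow, map_prod, AlgHom.commutes]

/-- leaves -/
@[reducible] def prLeaf {r : ℕ} (m : Fin r → σ → ℕ) : Pr σ where
  τ := Empty
  ι := Fin r
  fτ := inferInstance
  fι := inferInstance
  P := m
  N := fun _ i => i.elim
  c := fun _ => 1
  o := fun _ => 1

theorem prLeaf_val {r : ℕ} (m : Fin r → σ → ℕ) {A : Type} [CommRing A] [Algebra ℂ A]
    (x : σ → A) (t : Empty → A) (Y : A) :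
    (prLeaf m).val x t Y = Y * ∑ j, ∏ i, x i ^ m j i := by
  unfold Pr.val
  rw [Finset.mul_sum]
  refine Finset.sum_congr rfl fun j _ => ?_
  have h : (∏ i : Empty, t i ^ (prLeaf m).N j i) = 1 := Fintype.prod_empty _
  change algebraMap ℂ A 1 * Y ^ 1 * (∏ i, x i ^ m j i) *
    ∏ i : Empty, t i ^ (prLeaf m).N j i = _
  rw [map_one, one_mul, pow_one, h, mul_one]

/-- sums -/
@[reducible] def prAdd (D : Pr σ) (E : Pr τ) : Pr (σ ⊕ τ) where
  τ := D.τ ⊕ E.τ
  ι := D.ι ⊕ E.ι
  fτ := inferInstance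
  fι := inferInstance
  P := Sum.elim (fun j => Sum.elim (D.P j) 0) fun j => Sum.elim 0 (E.P j)
  N := Sum.elim (fun j => Sum.elim (D.N j) 0) fun j => Sum.elim 0 (E.N j)
  c := Sum.elim D.c E.c
  o := Sum.elim D.o E.o

theorem prAdd_val (D : Pr σ) (E : Pr τ) {A : Type} [CommRing A] [Algebra ℂ A]
    (x : σ ⊕ τ → A) (t : D.τ ⊕ E.τ → A) (Y : A) :
    (prAdd D E).val x t Y = D.val (fun i => x (Sum.inl i)) (fun i => t (Sum.inl i)) Y +
      E.val (fun i => x (Sum.inr i)) (fun i => t (Sum.inr i)) Y := by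
  unfold Pr.val
  refine (Fintype.sum_sum_type _).trans ?_
  congr 1
  · refine Finset.sum_congr rfl fun j _ => ?_
    change algebraMap ℂ A (D.c j) * Y ^ D.o j *
      (∏ i : σ ⊕ τ, x i ^ (Sum.elim (D.P j) 0 i : ℕ)) *
      (∏ i : D.τ ⊕ E.τ, t i ^ (Sum.elim (D.N j) 0 i : ℕ)) = _
    simp [Fintype.prod_sum_type]
  · refine Finset.sum_congr rfl fun j _ => ?_
    change algebraMap ℂ A (E.c j) * Y ^ E.o j *
      (∏ i : σ ⊕ τ, x i ^ (Sum.elim 0 (E.P j) i : ℕ)) *
      (∏ i : D.τ ⊕ E.τ, t i ^ (Sum.elim 0 (E.N j) i : ℕ)) = _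
    simp [Fintype.prod_sum_type]

/-- products -/
@[reducible] def prMul (D : Pr σ) (E : Pr τ) : Pr (σ ⊕ τ) where
  τ := (Bool ⊕ E.τ) ⊕ D.τ
  ι := Unit ⊕ (D.ι ⊕ E.ι)
  fτ := inferInstance
  fι := inferInstance
  P := Sum.elim 0 (Sum.elim (fun j => Sum.elim (D.P j) 0) fun j => Sum.elim 0 (E.P j))
  N := Sum.elim (fun _ => Sum.elim (Sum.elim (fun _ => 1) 0) 0)
    (Sum.elim (fun j => Sum.elim (Sum.elim (fun b => if b = false then D.o j else 0) 0) (D.N j))
      fun j => Sum.elim (Sum.elim (fun b => if b = true then E.o j else 0) (E.N j)) 0)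
  c := Sum.elim (fun _ => 1) (Sum.elim (fun j => (-1) ^ D.o j * D.c j) E.c)
  o := Sum.elim (fun _ => 0) (Sum.elim (fun _ => 0) E.o)

theorem prMul_val (D : Pr σ) (E : Pr τ) {A : Type} [CommRing A] [Algebra ℂ A]
    (x : σ ⊕ τ → A) (t : (Bool ⊕ E.τ) ⊕ D.τ → A) (Y : A) :
    (prMul D E).val x t Y = t (Sum.inl (Sum.inl false)) * t (Sum.inl (Sum.inl true)) +
      (D.val (fun i => x (Sum.inl i)) (fun i => t (Sum.inr i)) (-t (Sum.inl (Sum.inl false))) +
      E.val (fun i => x (Sum.inr i)) (fun i => t (Sum.inl (Sum.inr i)))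
        (t (Sum.inl (Sum.inl true)) * Y)) := by
  unfold Pr.val
  refine (Fintype.sum_sum_type _).trans ?_
  congr 1
  · rw [Finset.univ_unique, Finset.sum_singleton]
    change algebraMap ℂ A 1 * Y ^ 0 * (∏ i : σ ⊕ τ, x i ^ 0) *
      (∏ i : (Bool ⊕ E.τ) ⊕ D.τ, t i ^ (Sum.elim (Sum.elim (fun _ => 1) 0) 0 i : ℕ)) = _
    simp only [Fintype.prod_sum_type, Sum.elim_inl, Sum.elim_inr, Pi.zero_apply, pow_zero,
      Finset.prod_const_one, mul_one, pow_one, Fintype.prod_bool, map_one, one_mul]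
    ring
  · refine (Fintype.sum_sum_type _).trans ?_
    congr 1
    · refine Finset.sum_congr rfl fun j _ => ?_
      change algebraMap ℂ A ((-1) ^ D.o j * D.c j) * Y ^ 0 *
        (∏ i : σ ⊕ τ, x i ^ (Sum.elim (D.P j) 0 i : ℕ)) *
        (∏ i : (Bool ⊕ E.τ) ⊕ D.τ, t i ^ (Sum.elim (Sum.elim
          (fun b => if b = false then D.o j else 0) 0) (D.N j) i : ℕ)) = _
      simp only [Fintype.prod_sum_type, Sum.elim_inl, Sum.elim_inr, Pi.zero_apply, pow_zero,
        Finset.prod_const_one, mul_one, Fintype.prod_bool, map_one, one_mul, map_mul, map_pow,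
        map_neg, if_true, Bool.true_eq_false, if_false]
      rw [neg_pow (t _)]
      ring
    · refine Finset.sum_congr rfl fun j _ => ?_
      change algebraMap ℂ A (E.c j) * Y ^ E.o j *
        (∏ i : σ ⊕ τ, x i ^ (Sum.elim 0 (E.P j) i : ℕ)) *
        (∏ i : (Bool ⊕ E.τ) ⊕ D.τ, t i ^ (Sum.elim (Sum.elim
          (fun b => if b = true then E.o j else 0) (E.N j)) 0 i : ℕ)) = _
      simp only [Fintype.prod_sum_type, Sum.elim_inl, Sum.elim_inr, Pi.zero_apply, pow_zero,
        Finset.prod_const_one, mul_one, Fintype.prod_bool, one_mul, if_true,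
        Bool.false_eq_true, if_false, mul_pow]
      ring

/-- powers -/
@[reducible] def prPow (D : Pr σ) (k : ℕ) : Pr σ where
  τ := Bool ⊕ D.τ
  ι := Bool ⊕ D.ι
  fτ := inferInstance
  fι := inferInstance
  P := Sum.elim 0 D.P
  N := Sum.elim (fun b => Sum.elim (fun i => if b = false then 1 else if i = true then k else 0) 0)
    fun j => Sum.elim (fun i => if i = false then D.o j else 0) (D.N j)
  c := Sum.elim (fun _ => 1) fun j => (-1) ^ D.o j * D.c j
  o := Sum.elim (fun b => if b = true then 1 else 0) fun _ => 0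

theorem prPow_val (D : Pr σ) (k : ℕ) {A : Type} [CommRing A] [Algebra ℂ A]
    (x : σ → A) (t : Bool ⊕ D.τ → A) (Y : A) :
    (prPow D k).val x t Y = (t (Sum.inl false) * t (Sum.inl true) + Y * t (Sum.inl true) ^ k) +
      D.val x (fun i => t (Sum.inr i)) (-t (Sum.inl false)) := by
  unfold Pr.val
  refine (Fintype.sum_sum_type _).trans ?_
  congr 1
  · rw [Fintype.sum_bool]
    change algebraMap ℂ A 1 * Y ^ 1 * (∏ i : σ, x i ^ 0) *
        (∏ i : Bool ⊕ D.τ, t i ^ (Sum.elim (fun i => if i = true then k else 0) 0 i : ℕ)) +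
      algebraMap ℂ A 1 * Y ^ 0 * (∏ i : σ, x i ^ 0) *
        (∏ i : Bool ⊕ D.τ, t i ^ (Sum.elim (fun _ => 1) 0 i : ℕ)) = _
    simp only [Fintype.prod_sum_type, Sum.elim_inl, Sum.elim_inr, Pi.zero_apply, pow_zero,
      Finset.prod_const_one, mul_one, pow_one, Fintype.prod_bool, map_one, one_mul, if_true,
      Bool.false_eq_true, if_false]
    ring
  · refine Finset.sum_congr rfl fun j _ => ?_
    change algebraMap ℂ A ((-1) ^ D.o j * D.c j) * Y ^ 0 * (∏ i : σ, x i ^ D.P j i) *
      (∏ i : Bool ⊕ D.τ, t i ^ (Sum.elim (fun i => if i = false then D.o j else 0) (D.N j) i : ℕ)) =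
      _
    simp only [Fintype.prod_sum_type, Sum.elim_inl, Sum.elim_inr, pow_zero, mul_one,
      Fintype.prod_bool, map_one, one_mul, map_mul, map_pow, map_neg, if_true,
      Bool.true_eq_false, if_false]
    rw [neg_pow (t _)]
    ring

/-! ### linear independence -/

theorem prLeaf_LI {r : ℕ} (m : Fin r → σ → ℕ)
    (hm : LinearIndependent ℚ (fun j i => (m j i : ℚ))) : (prLeaf m).LI := by
  refine ⟨fun g h _ => ?_, fun _ => one_ne_zero⟩
  refine Fintype.linearIndependent_iff.1 hm g ?_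
  funext i
  rw [Finset.sum_apply]
  exact h i

theorem prAdd_LI {D : Pr σ} {E : Pr τ} (hD : D.LI) (hE : E.LI) : (prAdd D E).LI := by
  refine ⟨fun g h1 h2 => ?_, ?_⟩
  · have a1 : ∀ j, g (Sum.inl j) = 0 := by
      refine hD.1 (fun j => g (Sum.inl j)) (fun i => ?_) fun i => ?_
      · have := (Fintype.sum_sum_type _).symm.trans (h1 (Sum.inl i))
        simpa [prAdd] using this
      · have := (Fintype.sum_sum_type _).symm.trans (h2 (Sum.inl i))
        simpa [prAdd] using this
    have a2 : ∀ j, g (Sum.inr j) = 0 := by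
      refine hE.1 (fun j => g (Sum.inr j)) (fun i => ?_) fun i => ?_
      · have := (Fintype.sum_sum_type _).symm.trans (h1 (Sum.inr i))
        simpa [prAdd] using this
      · have := (Fintype.sum_sum_type _).symm.trans (h2 (Sum.inr i))
        simpa [prAdd] using this
    rintro (j | j)
    · exact a1 j
    · exact a2 j
  · rintro (j | j)
    · exact hD.2 j
    · exact hE.2 j

theorem prMul_LI {D : Pr σ} {E : Pr τ} (hD : D.LI) (hE : E.LI) : (prMul D E).LI := by
  refine ⟨fun g h1 h2 => ?_, ?_⟩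
  · have a1 : ∀ j, g (Sum.inr (Sum.inl j)) = 0 := by
      refine hD.1 (fun j => g (Sum.inr (Sum.inl j))) (fun i => ?_) fun i => ?_
      · have h3 := (Fintype.sum_sum_type _).symm.trans (h1 (Sum.inl i))
        rw [Fintype.sum_sum_type] at h3
        simpa [prMul] using h3
      · have h3 := (Fintype.sum_sum_type _).symm.trans (h2 (Sum.inr i))
        rw [Fintype.sum_sum_type] at h3
        simpa [prMul] using h3
    have a2 : ∀ j, g (Sum.inr (Sum.inr j)) = 0 := by
      refine hE.1 (fun j => g (Sum.inr (Sum.inr j))) (fun i => ?_) fun i => ?_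
      · have h3 := (Fintype.sum_sum_type _).symm.trans (h1 (Sum.inr i))
        rw [Fintype.sum_sum_type] at h3
        simpa [prMul] using h3
      · have h3 := (Fintype.sum_sum_type _).symm.trans (h2 (Sum.inl (Sum.inr i)))
        rw [Fintype.sum_sum_type] at h3
        simpa [prMul] using h3
    have a3 : g (Sum.inl ()) = 0 := by
      have h3 := (Fintype.sum_sum_type _).symm.trans (h2 (Sum.inl (Sum.inl false)))
      rw [Fintype.sum_sum_type] at h3
      simpa [prMul, a1, a2] using h3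
    rintro (j | j | j)
    · exact a3
    · exact a1 j
    · exact a2 j
  · rintro (j | j | j)
    · exact one_ne_zero
    · exact mul_ne_zero (pow_ne_zero _ (neg_ne_zero.2 one_ne_zero)) (hD.2 j)
    · exact hE.2 j

theorem prPow_LI {D : Pr σ} (hD : D.LI) {k : ℕ} (hk : k ≠ 0) : (prPow D k).LI := by
  refine ⟨fun g h1 h2 => ?_, ?_⟩
  · have a1 : ∀ j, g (Sum.inr j) = 0 := by
      refine hD.1 (fun j => g (Sum.inr j)) (fun i => ?_) fun i => ?_
      · have h3 := (Fintype.sum_sum_type _).symm.trans (h1 i)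
        simpa [prPow] using h3
      · have h3 := (Fintype.sum_sum_type _).symm.trans (h2 (Sum.inr i))
        simpa [prPow] using h3
    have a2 : g (Sum.inl false) = 0 := by
      have h3 := (Fintype.sum_sum_type _).symm.trans (h2 (Sum.inl false))
      rw [Fintype.sum_bool] at h3
      simpa [prPow, a1] using h3
    have a3 : g (Sum.inl true) = 0 := by
      have h3 := (Fintype.sum_sum_type _).symm.trans (h2 (Sum.inl true))
      rw [Fintype.sum_bool] at h3
      simpa [prPow, a1, a2, hk] using h3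
    rintro ((_ | _) | j)
    · exact a2
    · exact a3
    · exact a1 j
  · rintro (j | j)
    · exact one_ne_zero
    · exact mul_ne_zero (pow_ne_zero _ (neg_ne_zero.2 one_ne_zero)) (hD.2 j)

end Pool.Agent.Helper33K9.RO
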