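import Pool.Agent.Helper33K9.RO.St2
import Pool.Agent.Helper33K9.RO.Pres

/-!
[HYPN] several hyperbolic planes
-/

set_option autoImplicit false

namespace Pool.Agent.Helper33K9.RO

open MvPolynomial Pool.Agent.H628R4.TP Pool.Agent.W428.MOT Pool.Agent.TH192.MT
  Pool.Agent.Helper33K9.HP Pool.Agent.Helper33K9.FQ

namespace HypnL

theorem wmmc_equiv {σ τ : Type} [Fintype σ] [Fintype τ] (e : σ ≃ τ) {f : MvPolynomial σ ℂ}
    (hf : f ≠ 0) : WMMC (rename e f) ↔ WMMC f :=
  WMMC_iso (renameEquiv ℂ e) (Fintype.card_congr e) (fun a => constantCoeff_rename _ _) hf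

/-- `((σ ⊕ Fin r) ⊕ Fin r) ⊕ Bool ≃ (σ ⊕ Fin (r + 1)) ⊕ Fin (r + 1)` -/
def sh (σ : Type) (r : ℕ) : ((σ ⊕ Fin r) ⊕ Fin r) ⊕ Bool ≃ (σ ⊕ Fin (r + 1)) ⊕ Fin (r + 1) where
  toFun
    | Sum.inl (Sum.inl (Sum.inl i)) => Sum.inl (Sum.inl i)
    | Sum.inl (Sum.inl (Sum.inr j)) => Sum.inl (Sum.inr j.succ)
    | Sum.inl (Sum.inr j) => Sum.inr j.succ
    | Sum.inr false => Sum.inl (Sum.inr 0)
    | Sum.inr true => Sum.inr 0
  invFun
    | Sum.inl (Sum.inl i) => Sum.inl (Sum.inl (Sum.inl i))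
    | Sum.inl (Sum.inr j) =>
      Fin.cases (motive := fun _ => ((σ ⊕ Fin r) ⊕ Fin r) ⊕ Bool) (Sum.inr false)
        (fun k => Sum.inl (Sum.inl (Sum.inr k))) j
    | Sum.inr j =>
      Fin.cases (motive := fun _ => ((σ ⊕ Fin r) ⊕ Fin r) ⊕ Bool) (Sum.inr true)
        (fun k => Sum.inl (Sum.inr k)) j
  left_inv := by
    rintro (((i | j) | j) | b)
    · rfl
    · rfl
    · rfl
    · cases b <;> rfl
  right_inv := by
    rintro ((i | j) | j)
    · rfl
    · refine Fin.cases ?_ (fun k => ?_) j <;> rfl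
    · refine Fin.cases ?_ (fun k => ?_) j <;> rfl

end HypnL

open HypnL in
theorem hypn : S_HYPN := by
  classical
  intro σ _ r
  have hcc : ∀ (r : ℕ) (g : MvPolynomial σ ℂ), constantCoeff g = 0 →
      constantCoeff (hypN r g) = 0 := by
    intro r g hg
    unfold hypN
    rw [map_add, constantCoeff_rename, hg, map_sum, zero_add]
    exact Finset.sum_eq_zero fun j _ => by rw [map_mul, constantCoeff_X, zero_mul]
  have hne : ∀ (r : ℕ) (g : MvPolynomial σ ℂ), g ≠ 0 → hypN r g ≠ 0 := by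
    intro r g hg h
    apply hg
    have h1 := congrArg (aeval (R := ℂ) (Sum.elim (Sum.elim X fun _ => 0) fun _ => 0 :
      (σ ⊕ Fin r) ⊕ Fin r → MvPolynomial σ ℂ)) h
    unfold hypN at h1
    rw [map_add, aeval_rename, map_sum, map_zero, Finset.sum_eq_zero, add_zero] at h1
    · refine Eq.trans ?_ h1
      exact (aeval_X_left_apply g).symm
    · intro j _
      rw [map_mul, aeval_X, aeval_X, Sum.elim_inr, mul_zero]
  induction r with
  | zero =>
    intro g hg h0
    let e : σ ≃ (σ ⊕ Fin 0) ⊕ Fin 0 :=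
      (Equiv.sumEmpty σ (Fin 0)).symm.trans (Equiv.sumEmpty (σ ⊕ Fin 0) (Fin 0)).symm
    have h1 : hypN 0 g = rename e g := by
      unfold hypN
      rw [Finset.univ_eq_empty, Finset.sum_empty, add_zero]
      rfl
    rw [h1]
    exact wmmc_equiv e hg
  | succ r ih =>
    intro g hg h0
    have h1 : hypN (r + 1) g = rename (sh σ r) (hyp (hypN r g)) := by
      unfold hypN hyp
      rw [Fin.sum_univ_succ]
      simp only [map_add, map_sum, map_mul, rename_rename, rename_X, Function.comp_def]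
      change _ = (rename (fun i => Sum.inl (Sum.inl i)) g +
        ∑ j : Fin r, X (Sum.inl (Sum.inr j.succ)) * X (Sum.inr j.succ)) +
        X (Sum.inl (Sum.inr 0)) * X (Sum.inr 0)
      ring
    rw [h1, wmmc_equiv (sh σ r), WMMC_hyp (hne r g hg) (hcc r g h0)]
    · exact ih g hg h0
    · exact hyp_ne_zero _

end Pool.Agent.Helper33K9.RO
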