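import Pool.Agent.Helper33K9.RO.St
import Pool.Agent.Helper33K9.FQ.Iso

/-!
[LISO] isomorphisms of polynomial rings.
-/

set_option autoImplicit false

namespace Pool.Agent.Helper33K9.RO

open MvPolynomial Pool.Agent.Helper33K9.FQ Pool.Agent.Helper33K9.FQ.IsoL

namespace LisoL

variable {Ω Ω' : Type} [Fintype Ω] [Fintype Ω']

theorem ext_eq (Ψ : MvPolynomial Ω ℂ ≃ₐ[ℂ] MvPolynomial Ω' ℂ) (ε : Ω ≃ Ω')
    (Θ : MvPowerSeries Ω' ℂ ≃ₐ[ℂ] MvPowerSeries Ω' ℂ)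
    (hΘ : ∀ j, Θ (MvPowerSeries.X j) =
      ((Ψ (X (ε.symm j)) : MvPolynomial Ω' ℂ) : MvPowerSeries Ω' ℂ)) (Q : MvPolynomial Ω ℂ) :
    ((Ψ Q : MvPolynomial Ω' ℂ) : MvPowerSeries Ω' ℂ) =
      Θ (MvPowerSeries.renameEquiv ℂ ε (Q : MvPowerSeries Ω ℂ)) := by
  have : ((coeToMvPowerSeries.ringHom (σ := Ω') (R := ℂ)).comp
      (Ψ : MvPolynomial Ω ℂ →+* MvPolynomial Ω' ℂ)) =
      ((Θ : MvPowerSeries Ω' ℂ →+* MvPowerSeries Ω' ℂ).comp
      ((MvPowerSeries.renameEquiv ℂ ε : MvPowerSeries Ω ℂ ≃ₐ[ℂ] MvPowerSeries Ω' ℂ) :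
        MvPowerSeries Ω ℂ →+* MvPowerSeries Ω' ℂ)).comp
        (coeToMvPowerSeries.ringHom (σ := Ω) (R := ℂ)) := by
    refine ringHom_ext (fun r => ?_) fun i => ?_
    · have h1 : Ψ (C r) = C r := Ψ.commutes r
      change ((Ψ (C r) : MvPolynomial Ω' ℂ) : MvPowerSeries Ω' ℂ) =
        Θ (MvPowerSeries.renameEquiv ℂ ε ((C r : MvPolynomial Ω ℂ) : MvPowerSeries Ω ℂ))
      rw [h1, coe_C, coe_C]
      have h2 : (MvPowerSeries.renameEquiv ℂ ε) (MvPowerSeries.C r) = MvPowerSeries.C r :=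
        (MvPowerSeries.renameEquiv ℂ ε).commutes r
      rw [h2]
      exact (Θ.commutes r).symm
    · change ((Ψ (X i) : MvPolynomial Ω' ℂ) : MvPowerSeries Ω' ℂ) =
        Θ (MvPowerSeries.renameEquiv ℂ ε ((X i : MvPolynomial Ω ℂ) : MvPowerSeries Ω ℂ))
      rw [coe_X]
      have h2 : (MvPowerSeries.renameEquiv ℂ ε) (MvPowerSeries.X i) =
        MvPowerSeries.X (ε i) := MvPowerSeries.rename_X _ _
      rw [h2, hΘ, ε.symm_apply_apply]
  exact RingHom.congr_fun this Q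

theorem loc_iso (Ψ : MvPolynomial Ω ℂ ≃ₐ[ℂ] MvPolynomial Ω' ℂ)
    (h : ∀ i, constantCoeff (Ψ (X i)) = 0) (G : MvPolynomial Ω ℂ)
    (hG : Loc (G : MvPowerSeries Ω ℂ)) :
    Loc ((Ψ G : MvPolynomial Ω' ℂ) : MvPowerSeries Ω' ℂ) := by
  classical
  obtain ⟨ε⟩ : Nonempty (Ω ≃ Ω') := Fintype.card_eq.1 (le_antisymm (card_le Ψ.symm) (card_le Ψ))
  obtain ⟨Θ, hΘ⟩ := inv Ω' _ (coords Ψ h ε).1 (fun i => by
    have := (coords Ψ h ε).2 i
    convert this)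
  obtain ⟨σ, hσ, e, F, y, hF, hy, hGy⟩ := hG
  obtain ⟨φ, hφ⟩ := inv Ω _ hy.1 (fun i => by
    have := hy.2 i
    convert this)
  let Λ : MvPowerSeries Ω ℂ ≃ₐ[ℂ] MvPowerSeries Ω' ℂ :=
    (MvPowerSeries.renameEquiv ℂ ε : MvPowerSeries Ω ℂ ≃ₐ[ℂ] MvPowerSeries Ω' ℂ).trans Θ
  let φ' : MvPowerSeries Ω' ℂ ≃ₐ[ℂ] MvPowerSeries Ω' ℂ :=
    ((MvPowerSeries.renameEquiv ℂ ε).symm.trans φ).trans Λ
  refine ⟨σ, hσ, ε.symm.trans e, F, fun s => Λ (y s), hF, ?_, ?_⟩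
  · have h1 := co Ω' φ'
    convert h1 using 1
    funext j
    change Λ (y (e (ε.symm j))) = Λ (φ ((MvPowerSeries.renameEquiv ℂ ε).symm (MvPowerSeries.X j)))
    have h2 : (MvPowerSeries.renameEquiv ℂ ε).symm (MvPowerSeries.X j) =
        (MvPowerSeries.X (ε.symm j) : MvPowerSeries Ω ℂ) := by
      rw [AlgEquiv.symm_apply_eq]
      have h3 : (MvPowerSeries.renameEquiv ℂ ε) (MvPowerSeries.X (ε.symm j)) =
        MvPowerSeries.X (ε (ε.symm j)) := MvPowerSeries.rename_X _ _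
      rw [h3, ε.apply_symm_apply]
    rw [h2, hφ]
  · rw [ext_eq Ψ ε Θ hΘ, hGy]
    change Λ (aeval y F) = aeval (fun s => Λ (y s)) F
    exact DFunLike.congr_fun (comp_aeval y (Λ : MvPowerSeries Ω ℂ →ₐ[ℂ] MvPowerSeries Ω' ℂ)) F

end LisoL

open LisoL in
theorem liso : S_LISO := by
  intro Ω Ω' _ _ Φ f hf p'
  let p : Ω → ℂ := fun i => eval p' (Φ (X i))
  let Ψ := (trnE p).symm.trans (Φ.trans (trnE p'))
  have hev : ∀ Q, eval p' (Φ Q) = eval p Q := by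
    intro Q
    have : ((eval p').comp (Φ : MvPolynomial Ω ℂ →+* MvPolynomial Ω' ℂ)) = eval p := by
      refine ringHom_ext (fun r => ?_) fun i => ?_
      · have h1 : Φ (C r) = C r := Φ.commutes r
        change eval p' (Φ (C r)) = eval p (C r)
        rw [h1, eval_C, eval_C]
      · change eval p' (Φ (X i)) = eval p (X i)
        rw [eval_X]
    exact RingHom.congr_fun this Q
  have h0 : ∀ i, constantCoeff (Ψ (X i)) = 0 := by
    intro i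
    change constantCoeff (trn p' (Φ ((trnE p).symm (X i)))) = 0
    rw [trnE_symm_X, map_sub, cc_trn, map_sub]
    have h1 : Φ (C (p i)) = C (p i) := Φ.commutes _
    rw [h1, eval_C]
    exact sub_self _
  have hF : trn p' (Φ f) - C (eval p' (Φ f)) = Ψ (trn p f - C (eval p f)) := by
    have h1 : Ψ (trn p f) = trn p' (Φ f) := by
      change trn p' (Φ ((trnE p).symm (trnE p f))) = _
      rw [AlgEquiv.symm_apply_apply]
    rw [map_sub, h1, hev]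
    congr 1
    exact (Ψ.commutes _).symm
  rw [hF]
  exact loc_iso Ψ h0 _ (hf p)

end Pool.Agent.Helper33K9.RO
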