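import Pool.Agent.Helper33K9.RO.St
import Pool.Agent.Helper33K9.FQ.Wt

/-!
[SC] normal forms are weighted homogeneous.
-/

set_option autoImplicit false

namespace Pool.Agent.Helper33K9.RO

open MvPolynomial Pool.Agent.Helper33K9.FQ

namespace ScL

theorem prod_zpow' {G ι : Type} [CommGroup G] (s : Finset ι) (V : G) (f : ι → ℤ) :
    ∏ i ∈ s, V ^ f i = V ^ ∑ i ∈ s, f i := by
  classical
  induction s using Finset.induction_on with
  | empty => rw [Finset.prod_empty, Finset.sum_empty, zpow_zero]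
  | insert a s ha ih => rw [Finset.prod_insert ha, Finset.sum_insert ha, zpow_add, ih]

theorem val_zpow {A : Type} [CommRing A] (V : Aˣ) (k : ℕ) (w : ℤ) :
    ((V ^ ((k : ℤ) * w) : Aˣ) : A) = (((V ^ k : Aˣ) ^ w : Aˣ) : A) := by
  rw [zpow_mul, zpow_natCast]

end ScL

open ScL in
theorem sc : S_SC := by
  intro σ _ F hF
  induction hF with
  | @leaf σ _ r m hm =>
    obtain ⟨w, D, hD, h⟩ := wt σ (Fin r) m hm
    refine ⟨w, D, hD, ?_⟩
    intro A _ _ V x
    rw [map_sum, map_sum, Finset.mul_sum]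
    refine Finset.sum_congr rfl fun j _ => ?_
    rw [map_prod, map_prod]
    simp only [map_pow, aeval_X, mul_pow]
    rw [Finset.prod_mul_distrib]
    congr 1
    have h1 : ∀ i, (((V ^ w i : Aˣ) : A)) ^ m j i = ((V ^ (w i * (m j i : ℤ)) : Aˣ) : A) := by
      intro i
      rw [zpow_mul, zpow_natCast, Units.val_pow_eq_pow_val]
    rw [Finset.prod_congr rfl fun i _ => h1 i, ← Units.coe_prod, prod_zpow', h j, zpow_natCast,
      Units.val_pow_eq_pow_val]
  | @add σ τ _ _ F G hF hG ihF ihG =>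
    obtain ⟨w₁, D₁, hD₁, h₁⟩ := ihF
    obtain ⟨w₂, D₂, hD₂, h₂⟩ := ihG
    refine ⟨Sum.elim (fun i => (D₂ : ℤ) * w₁ i) (fun i => (D₁ : ℤ) * w₂ i), D₁ * D₂,
      Nat.mul_pos hD₁ hD₂, ?_⟩
    intro A _ _ V x
    have e1 := h₁ A (V ^ D₂) (fun i => x (Sum.inl i))
    have e2 := h₂ A (V ^ D₁) (fun i => x (Sum.inr i))
    rw [map_add, map_add, aeval_rename, aeval_rename, aeval_rename, aeval_rename]
    simp only [Function.comp_def, Sum.elim_inl, Sum.elim_inr, val_zpow]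
    rw [e1, e2, Units.val_pow_eq_pow_val, Units.val_pow_eq_pow_val, ← pow_mul, ← pow_mul,
      mul_comm D₂ D₁, mul_add]
  | @mul σ τ _ _ F G hF hG ihF ihG =>
    obtain ⟨w₁, D₁, hD₁, h₁⟩ := ihF
    obtain ⟨w₂, D₂, hD₂, h₂⟩ := ihG
    refine ⟨Sum.elim w₁ w₂, D₁ + D₂, Nat.add_pos_left hD₁ _, ?_⟩
    intro A _ _ V x
    have e1 := h₁ A V (fun i => x (Sum.inl i))
    have e2 := h₂ A V (fun i => x (Sum.inr i))
    rw [map_mul, map_mul, aeval_rename, aeval_rename, aeval_rename, aeval_rename]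
    simp only [Function.comp_def, Sum.elim_inl, Sum.elim_inr]
    rw [e1, e2, pow_add]
    ring
  | @pow σ _ F k hk hF ihF =>
    obtain ⟨w, D, hD, h⟩ := ihF
    refine ⟨w, D * k, Nat.mul_pos hD (by omega), ?_⟩
    intro A _ _ V x
    rw [map_pow, map_pow, h A V x, mul_pow, pow_mul]

end Pool.Agent.Helper33K9.RO
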