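import Pool.Agent.Helper33K9.RO.St3

set_option autoImplicit false

/-! # Stably sparse germs: assembly -/

namespace Pool.Agent.Helper33K9.RO

open MvPolynomial Pool.Agent.H628R4.TP Pool.Agent.W428.MOT Pool.Agent.TH192.MT
  Pool.Agent.Helper33K9.HP Pool.Agent.Helper33K9.FQ

theorem coe_eq_aeval {Ω : Type} (f : MvPolynomial Ω ℂ) :
    (f : MvPowerSeries Ω ℂ) = aeval MvPowerSeries.X f := by
  have h : (coeToMvPowerSeries.algHom ℂ : MvPolynomial Ω ℂ →ₐ[ℂ] MvPowerSeries Ω ℂ) =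
      aeval MvPowerSeries.X := by
    ext i : 1
    rw [aeval_X]
    exact coe_X i
  exact congrArg (fun φ => φ f) h

theorem aeval_comp' {σ A B : Type} [CommRing A] [Algebra ℂ A] [CommRing B] [Algebra ℂ B]
    (φ : A →ₐ[ℂ] B) (x : σ → A) (F : MvPolynomial σ ℂ) :
    φ (aeval x F) = aeval (fun i => φ (x i)) F := by
  rw [← AlgHom.comp_apply, comp_aeval]

theorem stab (tay : S_TAY) (hypn : S_HYPN) (spa2 : S_SPA2) (coo : S_COO) (uz : S_UZ)
    (ub : S_UB) : S_STAB := by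
  classical
  intro σ _ g r R l u y w hg hg0 hu hy hw hl hJ hR1 hgR hind
  -- the differences
  set ρ : MvPowerSeries σ ℂ →ₐ[ℂ] MvPowerSeries (σ ⊕ Fin r) ℂ := MvPowerSeries.rename Sum.inl
    with hρ
  set θ : MvPowerSeries (σ ⊕ Fin r) ℂ →ₐ[ℂ] MvPowerSeries ((σ ⊕ Fin r) ⊕ Fin r) ℂ :=
    MvPowerSeries.rename Sum.inl with hθ
  have hρX : ∀ i, ρ (MvPowerSeries.X i) = MvPowerSeries.X (Sum.inl i) := fun i => by
    rw [hρ, MvPowerSeries.rename_X]
  have hθX : ∀ i, θ (MvPowerSeries.X i) = MvPowerSeries.X (Sum.inl i) := fun i => by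
    rw [hθ, MvPowerSeries.rename_X]
  have hρw : ∀ j, MvPowerSeries.constantCoeff (ρ (w j)) = 0 := fun j => by
    rw [hρ, MvPowerSeries.constantCoeff_rename, hw]
  have key := tay (σ ⊕ Fin r) σ r (fun i => MvPowerSeries.X (Sum.inl i))
    (fun j => MvPowerSeries.X (Sum.inr j)) (fun j => ρ (w j))
    (fun i => MvPowerSeries.constantCoeff_X _) (fun i => MvPowerSeries.constantCoeff_X _) hρw
  have hX : (Sum.elim (fun i => MvPowerSeries.X (Sum.inl i)) fun j =>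
      MvPowerSeries.X (Sum.inr j) : σ ⊕ Fin r → MvPowerSeries (σ ⊕ Fin r) ℂ) =
      MvPowerSeries.X := by
    funext i
    rcases i with i | i <;> rfl
  have hXw : ∀ F : MvPolynomial (σ ⊕ Fin r) ℂ,
      aeval (Sum.elim (fun i => MvPowerSeries.X (Sum.inl i)) fun j => ρ (w j)) F =
        ρ (aeval (Sum.elim MvPowerSeries.X w) F) := by
    intro F
    rw [aeval_comp']
    congr 2
    funext i
    rcases i with i | i
    · exact (hρX i).symm
    · rfl
  obtain ⟨K, hK1, hK2⟩ := key R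
  choose P hP1 hP2 using fun i => key (l i)
  rw [hX, ← coe_eq_aeval, hXw, ← hgR] at hK1
  have hP1' : ∀ i, ((l i : MvPolynomial (σ ⊕ Fin r) ℂ) : MvPowerSeries (σ ⊕ Fin r) ℂ) =
      ∑ j, (MvPowerSeries.X (Sum.inr j) - ρ (w j)) * P i j := by
    intro i
    have h := hP1 i
    rw [hX, ← coe_eq_aeval, hXw, hl, map_zero, sub_zero] at h
    exact h
  -- the coordinates
  have hc := coo σ r y w P K hy hw (fun j => by rw [hK2, hR1]) (by
    refine Eq.mp (congrArg IsUnit (congrArg Matrix.det ?_)) hJ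
    ext i j
    exact (hP2 i j).symm)
  set κ : MvPowerSeries σ ℂ →ₐ[ℂ] MvPowerSeries ((σ ⊕ Fin r) ⊕ Fin r) ℂ :=
    MvPowerSeries.rename (fun i => Sum.inl (Sum.inl i)) with hκ
  have hκρ : ∀ F, κ F = θ (ρ F) := by
    intro F
    rw [hκ, hθ, hρ, MvPowerSeries.rename_rename]
    rfl
  obtain ⟨U, hU⟩ : IsUnit (κ u) := isUnit_of (by
    rw [hκ, MvPowerSeries.constantCoeff_rename]; exact hu)
  set Y : (σ ⊕ Fin r) ⊕ Fin r → MvPowerSeries ((σ ⊕ Fin r) ⊕ Fin r) ℂ :=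
    Sum.elim (Sum.elim (fun i => κ (y i)) fun j => MvPowerSeries.X (Sum.inl (Sum.inr j)) -
      κ (w j)) fun j => (∑ i, MvPowerSeries.X (Sum.inr i) * θ (P i j)) + θ (K j) with hY
  have hc2 := AsmL.coords_mul Y hc (Sum.elim (fun _ => 1) fun _ => U⁻¹)
  set Y' : (σ ⊕ Fin r) ⊕ Fin r → MvPowerSeries ((σ ⊕ Fin r) ⊕ Fin r) ℂ := fun v =>
    Y v * ((Sum.elim (fun _ => 1) (fun _ => U⁻¹) v : (MvPowerSeries ((σ ⊕ Fin r) ⊕ Fin r) ℂ)ˣ) :
      MvPowerSeries ((σ ⊕ Fin r) ⊕ Fin r) ℂ) with hY'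
  obtain ⟨Ψ, hΨ⟩ := inv _ Y' hc2.1 (fun i => Eq.mp (congrArg
    (fun v => v ∈ Submodule.span ℂ (Set.range fun j => lin (Y' j)))
    (SumL.single_inst _ _ i)) (hc2.2 i))
  have hΨ2 : ∀ G : MvPolynomial ((σ ⊕ Fin r) ⊕ Fin r) ℂ,
      Ψ (G : MvPowerSeries ((σ ⊕ Fin r) ⊕ Fin r) ℂ) = aeval Y' G := by
    intro G
    rw [coe_eq_aeval]
    refine (aeval_comp' (Ψ : MvPowerSeries ((σ ⊕ Fin r) ⊕ Fin r) ℂ →ₐ[ℂ]
      MvPowerSeries ((σ ⊕ Fin r) ⊕ Fin r) ℂ) _ G).trans ?_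
    congr 2
    funext i
    exact hΨ i
  have h1 : κ u * Ψ ((hypN r g : MvPolynomial ((σ ⊕ Fin r) ⊕ Fin r) ℂ) :
      MvPowerSeries ((σ ⊕ Fin r) ⊕ Fin r) ℂ) =
      ((stabL R l : MvPolynomial ((σ ⊕ Fin r) ⊕ Fin r) ℂ) :
        MvPowerSeries ((σ ⊕ Fin r) ⊕ Fin r) ℂ) := by
    have e1 : aeval Y' (rename (fun i => Sum.inl (Sum.inl i)) g :
        MvPolynomial ((σ ⊕ Fin r) ⊕ Fin r) ℂ) = κ (aeval y g) := by
      rw [aeval_rename, aeval_comp']
      congr 2
      funext i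
      simp only [hY', hY, Function.comp_apply, Sum.elim_inl, Units.val_one, mul_one]
    have e2 : ∀ j, Y' (Sum.inl (Sum.inr j)) =
        MvPowerSeries.X (Sum.inl (Sum.inr j)) - κ (w j) := by
      intro j
      simp only [hY', hY, Sum.elim_inl, Sum.elim_inr, Units.val_one, mul_one]
    have e3 : ∀ j, κ u * Y' (Sum.inr j) =
        (∑ i, MvPowerSeries.X (Sum.inr i) * θ (P i j)) + θ (K j) := by
      intro j
      simp only [hY', hY, Sum.elim_inr]
      rw [← hU, mul_comm, mul_assoc, Units.inv_mul, mul_one]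
    have e4 : ((stabL R l : MvPolynomial ((σ ⊕ Fin r) ⊕ Fin r) ℂ) :
        MvPowerSeries ((σ ⊕ Fin r) ⊕ Fin r) ℂ) =
        θ (R : MvPowerSeries (σ ⊕ Fin r) ℂ) + ∑ i, MvPowerSeries.X (Sum.inr i) *
          θ ((l i : MvPolynomial (σ ⊕ Fin r) ℂ) : MvPowerSeries (σ ⊕ Fin r) ℂ) := by
      unfold stabL
      rw [← coeToMvPowerSeries.ringHom_apply, map_add, map_sum, hθ]
      congr 1
      · rw [coeToMvPowerSeries.ringHom_apply, MvPowerSeries.rename_coe]
      · refine Finset.sum_congr rfl fun i _ => ?_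
        rw [map_mul, coeToMvPowerSeries.ringHom_apply, coeToMvPowerSeries.ringHom_apply, coe_X,
          MvPowerSeries.rename_coe]
    have e5 : (R : MvPowerSeries (σ ⊕ Fin r) ℂ) = ρ (u * aeval y g) +
        ∑ j, (MvPowerSeries.X (Sum.inr j) - ρ (w j)) * K j := by
      rw [← hK1]
      ring
    rw [hΨ2, hypN, map_add, map_sum, e1, e4, e5]
    simp only [map_mul, aeval_X, e2, hP1', map_add, map_sum, map_sub, hθX, ← hκρ, mul_add,
      Finset.mul_sum]
    rw [add_assoc]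
    congr 1
    rw [Finset.sum_comm, ← Finset.sum_add_distrib]
    refine Finset.sum_congr rfl fun j _ => ?_
    have e6 : κ u * ((MvPowerSeries.X (Sum.inl (Sum.inr j)) - κ (w j)) * Y' (Sum.inr j)) =
        (MvPowerSeries.X (Sum.inl (Sum.inr j)) - κ (w j)) * (κ u * Y' (Sum.inr j)) := by ring
    rw [e6, e3, mul_add, Finset.mul_sum, add_comm]
    congr 1
    refine Finset.sum_congr rfl fun i _ => ?_
    ring
  have hu' : MvPowerSeries.constantCoeff (κ u) ≠ 0 := by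
    rw [hκ, MvPowerSeries.constantCoeff_rename]
    exact hu
  have hN0 : (hypN r g : MvPolynomial ((σ ⊕ Fin r) ⊕ Fin r) ℂ) ≠ 0 := by
    intro h
    have h2 := congrArg (aeval (Sum.elim (Sum.elim X 0) 0 :
      (σ ⊕ Fin r) ⊕ Fin r → MvPolynomial σ ℂ)) h
    rw [hypN, map_add, map_sum, aeval_rename, map_zero] at h2
    have h3 : ((Sum.elim (Sum.elim X 0) 0 : (σ ⊕ Fin r) ⊕ Fin r → MvPolynomial σ ℂ) ∘
      fun i => Sum.inl (Sum.inl i)) = X := rfl
    rw [h3, aeval_X_left_apply, Finset.sum_eq_zero, add_zero] at h2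
    · exact hg h2
    · intro j _
      rw [map_mul, aeval_X, aeval_X]
      simp
  have hL0 : stabL R l ≠ 0 := by
    intro h
    rw [h, coe_zero, ← hU, Units.mul_right_eq_zero] at h1
    exact hN0 (coe_eq_zero_iff.1 ((map_eq_zero_iff Ψ Ψ.injective).1 h1))
  have hLc : constantCoeff (stabL R l) = 0 := by
    have h2 := congrArg MvPowerSeries.constantCoeff h1
    rw [map_mul, hΨ2] at h2
    have h3 : MvPowerSeries.constantCoeff (aeval Y' (hypN r g)) = constantCoeff (hypN r g) := by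
      have h4 : ((MvPowerSeries.constantCoeff (σ := (σ ⊕ Fin r) ⊕ Fin r) (R := ℂ)).comp
          ((aeval Y' : MvPolynomial ((σ ⊕ Fin r) ⊕ Fin r) ℂ →ₐ[ℂ]
            MvPowerSeries ((σ ⊕ Fin r) ⊕ Fin r) ℂ) : MvPolynomial ((σ ⊕ Fin r) ⊕ Fin r) ℂ →+*
              MvPowerSeries ((σ ⊕ Fin r) ⊕ Fin r) ℂ)) =
          (constantCoeff : MvPolynomial ((σ ⊕ Fin r) ⊕ Fin r) ℂ →+* ℂ) := by
        refine ringHom_ext (fun c => ?_) fun i => ?_
        · change MvPowerSeries.constantCoeff (aeval Y' (C c)) = constantCoeff (C c)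
          rw [aeval_C, constantCoeff_C, MvPowerSeries.algebraMap_apply]
          exact MvPowerSeries.constantCoeff_C c
        · change MvPowerSeries.constantCoeff (aeval Y' (X i)) = constantCoeff (X i)
          rw [aeval_X, constantCoeff_X]
          exact hc2.1 i
      exact RingHom.congr_fun h4 _
    rw [h3, hypN, map_add, constantCoeff_rename, hg0, map_sum, Finset.sum_eq_zero, add_zero,
      mul_zero] at h2
    · rw [← MvPowerSeries.coeff_zero_eq_constantCoeff_apply, MvPolynomial.coeff_coe] at h2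
      exact h2.symm
    · intro j _
      rw [map_mul, constantCoeff_X, zero_mul]
  obtain ⟨S, hS, hZ⟩ := spa2 _ (stabL R l) hind hL0 hLc
  refine (hypn σ r g hg hg0).1 ⟨S, fun p hp => ⟨(hS p hp).1, fun b hb => (hS p hp).2 b ?_⟩, ?_⟩
  · exact ub _ Ψ (κ u) _ _ hu' hN0 h1 b hb
  · rw [uz _ Ψ (κ u) _ _ hu' h1]
    exact hZ

end Pool.Agent.Helper33K9.RO
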