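import Pool.Agent.Helper33K9.RO.St2

/-!
[TAY] differences of values of a polynomial.
-/

set_option autoImplicit false

namespace Pool.Agent.Helper33K9.RO

open MvPolynomial

namespace TayL

theorem cc_aeval' {σ V : Type} (u : σ → MvPowerSeries V ℂ)
    (hu : ∀ i, MvPowerSeries.constantCoeff (u i) = 0) (F : MvPolynomial σ ℂ) :
    MvPowerSeries.constantCoeff (aeval u F) = constantCoeff F := by
  have h : ((MvPowerSeries.constantCoeff (σ := V) (R := ℂ)).comp
      ((aeval u : MvPolynomial σ ℂ →ₐ[ℂ] MvPowerSeries V ℂ) : MvPolynomial σ ℂ →+* _)) =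
      constantCoeff := by
    refine MvPolynomial.ringHom_ext (fun c => ?_) fun i => ?_
    · rw [RingHom.comp_apply, RingHom.coe_coe, ← MvPolynomial.algebraMap_eq, AlgHom.commutes,
        MvPowerSeries.algebraMap_apply, MvPowerSeries.constantCoeff_C,
        MvPolynomial.algebraMap_eq, constantCoeff_C]
      rfl
    · rw [RingHom.comp_apply, RingHom.coe_coe, aeval_X, hu, constantCoeff_X]
  exact congrArg (fun φ => φ F) h

end TayL

open TayL in
theorem tay : S_TAY := by
  classical
  intro V σ _ r a z w ha hz hw F
  have hw' : ∀ i, MvPowerSeries.constantCoeff ((Sum.elim a w : σ ⊕ Fin r → _) i) = 0 := by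
    rintro (i | j)
    · exact ha i
    · exact hw j
  induction F using MvPolynomial.induction_on with
  | C c =>
    refine ⟨fun _ => 0, ?_, fun j => ?_⟩
    · rw [← MvPolynomial.algebraMap_eq, AlgHom.commutes, AlgHom.commutes, sub_self]
      exact (Finset.sum_eq_zero fun j _ => mul_zero _).symm
    · rw [map_zero, coeff_C, if_neg]
      intro h
      have := congrArg (fun f => f (Sum.inr j)) h
      simp at this
  | add p q hp hq =>
    obtain ⟨G, hG, hG'⟩ := hp
    obtain ⟨H, hH, hH'⟩ := hq
    refine ⟨fun j => G j + H j, ?_, fun j => ?_⟩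
    · rw [map_add, map_add, Finset.sum_congr rfl fun j _ => mul_add (z j - w j) (G j) (H j),
        Finset.sum_add_distrib, ← hG, ← hH]
      ring
    · rw [map_add, hG', hH', coeff_add]
  | mul_X p n hp =>
    obtain ⟨G, hG, hG'⟩ := hp
    rcases n with i | k
    · refine ⟨fun j => G j * a i, ?_, fun j => ?_⟩
      · rw [map_mul, map_mul, aeval_X, aeval_X, Sum.elim_inl, Sum.elim_inl,
          Finset.sum_congr rfl fun j _ => (mul_assoc (z j - w j) (G j) (a i)).symm,
          ← Finset.sum_mul, ← hG]
        ring
      · rw [map_mul, ha, mul_zero, coeff_mul_X', if_neg]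
        rw [Finsupp.mem_support_iff, not_not, Finsupp.single_eq_of_ne]
        simp
    · refine ⟨fun j => G j * z k + if j = k then aeval (Sum.elim a w) p else 0, ?_,
        fun j => ?_⟩
      · rw [map_mul, map_mul, aeval_X, aeval_X, Sum.elim_inr, Sum.elim_inr]
        have h1 : ∑ j, (z j - w j) * (G j * z k + if j = k then aeval (Sum.elim a w) p else 0) =
            (∑ j, (z j - w j) * G j) * z k + (z k - w k) * aeval (Sum.elim a w) p := by
          rw [Finset.sum_mul]
          have h2 : (z k - w k) * aeval (Sum.elim a w) p =
              ∑ j, (z j - w j) * (if j = k then aeval (Sum.elim a w) p else 0) := by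
            rw [Finset.sum_eq_single k]
            · rw [if_pos rfl]
            · intro j _ hj
              rw [if_neg hj, mul_zero]
            · intro h
              exact absurd (Finset.mem_univ k) h
          rw [h2, ← Finset.sum_add_distrib]
          exact Finset.sum_congr rfl fun j _ => by ring
        rw [h1, ← hG]
        ring
      · rw [map_add, map_mul, hz, mul_zero, zero_add, coeff_mul_X']
        by_cases hjk : j = k
        · subst hjk
          rw [if_pos rfl, if_pos, cc_aeval' _ hw', tsub_self]
          · rfl
          · rw [Finsupp.mem_support_iff, Finsupp.single_eq_same]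
            exact one_ne_zero
        · rw [if_neg hjk, map_zero, if_neg]
          rw [Finsupp.mem_support_iff, not_not, Finsupp.single_eq_of_ne]
          intro h
          exact hjk (by simpa using h.symm)

end Pool.Agent.Helper33K9.RO
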