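import Pool.Agent.Helper33K9.RO.St4
import Pool.Agent.Helper33K9.RO.Sc
import Pool.Agent.Helper33K9.RO.Liso
import Pool.Agent.Helper33K9.RO.Tay
import Pool.Agent.Helper33K9.RO.Stab

set_option autoImplicit false

/-! # Local normal forms of products of nodes -/

namespace Pool.Agent.Helper33K9.RO

open Pool.Agent.H628R4.TP Pool.Agent.W428.MOT Pool.Agent.TH192.MT
  Pool.Agent.Helper33K9.HP Pool.Agent.Helper33K9.FQ

open MvPolynomial (aeval)

variable {Ω Ω' : Type} [Fintype Ω] [Fintype Ω']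

theorem loc_inl {G : MvPowerSeries Ω ℂ} (h : Loc G) :
    Loc (MvPowerSeries.rename (Sum.inl : Ω → Ω ⊕ Ω') G) := by
  have h1 := loc_add sc h (loc_zero (Ω := Ω')) 1 1
  rw [map_zero, Units.val_one, one_mul, mul_zero, add_zero] at h1
  exact h1

theorem loc_inr {G : MvPowerSeries Ω' ℂ} (h : Loc G) :
    Loc (MvPowerSeries.rename (Sum.inr : Ω' → Ω ⊕ Ω') G) := by
  have h1 := loc_add sc (loc_zero (Ω := Ω)) h 1 1
  rw [map_zero, mul_zero, zero_add, Units.val_one, one_mul] at h1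
  exact h1

/-- the `l v` are weighted homogeneous -/
theorem Sy.Good.scale {σ ρ : Type} [Fintype σ] [Fintype ρ] {s : Sy σ ρ} {h : ρ → ℕ}
    (hs : s.Good h) {A : Type} [CommRing A] [Algebra ℂ A] (V : Aˣ) (x : σ ⊕ ρ → A) (v : ρ) :
    aeval (fun i => ((V ^ s.wt i : Aˣ) : A) * x i) (s.l v) =
      ((V ^ s.wt (Sum.inr v) : Aˣ) : A) * aeval x (s.l v) := by
  classical
  obtain ⟨ι, _, c, M, v', -, h2, h3, -⟩ := hs
  rw [h2 v, map_sum, map_sum, Finset.mul_sum]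
  refine Finset.sum_congr rfl fun j _ => ?_
  split_ifs with hj
  · rw [map_mul, map_mul, map_prod, map_prod, MvPolynomial.aeval_C, MvPolynomial.aeval_C]
    simp only [map_pow, MvPolynomial.aeval_X, mul_pow]
    rw [Finset.prod_mul_distrib]
    have h4 : ∏ i, ((V ^ s.wt i : Aˣ) : A) ^ M j i = ((V ^ s.wt (Sum.inr v) : Aˣ) : A) := by
      have h5 : ∏ i, (V ^ s.wt i) ^ M j i = V ^ s.wt (Sum.inr v) := by
        rw [← hj, ← h3 j, ← AsmL.prod_zpow_sum]
        refine Finset.prod_congr rfl fun i _ => ?_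
        rw [← zpow_natCast, ← zpow_mul]
      rw [← h5]
      push_cast
      rfl
    rw [h4]
    ring
  · rw [map_zero, map_zero, mul_zero]

theorem loc2_fs (syl : S_SYL) {G : MvPowerSeries Ω ℂ} (h : FS G) : Loc2 G 1 := by
  classical
  have hl := loc_fs h
  obtain ⟨Φ, r, m, hm, hF⟩ := h
  obtain ⟨w, D, hD, hw⟩ := wt Ω (Fin r) m hm
  refine ⟨Ω, Unit, inferInstance, inferInstance, Equiv.refl Ω, syL m w D, fun _ => 0,
    fun i => Φ (MvPowerSeries.X i), fun _ => G, 1,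
    syl Ω r m w D hm (by exact_mod_cast hD) hw, co Ω Φ, fun v => ?_, fun _ => hl, rfl, ?_⟩
  · change aeval _ (MvPolynomial.X (Sum.inr ()) -
      ∑ j, ∏ i, MvPolynomial.X (Sum.inl i) ^ m j i) = 0
    rw [map_sub, map_sum, MvPolynomial.aeval_X, Sum.elim_inr, sub_eq_zero, hF, SumL.coe_mon,
      map_sum]
    refine Finset.sum_congr rfl fun j _ => ?_
    simp only [map_prod, map_pow, MvPolynomial.aeval_X, Sum.elim_inl]
  · rw [Units.val_one, one_mul]
    simp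

theorem loc2_unit {G H : MvPowerSeries Ω ℂ} (h : Loc2 G H) (U : (MvPowerSeries Ω ℂ)ˣ) :
    Loc2 G ((U : MvPowerSeries Ω ℂ) * H) := by
  obtain ⟨σ, ρ, _, _, e, s, k, y, w, V, h1, h2, h3, h4, h5, h6⟩ := h
  refine ⟨σ, ρ, _, _, e, s, k, y, w, U * V, h1, h2, h3, h4, h5, ?_⟩
  rw [h6, Units.val_mul, mul_assoc]

theorem Sy.Good.node {σ ρ : Type} [Fintype σ] [Fintype ρ] [DecidableEq ρ] {s : Sy σ ρ}
    {h : ρ → ℕ} (hs : s.Good h) : s.Good (Function.update h s.root (h s.root + 1)) := by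
  classical
  obtain ⟨ι, _, c, M, v', h1, h2, h3, h4, h5, h6⟩ := hs
  refine ⟨ι, inferInstance, c, M, v', h1, h2, h3, h4, h5, fun g t δ hg hr => ?_⟩
  have h7 := h6 g (t + δ) δ hg (fun i => by
    refine Eq.trans ?_ (hr i)
    rcases i with i | i
    · simp
    · by_cases hi : i = s.root
      · subst hi
        simp only [if_true, Sum.elim_inr, Function.update_self]
        push_cast
        ring
      · simp [hi])
  refine ⟨fun hδ => ?_, fun hδ => ?_⟩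
  · have h8 := h7.1 hδ
    rw [hδ, add_zero] at h8
    exact h8
  · have h8 := (h7.2 hδ).1
    rw [hδ] at h8
    exact ⟨by linarith, fun ht => by rw [ht] at h8; norm_num at h8⟩

theorem loc2_node {G H : MvPowerSeries Ω ℂ} (h : Loc2 G H) : Loc2 G (H * G) := by
  classical
  obtain ⟨σ, ρ, _, _, e, s, k, y, w, V, h1, h2, h3, h4, h5, h6⟩ := h
  refine ⟨σ, ρ, _, _, e, s, _, y, w, V, h1.node, h2, h3, h4, h5, ?_⟩
  rw [h6, h5, mul_assoc]
  congr 1
  have h7 : ∀ v, w v ^ (Function.update k s.root (k s.root + 1) v) =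
      w v ^ k v * if v = s.root then w v else 1 := by
    intro v
    by_cases hv : v = s.root
    · subst hv
      rw [Function.update_self, if_pos rfl, pow_succ]
    · rw [Function.update_of_ne hv, if_neg hv, mul_one]
  rw [Finset.prod_congr rfl fun v _ => h7 v, Finset.prod_mul_distrib, Finset.prod_ite_eq']
  simp

/-- absorbing a unit -/
theorem loc2_abs {G H : MvPowerSeries Ω ℂ} (h : Loc2 G H) (U : (MvPowerSeries Ω ℂ)ˣ) :
    Loc2 ((U : MvPowerSeries Ω ℂ) * G) H := by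
  classical
  obtain ⟨σ, ρ, _, _, e, s, k, y, w, V, h1, h2, h3, h4, h5, h6⟩ := h
  have h0 : 0 < s.wt (Sum.inr s.root) := by
    obtain ⟨ι, _, c, M, v', -, -, -, h, -⟩ := h1
    exact h
  obtain ⟨A, hA⟩ := AsmL.root_unit root U (s.wt (Sum.inr s.root)).toNat (by omega)
  have hA' : A ^ s.wt (Sum.inr s.root) = U := by
    rw [← hA, ← zpow_natCast, Int.toNat_of_nonneg h0.le]
  refine ⟨σ, ρ, _, _, e, s, k,
    fun i => ((A ^ s.wt (Sum.inl i) : (MvPowerSeries Ω ℂ)ˣ) : MvPowerSeries Ω ℂ) * y i,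
    fun v => ((A ^ s.wt (Sum.inr v) : (MvPowerSeries Ω ℂ)ˣ) : MvPowerSeries Ω ℂ) * w v,
    V * ∏ v, (A ^ s.wt (Sum.inr v))⁻¹ ^ k v, h1, ?_, fun v => ?_,
    fun v => loc_unit sc (h4 v) _, ?_, ?_⟩
  · have h8 := AsmL.coords_mul _ h2 fun ω => A ^ s.wt (Sum.inl (e ω))
    simp only [mul_comm] at h8 ⊢
    exact h8
  · have h8 := h1.scale A (Sum.elim y w) v
    rw [h3 v, mul_zero] at h8
    refine Eq.trans (congrArg (fun z => aeval z (s.l v)) ?_) h8
    funext i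
    rcases i with i | i <;> rfl
  · change _ = ((A ^ s.wt (Sum.inr s.root) : (MvPowerSeries Ω ℂ)ˣ) : MvPowerSeries Ω ℂ) *
      w s.root
    rw [h5, hA']
  · rw [h6]
    push_cast
    rw [mul_assoc]
    congr 1
    rw [← Finset.prod_mul_distrib]
    refine Finset.prod_congr rfl fun v _ => ?_
    rw [← mul_pow]
    congr 1
    rw [← mul_assoc, Units.inv_mul, one_mul]

/-- the renaming as a homomorphism of monoids -/
noncomputable def rl (Ω Ω' : Type) [Fintype Ω] [Fintype Ω'] : MvPowerSeries Ω ℂ →* MvPowerSeries (Ω ⊕ Ω') ℂ :=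
  ((MvPowerSeries.rename Sum.inl : MvPowerSeries Ω ℂ →ₐ[ℂ] MvPowerSeries (Ω ⊕ Ω') ℂ) :
    MvPowerSeries Ω ℂ →* MvPowerSeries (Ω ⊕ Ω') ℂ)

/-- the renaming as a homomorphism of monoids -/
noncomputable def rr (Ω Ω' : Type) [Fintype Ω] [Fintype Ω'] : MvPowerSeries Ω' ℂ →* MvPowerSeries (Ω ⊕ Ω') ℂ :=
  ((MvPowerSeries.rename Sum.inr : MvPowerSeries Ω' ℂ →ₐ[ℂ] MvPowerSeries (Ω ⊕ Ω') ℂ) :
    MvPowerSeries Ω' ℂ →* MvPowerSeries (Ω ⊕ Ω') ℂ)

/-- two blocks -/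
theorem loc2_bin (syb : S_SYB) {G H : MvPowerSeries Ω ℂ} {G' H' : MvPowerSeries Ω' ℂ}
    (h : Loc2 G H) (h' : Loc2 G' H') (U U' : (MvPowerSeries (Ω ⊕ Ω') ℂ)ˣ) {r : ℕ}
    (m n : Fin r → ℕ)
    (hw : ∀ a b : ℤ, 0 < a → 0 < b → ∃ p q D : ℤ, 0 < p ∧ 0 < q ∧ 0 < D ∧
      ∀ j, p * a * (m j : ℤ) + q * b * (n j : ℤ) = D)
    (hmn : ∀ α : Fin r → ℚ, ∑ j, α j * m j = 0 → ∑ j, α j * n j = 0 → ∀ j, α j = 0)
    (hK : Loc (∑ j, ((U : MvPowerSeries (Ω ⊕ Ω') ℂ) * MvPowerSeries.rename Sum.inl G) ^ m j *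
      ((U' : MvPowerSeries (Ω ⊕ Ω') ℂ) * MvPowerSeries.rename Sum.inr G') ^ n j)) :
    Loc2 (∑ j, ((U : MvPowerSeries (Ω ⊕ Ω') ℂ) * MvPowerSeries.rename Sum.inl G) ^ m j *
      ((U' : MvPowerSeries (Ω ⊕ Ω') ℂ) * MvPowerSeries.rename Sum.inr G') ^ n j)
      (MvPowerSeries.rename Sum.inl H * MvPowerSeries.rename Sum.inr H') := by
  classical
  obtain ⟨σ, ρ, _, _, e, s, k, y, w, V, h1, h2, h3, h4, h5, h6⟩ := h
  obtain ⟨σ', ρ', _, _, e', s', k', y', w', V', h1', h2', h3', h4', h5', h6'⟩ := h'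
  have h0 : 0 < s.wt (Sum.inr s.root) := by
    obtain ⟨ι, _, c, M, v', -, -, -, h, -⟩ := h1
    exact h
  have h0' : 0 < s'.wt (Sum.inr s'.root) := by
    obtain ⟨ι, _, c, M, v', -, -, -, h, -⟩ := h1'
    exact h
  obtain ⟨A, hA⟩ := AsmL.root_unit root U (s.wt (Sum.inr s.root)).toNat (by omega)
  have hA' : A ^ s.wt (Sum.inr s.root) = U := by
    rw [← hA, ← zpow_natCast, Int.toNat_of_nonneg h0.le]
  obtain ⟨B, hB⟩ := AsmL.root_unit root U' (s'.wt (Sum.inr s'.root)).toNat (by omega)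
  have hB' : B ^ s'.wt (Sum.inr s'.root) = U' := by
    rw [← hB, ← zpow_natCast, Int.toNat_of_nonneg h0'.le]
  obtain ⟨p, q, D, hp, hq, hD, hpq⟩ := hw _ _ h0 h0'
  set K := ∑ j, ((U : MvPowerSeries (Ω ⊕ Ω') ℂ) * MvPowerSeries.rename Sum.inl G) ^ m j *
      ((U' : MvPowerSeries (Ω ⊕ Ω') ℂ) * MvPowerSeries.rename Sum.inr G') ^ n j with hKd
  set y1 : σ → MvPowerSeries (Ω ⊕ Ω') ℂ := fun i =>
    ((A ^ s.wt (Sum.inl i) : (MvPowerSeries (Ω ⊕ Ω') ℂ)ˣ) : MvPowerSeries (Ω ⊕ Ω') ℂ) *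
      MvPowerSeries.rename Sum.inl (y i) with hy1
  set w1 : ρ → MvPowerSeries (Ω ⊕ Ω') ℂ := fun v =>
    ((A ^ s.wt (Sum.inr v) : (MvPowerSeries (Ω ⊕ Ω') ℂ)ˣ) : MvPowerSeries (Ω ⊕ Ω') ℂ) *
      MvPowerSeries.rename Sum.inl (w v) with hw1
  set y2 : σ' → MvPowerSeries (Ω ⊕ Ω') ℂ := fun i =>
    ((B ^ s'.wt (Sum.inl i) : (MvPowerSeries (Ω ⊕ Ω') ℂ)ˣ) : MvPowerSeries (Ω ⊕ Ω') ℂ) *
      MvPowerSeries.rename Sum.inr (y' i) with hy2
  set w2 : ρ' → MvPowerSeries (Ω ⊕ Ω') ℂ := fun v =>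
    ((B ^ s'.wt (Sum.inr v) : (MvPowerSeries (Ω ⊕ Ω') ℂ)ˣ) : MvPowerSeries (Ω ⊕ Ω') ℂ) *
      MvPowerSeries.rename Sum.inr (w' v) with hw2
  have e1 : ∀ v, aeval (Sum.elim y1 w1) (s.l v) = 0 := by
    intro v
    have h8 := h1.scale A (fun i => MvPowerSeries.rename (Sum.inl : Ω → Ω ⊕ Ω')
      (Sum.elim y w i)) v
    rw [← aeval_comp', h3 v, map_zero, mul_zero] at h8
    refine Eq.trans (congrArg (fun z => aeval z (s.l v)) ?_) h8
    funext i
    rcases i with i | i <;> rfl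
  have e2 : ∀ v, aeval (Sum.elim y2 w2) (s'.l v) = 0 := by
    intro v
    have h8 := h1'.scale B (fun i => MvPowerSeries.rename (Sum.inr : Ω' → Ω ⊕ Ω')
      (Sum.elim y' w' i)) v
    rw [← aeval_comp', h3' v, map_zero, mul_zero] at h8
    refine Eq.trans (congrArg (fun z => aeval z (s'.l v)) ?_) h8
    funext i
    rcases i with i | i <;> rfl
  refine ⟨σ ⊕ σ', Unit ⊕ (ρ ⊕ ρ'), inferInstance, inferInstance, Equiv.sumCongr e e',
    syB s s' m n p q D, Sum.elim (fun _ => 0) (Sum.elim k k'), Sum.elim y1 y2,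
    Sum.elim (fun _ => K) (Sum.elim w1 w2),
    (Units.map (rl Ω Ω') V *
      ∏ v, (A ^ s.wt (Sum.inr v))⁻¹ ^ k v) *
    (Units.map (rr Ω Ω') V' *
      ∏ v, (B ^ s'.wt (Sum.inr v))⁻¹ ^ k' v),
    syb σ ρ σ' ρ' s s' k k' r m n p q D h1 h1' hp hq hD hpq hmn, ?_, ?_, ?_, rfl, ?_⟩
  · have h8 := AsmL.coords_mul _ (SumL.coords_sum _ _ h2 h2')
      (Sum.elim (fun ω => A ^ s.wt (Sum.inl (e ω))) fun ω => B ^ s'.wt (Sum.inl (e' ω)))
    refine Eq.mp (congrArg Coords ?_) h8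
    funext ω
    rcases ω with ω | ω
    · simp only [Sum.elim_inl, Equiv.sumCongr_apply, Sum.map_inl, hy1]
      rw [mul_comm]
    · simp only [Sum.elim_inr, Equiv.sumCongr_apply, Sum.map_inr, hy2]
      rw [mul_comm]
  · rintro (v | v | v)
    · change aeval (Sum.elim (Sum.elim y1 y2) (Sum.elim (fun _ => K) (Sum.elim w1 w2)))
        (MvPolynomial.X (Sum.inr (Sum.inl ())) -
        ∑ j, MvPolynomial.X (Sum.inr (Sum.inr (Sum.inl s.root))) ^ m j *
          MvPolynomial.X (Sum.inr (Sum.inr (Sum.inr s'.root))) ^ n j :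
            MvPolynomial ((σ ⊕ σ') ⊕ (Unit ⊕ (ρ ⊕ ρ'))) ℂ) = 0
      rw [map_sub, MvPolynomial.aeval_X, sub_eq_zero]
      refine Eq.trans ?_ (map_sum (aeval (R := ℂ) (Sum.elim (Sum.elim y1 y2)
        (Sum.elim (fun _ => K) (Sum.elim w1 w2)))) _ _).symm
      change K = _
      rw [hKd]
      refine Finset.sum_congr rfl fun j _ => ?_
      simp only [map_mul, map_pow, MvPolynomial.aeval_X, Sum.elim_inr, Sum.elim_inl, hw1, hw2,
        hA', hB', ← h5, ← h5']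
    · change aeval _ (MvPolynomial.rename
        (Sum.map Sum.inl fun v => Sum.inr (Sum.inl v)) (s.l v)) = 0
      rw [MvPolynomial.aeval_rename]
      refine Eq.trans (congrArg (fun z => aeval z (s.l v)) ?_) (e1 v)
      funext i
      rcases i with i | i <;> rfl
    · change aeval _ (MvPolynomial.rename
        (Sum.map Sum.inr fun v => Sum.inr (Sum.inr v)) (s'.l v)) = 0
      rw [MvPolynomial.aeval_rename]
      refine Eq.trans (congrArg (fun z => aeval z (s'.l v)) ?_) (e2 v)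
      funext i
      rcases i with i | i <;> rfl
  · rintro (v | v | v)
    · exact hK
    · exact loc_unit sc (loc_inl (h4 v)) _
    · exact loc_unit sc (loc_inr (h4' v)) _
  · rw [Fintype.prod_sum_type, Fintype.prod_sum_type]
    simp only [Finset.univ_unique, Finset.prod_singleton, Sum.elim_inl, Sum.elim_inr, pow_zero,
      one_mul]
    have f1 : MvPowerSeries.rename (Sum.inl : Ω → Ω ⊕ Ω') H =
        ((Units.map (rl Ω Ω') V *
          ∏ v, (A ^ s.wt (Sum.inr v))⁻¹ ^ k v : (MvPowerSeries (Ω ⊕ Ω') ℂ)ˣ) :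
            MvPowerSeries (Ω ⊕ Ω') ℂ) * ∏ v, w1 v ^ k v := by
      rw [h6, map_mul, map_prod]
      push_cast
      rw [mul_assoc]
      refine congrArg₂ (· * ·) rfl ?_
      rw [← Finset.prod_mul_distrib]
      refine Finset.prod_congr rfl fun v _ => ?_
      rw [map_pow, ← mul_pow]
      congr 1
      rw [hw1]
      simp only
      rw [← mul_assoc, Units.inv_mul, one_mul]
    have f2 : MvPowerSeries.rename (Sum.inr : Ω' → Ω ⊕ Ω') H' =
        ((Units.map (rr Ω Ω') V' *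
          ∏ v, (B ^ s'.wt (Sum.inr v))⁻¹ ^ k' v : (MvPowerSeries (Ω ⊕ Ω') ℂ)ˣ) :
            MvPowerSeries (Ω ⊕ Ω') ℂ) * ∏ v, w2 v ^ k' v := by
      rw [h6', map_mul, map_prod]
      push_cast
      rw [mul_assoc]
      refine congrArg₂ (· * ·) rfl ?_
      rw [← Finset.prod_mul_distrib]
      refine Finset.prod_congr rfl fun v _ => ?_
      rw [map_pow, ← mul_pow]
      congr 1
      rw [hw2]
      simp only
      rw [← mul_assoc, Units.inv_mul, one_mul]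
    rw [f1, f2]
    simp only [Units.val_mul]
    ring

end Pool.Agent.Helper33K9.RO
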