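import Pool.Agent.Helper33K9.RO.L2

set_option autoImplicit false
set_option linter.unusedSectionVars false

/-! # Local normal forms of products of nodes: sums, products, powers, transport -/

namespace Pool.Agent.Helper33K9.RO

open Pool.Agent.H628R4.TP Pool.Agent.W428.MOT Pool.Agent.TH192.MT
  Pool.Agent.Helper33K9.HP Pool.Agent.Helper33K9.FQ

open MvPolynomial (aeval eval)

variable {Ω Ω' : Type} [Fintype Ω] [Fintype Ω']

theorem Loc2.loc {G H : MvPowerSeries Ω ℂ} (h : Loc2 G H) : Loc G := by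
  obtain ⟨σ, ρ, _, _, e, s, k, y, w, V, h1, h2, h3, h4, h5, h6⟩ := h
  rw [h5]
  exact h4 _

theorem Loc.cc {G : MvPowerSeries Ω ℂ} (h : Loc G) : MvPowerSeries.constantCoeff G = 0 := by
  obtain ⟨σ, i1, e, F, y, hF, hy, hG⟩ := h
  rw [hG, TayL.cc_aeval' y (fun i => by
    have h1 := hy.1 (e.symm i)
    simp only [Equiv.apply_symm_apply] at h1
    exact h1)]
  exact hF.cc

/-- a sum in separate variables -/
theorem loc2_add (syb : S_SYB) {G H : MvPowerSeries Ω ℂ} {G' H' : MvPowerSeries Ω' ℂ}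
    (h : Loc2 G H) (h' : Loc2 G' H') (U U' : (MvPowerSeries (Ω ⊕ Ω') ℂ)ˣ) :
    Loc2 ((U : MvPowerSeries (Ω ⊕ Ω') ℂ) * MvPowerSeries.rename Sum.inl G +
      (U' : MvPowerSeries (Ω ⊕ Ω') ℂ) * MvPowerSeries.rename Sum.inr G')
      (MvPowerSeries.rename Sum.inl H * MvPowerSeries.rename Sum.inr H') := by
  have hs : ∑ j : Fin 2, ((U : MvPowerSeries (Ω ⊕ Ω') ℂ) * MvPowerSeries.rename Sum.inl G) ^
      (![1, 0] : Fin 2 → ℕ) j * ((U' : MvPowerSeries (Ω ⊕ Ω') ℂ) *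
        MvPowerSeries.rename Sum.inr G') ^ (![0, 1] : Fin 2 → ℕ) j =
      (U : MvPowerSeries (Ω ⊕ Ω') ℂ) * MvPowerSeries.rename Sum.inl G +
      (U' : MvPowerSeries (Ω ⊕ Ω') ℂ) * MvPowerSeries.rename Sum.inr G' := by
    rw [Fin.sum_univ_two]
    simp
  have h1 := loc2_bin syb h h' U U' ![1, 0] ![0, 1] (fun a b ha hb =>
    ⟨b, a, a * b, hb, ha, Int.mul_pos ha hb, fun j => by
      fin_cases j
      · simp [mul_comm]
      · simp⟩) (fun α ha hb j => by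
      rw [Fin.sum_univ_two] at ha hb
      fin_cases j
      · simpa using ha
      · simpa using hb) (by rw [hs]; exact loc_add sc h.loc h'.loc U U')
  rw [hs] at h1
  exact h1

/-- a product in separate variables -/
theorem loc2_mul (syb : S_SYB) {G H : MvPowerSeries Ω ℂ} {G' H' : MvPowerSeries Ω' ℂ}
    (h : Loc2 G H) (h' : Loc2 G' H') :
    Loc2 (MvPowerSeries.rename (Sum.inl : Ω → Ω ⊕ Ω') G * MvPowerSeries.rename Sum.inr G')
      (MvPowerSeries.rename Sum.inl H * MvPowerSeries.rename Sum.inr H') := by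
  have hs : ∑ j : Fin 1, (((1 : (MvPowerSeries (Ω ⊕ Ω') ℂ)ˣ) : MvPowerSeries (Ω ⊕ Ω') ℂ) *
      MvPowerSeries.rename Sum.inl G) ^
      (![1] : Fin 1 → ℕ) j * (((1 : (MvPowerSeries (Ω ⊕ Ω') ℂ)ˣ) : MvPowerSeries (Ω ⊕ Ω') ℂ) *
        MvPowerSeries.rename Sum.inr G') ^ (![1] : Fin 1 → ℕ) j =
      MvPowerSeries.rename (Sum.inl : Ω → Ω ⊕ Ω') G * MvPowerSeries.rename Sum.inr G' := by
    rw [Fin.sum_univ_one]
    simp
  have h1 := loc2_bin syb h h' 1 1 ![1] ![1] (fun a b ha hb =>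
    ⟨1, 1, a + b, one_pos, one_pos, add_pos ha hb, fun j => by
      fin_cases j
      simp⟩) (fun α ha hb j => by
      rw [Fin.sum_univ_one] at ha
      fin_cases j
      simpa using ha) (by rw [hs]; exact loc_mul sc h.loc h'.loc)
  rw [hs] at h1
  exact h1

/-- the first factor -/
theorem loc2_left (syb : S_SYB) {G H : MvPowerSeries Ω ℂ} {G' H' : MvPowerSeries Ω' ℂ}
    (h : Loc2 G H) (h' : Loc2 G' H') (U : (MvPowerSeries (Ω ⊕ Ω') ℂ)ˣ) :
    Loc2 ((U : MvPowerSeries (Ω ⊕ Ω') ℂ) * MvPowerSeries.rename Sum.inl G)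
      (MvPowerSeries.rename Sum.inl H * MvPowerSeries.rename Sum.inr H') := by
  have hs : ∑ j : Fin 1, ((U : MvPowerSeries (Ω ⊕ Ω') ℂ) * MvPowerSeries.rename Sum.inl G) ^
      (![1] : Fin 1 → ℕ) j * (((1 : (MvPowerSeries (Ω ⊕ Ω') ℂ)ˣ) : MvPowerSeries (Ω ⊕ Ω') ℂ) *
        MvPowerSeries.rename Sum.inr G') ^ (![0] : Fin 1 → ℕ) j =
      (U : MvPowerSeries (Ω ⊕ Ω') ℂ) * MvPowerSeries.rename (Sum.inl : Ω → Ω ⊕ Ω') G := by
    rw [Fin.sum_univ_one]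
    simp
  have h1 := loc2_bin syb h h' U 1 ![1] ![0] (fun a b ha hb =>
    ⟨1, 1, a, one_pos, one_pos, ha, fun j => by
      fin_cases j
      simp⟩) (fun α ha hb j => by
      rw [Fin.sum_univ_one] at ha
      fin_cases j
      simpa using ha) (by rw [hs]; exact loc_unit sc (loc_inl h.loc) U)
  rw [hs] at h1
  exact h1

/-- the second factor -/
theorem loc2_right (syb : S_SYB) {G H : MvPowerSeries Ω ℂ} {G' H' : MvPowerSeries Ω' ℂ}
    (h : Loc2 G H) (h' : Loc2 G' H') (U : (MvPowerSeries (Ω ⊕ Ω') ℂ)ˣ) :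
    Loc2 ((U : MvPowerSeries (Ω ⊕ Ω') ℂ) * MvPowerSeries.rename Sum.inr G')
      (MvPowerSeries.rename Sum.inl H * MvPowerSeries.rename Sum.inr H') := by
  have hs : ∑ j : Fin 1, (((1 : (MvPowerSeries (Ω ⊕ Ω') ℂ)ˣ) : MvPowerSeries (Ω ⊕ Ω') ℂ) *
      MvPowerSeries.rename Sum.inl G) ^ (![0] : Fin 1 → ℕ) j *
      ((U : MvPowerSeries (Ω ⊕ Ω') ℂ) * MvPowerSeries.rename Sum.inr G') ^
        (![1] : Fin 1 → ℕ) j =
      (U : MvPowerSeries (Ω ⊕ Ω') ℂ) * MvPowerSeries.rename (Sum.inr : Ω' → Ω ⊕ Ω') G' := by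
    rw [Fin.sum_univ_one]
    simp
  have h1 := loc2_bin syb h h' 1 U ![0] ![1] (fun a b ha hb =>
    ⟨1, 1, b, one_pos, one_pos, hb, fun j => by
      fin_cases j
      simp⟩) (fun α ha hb j => by
      rw [Fin.sum_univ_one] at hb
      fin_cases j
      simpa using hb) (by rw [hs]; exact loc_unit sc (loc_inr h'.loc) U)
  rw [hs] at h1
  exact h1

/-- one child -/
theorem loc2_un (syu : S_SYU) {G H : MvPowerSeries Ω ℂ} (h : Loc2 G H) {r : ℕ} (m : Fin r → ℕ)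
    (hw : ∀ a : ℤ, 0 < a → ∃ D : ℤ, 0 < D ∧ ∀ j, a * (m j : ℤ) = D)
    (hm : ∀ α : Fin r → ℚ, ∑ j, α j * m j = 0 → ∀ j, α j = 0)
    (hK : Loc (∑ j, G ^ m j)) : Loc2 (∑ j, G ^ m j) H := by
  classical
  obtain ⟨σ, ρ, _, _, e, s, k, y, w, V, h1, h2, h3, h4, h5, h6⟩ := h
  have h0 : 0 < s.wt (Sum.inr s.root) := by
    obtain ⟨ι, _, c, M, v', -, -, -, h, -⟩ := h1
    exact h
  obtain ⟨D, hD, hj⟩ := hw _ h0
  refine ⟨σ, Unit ⊕ ρ, inferInstance, inferInstance, e, syU s m D, Sum.elim (fun _ => 0) k, y,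
    Sum.elim (fun _ => ∑ j, G ^ m j) w, V, syu σ ρ s k r m D h1 hD hj hm, h2, ?_, ?_, rfl, ?_⟩
  · rintro (v | v)
    · change aeval (Sum.elim y (Sum.elim (fun _ => ∑ j, G ^ m j) w))
        (MvPolynomial.X (Sum.inr (Sum.inl ())) -
          ∑ j, MvPolynomial.X (Sum.inr (Sum.inr s.root)) ^ m j :
            MvPolynomial (σ ⊕ (Unit ⊕ ρ)) ℂ) = 0
      rw [map_sub, MvPolynomial.aeval_X, sub_eq_zero, map_sum]
      change ∑ j, G ^ m j = _
      refine Finset.sum_congr rfl fun j _ => ?_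
      rw [map_pow, MvPolynomial.aeval_X, h5]
      rfl
    · change aeval _ (MvPolynomial.rename (Sum.map id Sum.inr) (s.l v)) = 0
      rw [MvPolynomial.aeval_rename]
      refine Eq.trans (congrArg (fun z => aeval z (s.l v)) ?_) (h3 v)
      funext i
      rcases i with i | i <;> rfl
  · rintro (v | v)
    · exact hK
    · exact h4 v
  · rw [h6, Fintype.prod_sum_type]
    simp

/-- the zero polynomial -/
theorem loc2_zero (syu : S_SYU) {G H : MvPowerSeries Ω ℂ} (h : Loc2 G H) : Loc2 0 H := by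
  have h1 := loc2_un syu h (fun j : Fin 0 => 0) (fun a ha => ⟨a, ha, fun j => j.elim0⟩)
    (fun α _ j => j.elim0) (by
      rw [Finset.univ_eq_empty, Finset.sum_empty]
      exact loc_zero)
  rw [Finset.univ_eq_empty, Finset.sum_empty] at h1
  exact h1

/-- powers and units -/
theorem loc2_pow (syu : S_SYU) {G H : MvPowerSeries Ω ℂ} (h : Loc2 G H)
    (U : (MvPowerSeries Ω ℂ)ˣ) (k : ℕ) (hk : 0 < k) :
    Loc2 ((U : MvPowerSeries Ω ℂ) * G ^ k) H := by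
  refine loc2_abs ?_ U
  have h1 := loc2_un syu h (fun j : Fin 1 => k) (fun a ha => ⟨a * k, Int.mul_pos ha
    (by exact_mod_cast hk), fun j => rfl⟩)
    (fun α ha j => by
      rw [Fin.sum_univ_one] at ha
      have hk' : (k : ℚ) ≠ 0 := by
        have : k ≠ 0 := by omega
        exact_mod_cast this
      have := (mul_eq_zero.1 ha).resolve_right hk'
      fin_cases j
      exact this) (by
      rw [Fin.sum_univ_one]
      exact loc_pow h.loc hk)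
  rw [Fin.sum_univ_one] at h1
  exact h1

theorem rE_symm_X (ε : Ω ≃ Ω') (j : Ω') :
    (MvPowerSeries.renameEquiv ℂ ε).symm (MvPowerSeries.X j) =
      (MvPowerSeries.X (ε.symm j) : MvPowerSeries Ω ℂ) := by
  rw [AlgEquiv.symm_apply_eq]
  have h3 : (MvPowerSeries.renameEquiv ℂ ε) (MvPowerSeries.X (ε.symm j)) =
    MvPowerSeries.X (ε (ε.symm j)) := MvPowerSeries.rename_X _ _
  rw [h3, ε.apply_symm_apply]

theorem exists_phi {σ : Type} (e : Ω ≃ σ) (y : σ → MvPowerSeries Ω ℂ)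
    (hy : Coords (fun ω => y (e ω))) :
    ∃ φ : MvPowerSeries Ω ℂ ≃ₐ[ℂ] MvPowerSeries Ω ℂ,
      ∀ i, φ (MvPowerSeries.X i) = y (e i) := by
  classical
  exact inv Ω _ hy.1 (fun i => Eq.mp (congrArg
    (fun v => v ∈ Submodule.span ℂ (Set.range fun j => lin (y (e j))))
    (SumL.single_inst _ _ i)) (hy.2 i))

theorem coords_alg {σ : Type} (e : Ω ≃ σ) (y : σ → MvPowerSeries Ω ℂ)
    (hy : Coords (fun ω => y (e ω))) (ε : Ω ≃ Ω')
    (Λ : MvPowerSeries Ω ℂ ≃ₐ[ℂ] MvPowerSeries Ω' ℂ) :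
    Coords (fun ω => Λ (y ((ε.symm.trans e) ω))) := by
  obtain ⟨φ, hφ⟩ := exists_phi e y hy
  have h1 := co Ω' (((MvPowerSeries.renameEquiv ℂ ε).symm.trans φ).trans Λ)
  refine Eq.mp (congrArg Coords ?_) h1
  funext j
  change Λ (φ ((MvPowerSeries.renameEquiv ℂ ε).symm (MvPowerSeries.X j))) =
    Λ (y (e (ε.symm j)))
  rw [rE_symm_X, hφ]

theorem loc_alg (ε : Ω ≃ Ω') (Λ : MvPowerSeries Ω ℂ ≃ₐ[ℂ] MvPowerSeries Ω' ℂ)
    {G : MvPowerSeries Ω ℂ} (h : Loc G) : Loc (Λ G) := by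
  obtain ⟨σ, hσ, e, F, y, hF, hy, hG⟩ := h
  refine ⟨σ, hσ, ε.symm.trans e, F, fun s => Λ (y s), hF, coords_alg e y hy ε Λ, ?_⟩
  rw [hG]
  exact aeval_comp' (Λ : MvPowerSeries Ω ℂ →ₐ[ℂ] MvPowerSeries Ω' ℂ) y F

theorem loc2_alg (ε : Ω ≃ Ω') (Λ : MvPowerSeries Ω ℂ ≃ₐ[ℂ] MvPowerSeries Ω' ℂ)
    {G H : MvPowerSeries Ω ℂ} (h : Loc2 G H) : Loc2 (Λ G) (Λ H) := by
  obtain ⟨σ, ρ, _, _, e, s, k, y, w, V, h1, h2, h3, h4, h5, h6⟩ := h
  refine ⟨σ, ρ, _, _, ε.symm.trans e, s, k, fun i => Λ (y i), fun v => Λ (w v),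
    Units.map (Λ : MvPowerSeries Ω ℂ →* MvPowerSeries Ω' ℂ) V, h1, coords_alg e y h2 ε Λ,
    fun v => ?_, fun v => loc_alg ε Λ (h4 v), by rw [h5], ?_⟩
  · have h8 := aeval_comp' (Λ : MvPowerSeries Ω ℂ →ₐ[ℂ] MvPowerSeries Ω' ℂ) (Sum.elim y w) (s.l v)
    rw [h3 v, map_zero] at h8
    refine Eq.trans (congrArg (fun z => aeval z (s.l v)) ?_) h8.symm
    funext i
    rcases i with i | i <;> rfl
  · rw [h6, map_mul, map_prod]
    refine congrArg₂ (· * ·) rfl ?_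
    refine Finset.prod_congr rfl fun v _ => ?_
    rw [map_pow]

end Pool.Agent.Helper33K9.RO
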