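import Pool.Agent.Helper33K9.RO.L3

set_option autoImplicit false
set_option linter.unusedSectionVars false

/-! # Local normal forms of products of nodes: the induction -/

namespace Pool.Agent.Helper33K9.RO

open Pool.Agent.H628R4.TP Pool.Agent.W428.MOT Pool.Agent.TH192.MT
  Pool.Agent.Helper33K9.HP Pool.Agent.Helper33K9.FQ Pool.Agent.Helper33K9.FQ.IsoL

open MvPolynomial

variable {Ω Ω' : Type} [Fintype Ω] [Fintype Ω']

theorem lt_comp (p : Ω → ℂ) (φ : Polynomial ℂ) (f : MvPolynomial Ω ℂ) :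
    (lt p (Polynomial.aeval f φ) : MvPowerSeries Ω ℂ) = 0 ∨
    ∃ (U : (MvPowerSeries Ω ℂ)ˣ) (k : ℕ), 0 < k ∧
      (lt p (Polynomial.aeval f φ) : MvPowerSeries Ω ℂ) =
        (U : MvPowerSeries Ω ℂ) * (lt p f : MvPowerSeries Ω ℂ) ^ k := by
  set c := eval p f with hc
  set ψ : Polynomial ℂ := φ.comp (Polynomial.X + Polynomial.C c) - Polynomial.C (φ.eval c) with hψ
  have h1 : lt p (Polynomial.aeval f φ) = Polynomial.aeval (lt p f) ψ := by
    have e1 : trn p (Polynomial.aeval f φ) = Polynomial.aeval (trn p f) φ :=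
      (Polynomial.aeval_algHom_apply (aeval fun i => X i + C (p i) :
        MvPolynomial Ω ℂ →ₐ[ℂ] MvPolynomial Ω ℂ) f φ).symm
    have e2 : eval p (Polynomial.aeval f φ) = φ.eval c := by
      have := Polynomial.hom_eval₂ φ (algebraMap ℂ (MvPolynomial Ω ℂ)) (eval p) f
      rw [Polynomial.aeval_def, this, ← hc]
      have h3 : (eval p).comp (algebraMap ℂ (MvPolynomial Ω ℂ)) = RingHom.id ℂ := by
        ext r
        simp
      rw [h3, Polynomial.eval₂_id]
    have e3 : trn p f = lt p f + C c := by rw [lt, ← hc]; ring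
    rw [lt, e1, e2, hψ, map_sub, Polynomial.aeval_comp, map_add, Polynomial.aeval_X,
      Polynomial.aeval_C, Polynomial.aeval_C, e3]
    rfl
  have h2 : ψ.eval 0 = 0 := by
    rw [hψ, Polynomial.eval_sub, Polynomial.eval_comp, Polynomial.eval_add, Polynomial.eval_X,
      Polynomial.eval_C, Polynomial.eval_C, zero_add, sub_self]
  have h3 : ((Polynomial.aeval (lt p f) ψ : MvPolynomial Ω ℂ) : MvPowerSeries Ω ℂ) =
      Polynomial.aeval (lt p f : MvPowerSeries Ω ℂ) ψ :=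
    (Polynomial.aeval_algHom_apply (MvPolynomial.coeToMvPowerSeries.algHom ℂ) (lt p f) ψ).symm
  rw [h1, h3]
  by_cases h0 : ψ = 0
  · left
    rw [h0, map_zero]
  right
  obtain ⟨W, hW, hW0⟩ := Polynomial.exists_eq_pow_rootMultiplicity_mul_and_not_dvd ψ h0 0
  have hk : 0 < ψ.rootMultiplicity 0 := by
    rw [Polynomial.rootMultiplicity_pos h0]
    exact h2
  have hW1 : W.eval 0 ≠ 0 := fun h => hW0 (Polynomial.dvd_iff_isRoot.2 h)
  obtain ⟨U, hU⟩ := poly_unit W hW1 _ (cc_lt p f)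
  refine ⟨U, ψ.rootMultiplicity 0, hk, ?_⟩
  rw [hU]
  conv_lhs => rw [hW]
  rw [map_mul, map_pow, map_sub, Polynomial.aeval_X, map_zero, map_zero, sub_zero, mul_comm]

theorem loc2_prod (syb : S_SYB) (p : Ω ⊕ Ω' → ℂ) (f : MvPolynomial Ω ℂ) (g : MvPolynomial Ω' ℂ)
    {H : MvPowerSeries Ω ℂ} {H' : MvPowerSeries Ω' ℂ}
    (hf : Loc2 (lt (fun i => p (Sum.inl i)) f : MvPowerSeries Ω ℂ) H)
    (hg : Loc2 (lt (fun i => p (Sum.inr i)) g : MvPowerSeries Ω' ℂ) H') :
    Loc2 (lt p (rename Sum.inl f * rename Sum.inr g) : MvPowerSeries (Ω ⊕ Ω') ℂ)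
      (MvPowerSeries.rename Sum.inl H * MvPowerSeries.rename Sum.inr H') := by
  rw [lt_mul]
  have hf0 := cc_lt (fun i => p (Sum.inl i)) f
  have hg0 := cc_lt (fun i => p (Sum.inr i)) g
  generalize (lt (fun i => p (Sum.inl i)) f : MvPowerSeries Ω ℂ) = f' at *
  generalize (lt (fun i => p (Sum.inr i)) g : MvPowerSeries Ω' ℂ) = g' at *
  generalize eval (fun i => p (Sum.inr i)) g = d
  generalize eval (fun i => p (Sum.inl i)) f = c
  have hu : ∀ (c : ℂ), c ≠ 0 → IsUnit (MvPowerSeries.C c +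
      MvPowerSeries.rename (Sum.inl : Ω → Ω ⊕ Ω') f' : MvPowerSeries (Ω ⊕ Ω') ℂ) := fun c hc => by
    refine isUnit_of ?_
    rw [map_add, MvPowerSeries.constantCoeff_C, MvPowerSeries.constantCoeff_rename, hf0, add_zero]
    exact hc
  have hv : ∀ (c : ℂ), c ≠ 0 → IsUnit (MvPowerSeries.C c +
      MvPowerSeries.rename (Sum.inr : Ω' → Ω ⊕ Ω') g' : MvPowerSeries (Ω ⊕ Ω') ℂ) := fun c hc => by
    refine isUnit_of ?_
    rw [map_add, MvPowerSeries.constantCoeff_C, MvPowerSeries.constantCoeff_rename, hg0, add_zero]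
    exact hc
  by_cases hc : c = 0
  · by_cases hd : d = 0
    · have h1 := loc2_mul syb hf hg
      rw [hc, hd, map_zero, zero_mul, zero_mul, zero_add, zero_add]
      exact h1
    · obtain ⟨U, hU⟩ := hv d hd
      have h1 := loc2_left syb hf hg U
      rw [hU] at h1
      rw [hc, map_zero, zero_mul, add_zero]
      refine Eq.mp (congrArg (fun z => Loc2 z _) ?_) h1
      ring
  · by_cases hd : d = 0
    · obtain ⟨U, hU⟩ := hu c hc
      have h1 := loc2_right syb hf hg U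
      rw [hU] at h1
      rw [hd, map_zero, zero_mul, zero_add]
      refine Eq.mp (congrArg (fun z => Loc2 z _) ?_) h1
      ring
    · obtain ⟨U, hU⟩ := hu c hc
      obtain ⟨V, hV⟩ : IsUnit (MvPowerSeries.C d : MvPowerSeries (Ω ⊕ Ω') ℂ) :=
        isUnit_of (by rw [MvPowerSeries.constantCoeff_C]; exact hd)
      have h1 := loc2_add syb hf hg V U
      rw [hU, hV] at h1
      refine Eq.mp (congrArg (fun z => Loc2 z _) ?_) h1
      ring

theorem loc2_iso (Φ : MvPolynomial Ω ℂ ≃ₐ[ℂ] MvPolynomial Ω' ℂ) (f h : MvPolynomial Ω ℂ)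
    (hf : ∀ p : Ω → ℂ, Loc2 (lt p f : MvPowerSeries Ω ℂ) (trn p h : MvPowerSeries Ω ℂ))
    (p' : Ω' → ℂ) :
    Loc2 (lt p' (Φ f) : MvPowerSeries Ω' ℂ) (trn p' (Φ h) : MvPowerSeries Ω' ℂ) := by
  classical
  let p : Ω → ℂ := fun i => eval p' (Φ (X i))
  let Ψ := (trnE p).symm.trans (Φ.trans (trnE p'))
  have hev : ∀ Q, eval p' (Φ Q) = eval p Q := by
    intro Q
    have : ((eval p').comp (Φ : MvPolynomial Ω ℂ →+* MvPolynomial Ω' ℂ)) = eval p := by
      refine ringHom_ext (fun r => ?_) fun i => ?_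
      · have h1 : Φ (C r) = C r := Φ.commutes r
        change eval p' (Φ (C r)) = eval p (C r)
        rw [h1, eval_C, eval_C]
      · change eval p' (Φ (X i)) = eval p (X i)
        rw [eval_X]
    exact RingHom.congr_fun this Q
  have h0 : ∀ i, constantCoeff (Ψ (X i)) = 0 := by
    intro i
    change constantCoeff (trn p' (Φ ((trnE p).symm (X i)))) = 0
    rw [trnE_symm_X, map_sub, cc_trn, map_sub]
    have h1 : Φ (C (p i)) = C (p i) := Φ.commutes _
    rw [h1, eval_C]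
    exact sub_self _
  have hT : ∀ f, Ψ (trn p f) = trn p' (Φ f) := by
    intro f
    change trn p' (Φ ((trnE p).symm (trnE p f))) = _
    rw [AlgEquiv.symm_apply_apply]
  have hF : lt p' (Φ f) = Ψ (lt p f) := by
    unfold lt
    rw [map_sub, hT, hev]
    congr 1
    exact (Ψ.commutes _).symm
  obtain ⟨ε⟩ : Nonempty (Ω ≃ Ω') := Fintype.card_eq.1 (le_antisymm (card_le Ψ.symm) (card_le Ψ))
  obtain ⟨Θ, hΘ⟩ := inv Ω' _ (coords Ψ h0 ε).1 (fun i => Eq.mp (congrArg
    (fun v => v ∈ Submodule.span ℂ (Set.range fun j =>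
      lin ((Ψ (X (ε.symm j)) : MvPolynomial Ω' ℂ) : MvPowerSeries Ω' ℂ)))
    (SumL.single_inst _ _ i)) ((coords Ψ h0 ε).2 i))
  have h5 := loc2_alg ε ((MvPowerSeries.renameEquiv ℂ ε).trans Θ) (hf p)
  rw [hF, ← hT, LisoL.ext_eq Ψ ε Θ hΘ, LisoL.ext_eq Ψ ε Θ hΘ]
  exact h5

theorem trn_sub (p : Ω → ℂ) (f g : MvPolynomial Ω ℂ) : trn p (f - g) = trn p f - trn p g := by
  unfold trn
  rw [map_sub]

theorem trn_C (p : Ω → ℂ) (γ : ℂ) : trn p (C γ) = C γ := by
  unfold trn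
  rw [aeval_C]
  rfl

theorem loc2_nd (γ : ℂ) (f h : MvPolynomial Ω ℂ) (p : Ω → ℂ)
    (h1 : Loc2 (lt p f : MvPowerSeries Ω ℂ) (trn p h : MvPowerSeries Ω ℂ)) :
    Loc2 (lt p f : MvPowerSeries Ω ℂ) (trn p (h * (f - C γ)) : MvPowerSeries Ω ℂ) := by
  have h2 : trn p (h * (f - C γ)) = trn p h * (lt p f + C (eval p f - γ)) := by
    rw [trn_mul, trn_sub, trn_C, lt, map_sub]
    ring
  rw [h2, coe_mul, coe_add, coe_C]
  by_cases hγ : eval p f - γ = 0
  · rw [hγ, map_zero, add_zero]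
    exact loc2_node h1
  · obtain ⟨U, hU⟩ := isUnit_of (F := (lt p f : MvPowerSeries Ω ℂ) +
      MvPowerSeries.C (eval p f - γ)) (by
        rw [map_add, cc_lt, zero_add, MvPowerSeries.constantCoeff_C]
        exact hγ)
    rw [← hU, mul_comm]
    exact loc2_unit h1 U

theorem mls_loc2 (syl : S_SYL) (syu : S_SYU) (syb : S_SYB) {f h : MvPolynomial Ω ℂ}
    (hf : Mls Ω f h) : ∀ p : Ω → ℂ,
      Loc2 (lt p f : MvPowerSeries Ω ℂ) (trn p h : MvPowerSeries Ω ℂ) := by
  induction hf with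
  | cls f hf =>
    intro p
    have h1 : trn p (1 : MvPolynomial _ ℂ) = 1 := map_one _
    rw [h1, coe_one]
    exact loc2_fs syl (hf.lfs p)
  | sum f h g k _ _ h1 h2 =>
    intro p
    have h3 := loc2_add syb (h1 fun i => p (Sum.inl i)) (h2 fun i => p (Sum.inr i)) 1 1
    rw [Units.val_one, one_mul, one_mul] at h3
    rw [lt_sum, trn_mul, trn_rename, trn_rename, coe_mul, ← MvPowerSeries.rename_coe,
      ← MvPowerSeries.rename_coe]
    exact h3
  | prod f h g k _ _ h1 h2 =>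
    intro p
    rw [trn_mul, trn_rename, trn_rename, coe_mul, ← MvPowerSeries.rename_coe,
      ← MvPowerSeries.rename_coe]
    exact loc2_prod syb p f g (h1 _) (h2 _)
  | comp φ f h _ h1 =>
    intro p
    rcases lt_comp p φ f with h2 | ⟨U, k, hk, h2⟩
    · rw [h2]
      exact loc2_zero syu (h1 p)
    · rw [h2]
      exact loc2_pow syu (h1 p) U k hk
  | node γ f h _ h1 => exact fun p => loc2_nd γ f h p (h1 p)
  | iso Φ f h _ h1 => exact loc2_iso Φ f h h1

end Pool.Agent.Helper33K9.RO
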