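import Pool.Agent.Helper33K9.RO.St

/-!
[SPA] sums of monomials with linearly independent exponents.
-/

set_option autoImplicit false

namespace Pool.Agent.Helper33K9.RO

open MvPolynomial Pool.Agent.H628R4.TP Pool.Agent.W428.MOT Pool.Agent.TH192.MT
  Pool.Agent.Helper33K9.HP Pool.Agent.Helper33K9.FQ Pool.Agent.W749.NM

namespace SpaL

theorem sparse_fin_c {n : ℕ} {r : ℕ} (hr : 0 < r) (m : Fin r → Fin n → ℕ) (c : Fin r → ℂ)
    (hc : ∀ j, c j ≠ 0) (hl : LinearIndependent ℚ (fun j i => (m j i : ℚ))) :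
    ∃ S : Finset (ℤ × ℤ), (∀ p ∈ S, p.1 < 0 ∧ 0 < p.2 ∧ ∀ b : Polynomial ℂ,
      IsLocalBFunction (∑ j, C (c j) * ∏ i, X i ^ m j i : MvPolynomial (Fin n) ℂ) b →
        b.eval ((p.1 : ℂ) / p.2) = 0) ∧
      zetaO (∑ j, C (c j) * ∏ i, X i ^ m j i : MvPolynomial (Fin n) ℂ) ∈
        ratRing ℂ (S : Set (ℤ × ℤ)) := by
  have hm0 : ∀ j, m j ≠ 0 := fun j h => by
    refine hl.ne_zero j ?_
    funext i
    simp [h]
  obtain ⟨S, hS, hz⟩ := Pool.Agent.TH216.LR.ind_loc (k := ℂ) (r := r) (N := n) hr m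
    hl.affineIndependent hm0 c hc
  have h1 : Pool.Agent.W425.ND.spa m (fun j => algebraMap ℂ ℂ (c j)) =
      (∑ j, C (c j) * ∏ i, X i ^ m j i : MvPolynomial (Fin n) ℂ) := rfl
  refine ⟨S, fun p hp => ?_, ?_⟩
  · have h2 := hS p hp
    rw [h1] at h2
    exact h2
  · have h2 := hz ℂ {a | a ≠ 0} Pool.Agent.W375.MG.good_units
    rw [h1] at h2
    rw [zetaO_eq_zetaN]
    exact Pool.Agent.TH216.LR.zetaN_mem0 _ _ h2

end SpaL

open SpaL in
theorem spa : S_SPA := by
  intro Ω ι _ _ m c hc hl hf _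
  classical
  let ei : ι ≃ Fin (Fintype.card ι) := Fintype.equivFin ι
  have hr : 0 < Fintype.card ι := by
    rcases Nat.eq_zero_or_pos (Fintype.card ι) with h | h
    · exfalso
      have : IsEmpty ι := Fintype.card_eq_zero_iff.1 h
      exact hf (by rw [Finset.univ_eq_empty, Finset.sum_empty])
    · exact h
  set f : MvPolynomial Ω ℂ := ∑ j, C (c j) * ∏ i, X i ^ m j i with hfd
  let e : Ω ≃ Fin (Fintype.card Ω) := Fintype.equivFin Ω
  set g' : MvPolynomial (Fin (Fintype.card Ω)) ℂ := rename e f with hg'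
  have h3 : ∀ b, IsLocalBFunction f b → IsLocalBFunction g' b :=
    bf der Ω _ (MvPowerSeries.renameEquiv ℂ e) f g' (MvPowerSeries.rename_coe _ f)
  have h4 : zetaO g' = zetaO f :=
    zetaO_iso (renameEquiv ℂ e) (Fintype.card_fin _).symm
      (fun a => constantCoeff_rename _ _) f
  have h5 : g' = ∑ j, C (c (ei.symm j)) * ∏ i, X i ^ (m (ei.symm j) (e.symm i)) := by
    rw [hg', hfd, map_sum, ← Equiv.sum_comp ei.symm]
    refine Finset.sum_congr rfl fun j _ => ?_
    rw [map_mul, rename_C, map_prod, ← Equiv.prod_comp e]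
    congr 1
    refine Finset.prod_congr rfl fun i _ => ?_
    rw [map_pow, rename_X, Equiv.symm_apply_apply]
  have h6 : LinearIndependent ℚ (fun (j : Fin (Fintype.card ι)) (i : Fin (Fintype.card Ω)) =>
      (m (ei.symm j) (e.symm i) : ℚ)) := by
    have := (hl.comp ei.symm ei.symm.injective).map' (LinearMap.funLeft ℚ ℚ e.symm) (by
      rw [LinearMap.ker_eq_bot]
      exact LinearMap.funLeft_injective_of_surjective _ _ _ e.symm.surjective)
    exact this
  obtain ⟨S, hS, hz⟩ := sparse_fin_c hr (fun j i => m (ei.symm j) (e.symm i))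
    (fun j => c (ei.symm j)) (fun j => hc _) h6
  rw [← h5] at hz hS
  refine ⟨S, fun p hp => ⟨(hS p hp).2.1, fun b hb => ⟨0, ?_⟩⟩, ?_⟩
  · rw [Int.cast_zero, add_zero]
    exact (hS p hp).2.2 b (h3 b hb)
  · rw [← h4]
    exact hz

end Pool.Agent.Helper33K9.RO
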