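import Pool.Agent.Helper33K9.RO.L4
import Pool.Agent.Helper33K9.RO.Spa
import Pool.Agent.Helper33K9.RO.Eli
import Pool.Agent.Helper33K9.RO.Hypn

set_option autoImplicit false
set_option linter.unusedSectionVars false

/-! # Products of nodes: the monodromy property -/

namespace Pool.Agent.Helper33K9.RO

open Pool.Agent.H628R4.TP Pool.Agent.W428.MOT Pool.Agent.TH192.MT
  Pool.Agent.Helper33K9.HP Pool.Agent.Helper33K9.FQ

open MvPolynomial

variable {Ω Ω' : Type} [Fintype Ω] [Fintype Ω']

/-- germs with a normal form -/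
theorem loc_wmmc {g : MvPolynomial Ω ℂ} (h : Loc (g : MvPowerSeries Ω ℂ)) (h0 : g ≠ 0) :
    WMMC g := by
  classical
  obtain ⟨σ, i1, e, F, y, hF, hy, hG⟩ := h
  obtain ⟨Φ, hΦ⟩ := exists_phi e y hy
  have h2 : Φ ((rename e.symm F : MvPolynomial Ω ℂ) : MvPowerSeries Ω ℂ) =
      (g : MvPowerSeries Ω ℂ) := by
    rw [hG]
    have h3 : ∀ G : MvPolynomial Ω ℂ, Φ (G : MvPowerSeries Ω ℂ) =
        aeval (fun ω => y (e ω)) G := by
      intro G
      rw [coe_eq_aeval]
      refine (aeval_comp' (Φ : MvPowerSeries Ω ℂ →ₐ[ℂ] MvPowerSeries Ω ℂ) _ G).trans ?_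
      congr 2
      funext i
      exact hΦ i
    rw [h3, aeval_rename]
    simp only [Function.comp_def, Equiv.apply_symm_apply]
  refine linv Ω Φ _ _ h2 ?_
  have h5 : (rename e.symm F : MvPolynomial Ω ℂ) ≠ 0 := by
    intro h
    rw [h, coe_zero, map_zero] at h2
    exact h0 (coe_eq_zero_iff.1 h2.symm)
  refine Q_equiv e _ ?_ h5 ?_
  · rw [rename_rename]
    have h6 : (e : Ω → σ) ∘ e.symm = id := by
      funext i
      simp
    rw [h6, rename_id_apply]
    exact np_Q (pres eli) spa hF
  · rw [constantCoeff_rename]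
    exact hF.cc

theorem coe_aeval {σ : Type} (g : MvPolynomial Ω ℂ) (e : Ω ≃ σ)
    (Λ : MvPowerSeries Ω ℂ →ₐ[ℂ] MvPowerSeries σ ℂ) :
    Λ (g : MvPowerSeries Ω ℂ) = aeval (fun i => Λ (MvPowerSeries.X (e.symm i))) (rename e g) := by
  rw [coe_eq_aeval, aeval_comp', aeval_rename]
  congr 2
  funext i
  simp

/-- the quadratic germ of the elimination -/
theorem good_Q {σ ρ : Type} [Fintype σ] [Fintype ρ] (s : Sy σ ρ) (k : ρ → ℕ) (hs : s.Good k)
    (hk : ¬ ∀ v, k v = 0) :
    Q (rename Sum.inl (∏ v, X (Sum.inr v) ^ k v : MvPolynomial (σ ⊕ ρ) ℂ) +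
      ∑ i, X (Sum.inr i) * rename Sum.inl (s.l i) : MvPolynomial ((σ ⊕ ρ) ⊕ ρ) ℂ) := by
  classical
  obtain ⟨ι, _, c, M, v', h1, h2, h3, h4, h5, h6⟩ := hs
  have h7 := spa ((σ ⊕ ρ) ⊕ ρ) (Option ι)
    (fun o => o.elim (Sum.elim (Sum.elim (fun _ => 0) k) fun _ => 0)
      fun j => Sum.elim (M j) fun i => if v' j = i then 1 else 0)
    (fun o => o.elim 1 c) (fun o => by
      cases o with
      | none => exact one_ne_zero
      | some j => exact h1 j) (by
      rw [Fintype.linearIndependent_iff]
      intro g hg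
      have e1 : ∀ v₀, (∑ j, if v' j = v₀ then g (some j) else 0) = 0 := by
        intro v₀
        have h8 := congrFun hg (Sum.inr v₀)
        rw [Finset.sum_apply, Fintype.sum_option] at h8
        simp only [Pi.smul_apply, smul_eq_mul, Option.elim, Sum.elim_inr, Nat.cast_zero, mul_zero,
          zero_add, Nat.cast_ite, Nat.cast_one, mul_ite, mul_one, Pi.zero_apply] at h8
        exact h8
      have e2 : ∀ i, g none * Sum.elim (fun _ => 0) (fun v => (k v : ℚ)) i +
          ∑ j, g (some j) * M j i = 0 := by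
        intro i
        have h8 := congrFun hg (Sum.inl i)
        rw [Finset.sum_apply, Fintype.sum_option] at h8
        simp only [Pi.smul_apply, smul_eq_mul, Option.elim, Sum.elim_inl, Pi.zero_apply] at h8
        refine Eq.trans ?_ h8
        refine congrArg₂ (· + ·) ?_ rfl
        rcases i with i | i
        · simp
        · rfl
      have e3 : g none = 0 := by
        by_contra hn
        have h8 := (h6 (fun j => g (some j) / g none) 0 1 (fun v₀ => by
          have := congrArg (fun z => z / g none) (e1 v₀)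
          simp only [zero_div, Finset.sum_div] at this
          refine Eq.trans ?_ this
          refine Finset.sum_congr rfl fun j _ => ?_
          split_ifs
          · rfl
          · rw [zero_div]) (fun i => by
          have := congrArg (fun z => z / g none) (e2 i)
          simp only [zero_div, add_div, Finset.sum_div] at this
          rw [mul_div_cancel_left₀ _ hn] at this
          refine Eq.trans ?_ this
          simp only [ite_self, add_zero, one_mul]
          rw [add_comm]
          refine congrArg₂ (· + ·) rfl ?_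
          refine Finset.sum_congr rfl fun j _ => ?_
          ring)).2 rfl
        exact hk (h8.2 rfl)
      have h8 := (h6 (fun j => g (some j)) 0 0 e1 (fun i => by
        refine Eq.trans ?_ (e2 i)
        rw [e3]
        simp only [ite_self, add_zero, zero_mul, zero_add])).1 rfl
      rintro (_ | j)
      · exact e3
      · exact h8.2 j)
  refine Eq.mp (congrArg Q ?_) h7
  rw [Fintype.sum_option]
  congr 1
  · simp only [Option.elim]
    rw [map_one, one_mul, Fintype.prod_sum_type, Fintype.prod_sum_type, map_prod]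
    simp
  · have h8 : ∀ i, rename Sum.inl (s.l i) = (∑ j, if v' j = i then
        C (c j) * ∏ a, X (Sum.inl a) ^ M j a else 0 : MvPolynomial ((σ ⊕ ρ) ⊕ ρ) ℂ) := by
      intro i
      rw [h2 i, map_sum]
      refine Finset.sum_congr rfl fun j _ => ?_
      split_ifs
      · rw [map_mul, rename_C, map_prod]
        simp only [map_pow, rename_X]
      · rw [map_zero]
    simp only [h8, Finset.mul_sum]
    rw [Finset.sum_comm]
    refine Finset.sum_congr rfl fun j _ => ?_
    rw [Finset.sum_eq_single (v' j)]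
    · rw [if_pos rfl, Fintype.prod_sum_type]
      simp only [Option.elim, Sum.elim_inl, Sum.elim_inr]
      rw [Finset.prod_eq_single (v' j)]
      · rw [if_pos rfl, pow_one]
        ring
      · intro i _ hi
        rw [if_neg (Ne.symm hi), pow_zero]
      · intro h
        exact absurd (Finset.mem_univ _) h
    · intro i _ hi
      rw [if_neg (Ne.symm hi), mul_zero]
    · intro h
      exact absurd (Finset.mem_univ _) h

theorem coeff_R {σ ρ : Type} [Fintype σ] [Fintype ρ] (k : ρ → ℕ) (hk : 2 ≤ ∑ v, k v) (j : ρ) :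
    coeff (Finsupp.single (Sum.inr j) 1) (∏ v, X (Sum.inr v) ^ k v : MvPolynomial (σ ⊕ ρ) ℂ) =
      0 := by
  classical
  have h1 : (∏ v, X (Sum.inr v) ^ k v : MvPolynomial (σ ⊕ ρ) ℂ) =
      monomial (∑ v, Finsupp.single (Sum.inr v) (k v)) 1 := by
    have h2 : ∀ v : ρ, (X (Sum.inr v) ^ k v : MvPolynomial (σ ⊕ ρ) ℂ) =
        monomial (Finsupp.single (Sum.inr v) (k v)) 1 := fun v => X_pow_eq_monomial
    rw [Finset.prod_congr rfl fun v _ => h2 v]
    have h3 := (monomial_sum_one (R := ℂ) Finset.univ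
      (fun v : ρ => (Finsupp.single (Sum.inr v) (k v) : σ ⊕ ρ →₀ ℕ)))
    exact h3.symm
  rw [h1, coeff_monomial, if_neg]
  intro h
  have h2 := congrArg Finsupp.degree h
  rw [map_sum, Finsupp.degree_single] at h2
  simp only [Finsupp.degree_single] at h2
  omega

/-- **Products of nodes** -/
theorem loc2_wmmc (stq : S_STQ) {G : MvPowerSeries Ω ℂ} {g : MvPolynomial Ω ℂ}
    (h : Loc2 G (g : MvPowerSeries Ω ℂ)) (h0 : g ≠ 0) (hc : constantCoeff g = 0) : WMMC g := by
  classical
  obtain ⟨σ, ρ, _, _, e, s, k, y, w, V, h1, h2, h3, h4, h5, h6⟩ := h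
  have hcc : MvPowerSeries.constantCoeff (g : MvPowerSeries Ω ℂ) = 0 := by
    rw [← MvPowerSeries.coeff_zero_eq_constantCoeff_apply, MvPolynomial.coeff_coe]
    exact hc
  have hV : MvPowerSeries.constantCoeff (V : MvPowerSeries Ω ℂ) ≠ 0 := by
    have := (MvPowerSeries.isUnit_iff_constantCoeff (φ := (V : MvPowerSeries Ω ℂ))).1 V.isUnit
    exact this.ne_zero
  have hk0 : ¬ ∀ v, k v = 0 := by
    intro hk
    rw [h6] at hcc
    simp only [hk, pow_zero, Finset.prod_const_one, mul_one] at hcc
    exact hV hcc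
  rcases Nat.lt_or_ge (∑ v, k v) 2 with hk | hk
  · -- one factor
    push Not at hk0
    obtain ⟨v, hv⟩ := hk0
    have h7 : ∀ v', v' ≠ v → k v' = 0 := by
      intro v' hv'
      have h8 := Finset.add_le_sum (f := k) (s := Finset.univ) (fun _ _ => Nat.zero_le _)
        (Finset.mem_univ v) (Finset.mem_univ v') hv'.symm
      omega
    have h8 : k v = 1 := by
      have h9 := Finset.single_le_sum (f := k) (s := Finset.univ) (fun _ _ => Nat.zero_le _)
        (Finset.mem_univ v)
      omega
    refine loc_wmmc ?_ h0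
    rw [h6, Finset.prod_eq_single v]
    · rw [h8, pow_one]
      exact loc_unit sc (h4 v) V
    · intro v' _ hv'
      rw [h7 v' hv', pow_zero]
    · intro h
      exact absurd (Finset.mem_univ _) h
  · -- several factors
    obtain ⟨φ, hφ⟩ := exists_phi e y h2
    set Λ : MvPowerSeries Ω ℂ ≃ₐ[ℂ] MvPowerSeries σ ℂ :=
      φ.symm.trans (MvPowerSeries.renameEquiv ℂ e) with hΛ
    have e1 : ∀ i, Λ (y i) = MvPowerSeries.X i := by
      intro i
      have h7 : y i = φ (MvPowerSeries.X (e.symm i)) := by rw [hφ, Equiv.apply_symm_apply]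
      rw [h7]
      change MvPowerSeries.renameEquiv ℂ e (φ.symm (φ (MvPowerSeries.X (e.symm i)))) = _
      rw [AlgEquiv.symm_apply_apply]
      have h3 : (MvPowerSeries.renameEquiv ℂ e) (MvPowerSeries.X (e.symm i)) =
        MvPowerSeries.X (e (e.symm i)) := MvPowerSeries.rename_X _ _
      rw [h3, e.apply_symm_apply]
    have e2 : ∀ F : MvPolynomial (σ ⊕ ρ) ℂ,
        aeval (Sum.elim MvPowerSeries.X fun v => Λ (w v)) F = Λ (aeval (Sum.elim y w) F) := by
      intro F
      refine Eq.trans ?_ (aeval_comp' (Λ : MvPowerSeries Ω ℂ →ₐ[ℂ] MvPowerSeries σ ℂ)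
        (Sum.elim y w) F).symm
      refine congrArg (fun z => aeval z F) ?_
      funext i
      rcases i with i | i
      · exact (e1 i).symm
      · rfl
    have hU : IsUnit (Λ ((V⁻¹ : (MvPowerSeries Ω ℂ)ˣ) : MvPowerSeries Ω ℂ)) :=
      (V⁻¹).isUnit.map Λ
    have h7 : WMMC (rename e g) := by
      refine stq σ ρ (rename e g) (∏ v, X (Sum.inr v) ^ k v) s.l
        (Λ ((V⁻¹ : (MvPowerSeries Ω ℂ)ˣ) : MvPowerSeries Ω ℂ))
        (fun i => Λ (MvPowerSeries.X (e.symm i))) (fun v => Λ (w v)) ?_ ?_ ?_ ?_ ?_ ?_ ?_ ?_ ?_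
        (good_Q s k h1 hk0)
      · intro h
        exact h0 (rename_injective _ e.injective (by rw [h, map_zero]))
      · rw [constantCoeff_rename, hc]
      · exact ((MvPowerSeries.isUnit_iff_constantCoeff).1 hU).ne_zero
      · exact coords_alg (Equiv.refl Ω) (fun i => MvPowerSeries.X i) coords_X e Λ
      · intro v
        exact (loc_alg e Λ (h4 v)).cc
      · intro v
        rw [e2, h3 v, map_zero]
      · obtain ⟨ι, _, c, M, v', -, -, -, -, h, -⟩ := h1
        exact h
      · exact coeff_R k hk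
      · rw [e2]
        have h8 : aeval (Sum.elim y w) (∏ v, X (Sum.inr v) ^ k v : MvPolynomial (σ ⊕ ρ) ℂ) =
            ∏ v, w v ^ k v := by
          rw [map_prod]
          refine Finset.prod_congr rfl fun v _ => ?_
          rw [map_pow, aeval_X, Sum.elim_inr]
        have h9 : ∏ v, w v ^ k v = ((V⁻¹ : (MvPowerSeries Ω ℂ)ˣ) : MvPowerSeries Ω ℂ) *
            (g : MvPowerSeries Ω ℂ) := by
          rw [h6, ← mul_assoc, Units.inv_mul, one_mul]
        rw [h8, h9, map_mul]
        congr 1
        exact (coe_aeval g e (Λ : MvPowerSeries Ω ℂ →ₐ[ℂ] MvPowerSeries σ ℂ)).symm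
    exact (HypnL.wmmc_equiv e h0).1 h7

/-- **The monodromy property for products of nodes of read-once formulas** -/
theorem mls_wmmc (syl : S_SYL) (syu : S_SYU) (syb : S_SYB) (stq : S_STQ)
    {f h : MvPolynomial Ω ℂ} (hf : Mls Ω f h) (h0 : h ≠ 0) (p : Ω → ℂ) (hp : eval p h = 0) :
    WMMC (trn p h) :=
  loc2_wmmc stq (mls_loc2 syl syu syb hf p) (trn_ne_zero h0 p) (by rw [cc_trn, hp])

end Pool.Agent.Helper33K9.RO
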