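import Pool.Agent.Helper33K9.RO.St3
import Pool.Agent.Y229.PS.Unit

set_option autoImplicit false

/-! [UB] the local functional equations do not change under formal changes of coordinates and
multiplication with units. -/

namespace Pool.Agent.Helper33K9.RO

open MvPolynomial Pool.Agent.H628R4.TP Pool.Agent.W428.MOT Pool.Agent.TH192.MT
  Pool.Agent.Helper33K9.HP Pool.Agent.Helper33K9.FQ
open Pool.Agent.Y229.PS (IsFormalBFunction formal_unit local_of_formal formal_of_local coordB)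
open Pool.Agent.Y229.GL (IsCoord)

namespace UbL

theorem isCoord {n : ℕ} (Φ : MvPowerSeries (Fin n) ℂ ≃ₐ[ℂ] MvPowerSeries (Fin n) ℂ) :
    IsCoord fun i => Φ (MvPowerSeries.X i) := by
  unfold IsCoord
  have h1 := (co (Fin n) Φ).2
  set M : Matrix (Fin n) (Fin n) ℂ := Matrix.of fun i j =>
    MvPowerSeries.coeff (Finsupp.single j 1) (Φ (MvPowerSeries.X i)) with hM
  have h2 : (⊤ : Submodule ℂ (Fin n → ℂ)) ≤ Submodule.span ℂ (Set.range M.row) := by
    rw [← (Pi.basisFun ℂ (Fin n)).span_eq, Submodule.span_le]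
    rintro _ ⟨i, rfl⟩
    rw [Pi.basisFun_apply]
    have h3 := h1 i
    have h4 : (Pi.single i (1 : ℂ) : Fin n → ℂ) =
        @Pi.single (Fin n) (fun _ => ℂ) _ (fun a b => Classical.propDecidable (a = b)) i 1 :=
      SumL.single_inst _ _ _
    rw [h4]
    exact h3
  have h3 : LinearIndependent ℂ M.row :=
    linearIndependent_of_top_le_span_of_card_eq_finrank h2 (by simp)
  have h4 := Matrix.linearIndependent_rows_iff_isUnit.1 h3
  rw [Matrix.isUnit_iff_isUnit_det] at h4
  exact h4.ne_zero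

theorem fin {n : ℕ} (Φ : MvPowerSeries (Fin n) ℂ ≃ₐ[ℂ] MvPowerSeries (Fin n) ℂ)
    (U : MvPowerSeries (Fin n) ℂ) (f g : MvPolynomial (Fin n) ℂ)
    (hU : MvPowerSeries.constantCoeff U ≠ 0)
    (h : U * Φ (f : MvPowerSeries (Fin n) ℂ) = (g : MvPowerSeries (Fin n) ℂ))
    (b : Polynomial ℂ) (hb : IsLocalBFunction f b) : IsLocalBFunction g b := by
  have h0 : ∀ i, MvPowerSeries.constantCoeff (Φ (MvPowerSeries.X i)) = 0 := (co (Fin n) Φ).1
  have h1 := coordB (isCoord Φ) h0 (formal_of_local hb)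
  have h2 : MvPowerSeries.subst (fun i => Φ (MvPowerSeries.X i))
      (f : MvPowerSeries (Fin n) ℂ) = Φ (f : MvPowerSeries (Fin n) ℂ) := by
    have hs := MvPowerSeries.hasSubst_of_constantCoeff_zero h0
    have h3 : ((Φ : MvPowerSeries (Fin n) ℂ →ₐ[ℂ] MvPowerSeries (Fin n) ℂ).comp
        (coeToMvPowerSeries.algHom ℂ) : MvPolynomial (Fin n) ℂ →ₐ[ℂ] MvPowerSeries (Fin n) ℂ) =
        (MvPowerSeries.substAlgHom (R := ℂ) hs).comp (coeToMvPowerSeries.algHom ℂ) := by
      ext i : 1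
      change Φ ((X i : MvPolynomial (Fin n) ℂ) : MvPowerSeries (Fin n) ℂ) =
        MvPowerSeries.substAlgHom hs ((X i : MvPolynomial (Fin n) ℂ) : MvPowerSeries (Fin n) ℂ)
      rw [coe_X, MvPowerSeries.substAlgHom_X]
    have h4 := congrArg (fun φ => φ f) h3
    rw [← MvPowerSeries.coe_substAlgHom hs]
    exact h4.symm
  rw [h2] at h1
  obtain ⟨V, hV⟩ := isUnit_of hU
  have h5 := formal_unit (u := U) (v := ((V⁻¹ : (MvPowerSeries (Fin n) ℂ)ˣ) :
    MvPowerSeries (Fin n) ℂ)) (by rw [← hV, Units.inv_mul]) h1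
  rw [h] at h5
  exact local_of_formal h5

end UbL

open UbL in
theorem ub : S_UB := by
  intro Ω _ Φ U f g hU _ h b hb
  let e : Ω ≃ Fin (Fintype.card Ω) := Fintype.equivFin Ω
  let ε := MvPowerSeries.renameEquiv ℂ e
  have h1 : IsLocalBFunction (rename e f) b :=
    bf der Ω _ ε f (rename e f) (MvPowerSeries.rename_coe _ f) b hb
  have h2 := fin ((ε.symm.trans Φ).trans ε) (ε U) (rename e f) (rename e g) ?_ ?_ b h1
  · refine bf der _ _ ε.symm (rename e g) g ?_ b h2
    rw [AlgEquiv.symm_apply_eq]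
    exact (MvPowerSeries.rename_coe _ g).symm
  · change MvPowerSeries.constantCoeff (MvPowerSeries.rename e U) ≠ 0
    rw [MvPowerSeries.constantCoeff_rename]
    exact hU
  · have h3 : ((rename e f : MvPolynomial (Fin (Fintype.card Ω)) ℂ) :
        MvPowerSeries (Fin (Fintype.card Ω)) ℂ) = ε (f : MvPowerSeries Ω ℂ) :=
      (MvPowerSeries.rename_coe _ f).symm
    have h4 : ((rename e g : MvPolynomial (Fin (Fintype.card Ω)) ℂ) :
        MvPowerSeries (Fin (Fintype.card Ω)) ℂ) = ε (g : MvPowerSeries Ω ℂ) :=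
      (MvPowerSeries.rename_coe _ g).symm
    rw [h3, h4, ← h, map_mul]
    change ε U * ε (Φ (ε.symm (ε _))) = _
    rw [AlgEquiv.symm_apply_apply]

end Pool.Agent.Helper33K9.RO
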