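import Pool.Agent.Helper33K9.RO.St3
import Pool.Agent.Helper33K9.FQ.Jet

set_option autoImplicit false

/-! [UZ] the local motivic zeta function does not change under formal changes of coordinates and
multiplication with units. -/

namespace Pool.Agent.Helper33K9.RO

open MvPolynomial Pool.Agent.H628R4.TP Pool.Agent.W428.MOT Pool.Agent.TH192.MT
  Pool.Agent.Helper33K9.HP Pool.Agent.Helper33K9.FQ

namespace UzL

open JetL

variable {σ : Type} [Fintype σ]

/-- `F` vanishes to order exactly `d` -/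
def Od {A : Type} [CommRing A] (d : ℕ) (F : PowerSeries A) : Prop :=
  (∀ j < d, PowerSeries.coeff j F = 0) ∧ PowerSeries.coeff d F ≠ 0

theorem coeff_mul_low {A : Type} [CommRing A] {d : ℕ} {u F : PowerSeries A}
    (hF : ∀ j < d, PowerSeries.coeff j F = 0) :
    (∀ j < d, PowerSeries.coeff j (u * F) = 0) ∧
      PowerSeries.coeff d (u * F) = PowerSeries.coeff 0 u * PowerSeries.coeff d F := by
  have h1 : PowerSeries.X ^ d ∣ F := PowerSeries.X_pow_dvd_iff.2 hF
  obtain ⟨G, rfl⟩ := h1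
  have h2 : u * (PowerSeries.X ^ d * G) = PowerSeries.X ^ d * (u * G) := by ring
  rw [h2]
  refine ⟨fun j hj => ?_, ?_⟩
  · rw [PowerSeries.coeff_X_pow_mul', if_neg (by omega)]
  · rw [PowerSeries.coeff_X_pow_mul', if_pos le_rfl, PowerSeries.coeff_X_pow_mul', if_pos le_rfl,
      Nat.sub_self, PowerSeries.coeff_zero_eq_constantCoeff_apply,
      PowerSeries.coeff_zero_eq_constantCoeff_apply, PowerSeries.coeff_zero_eq_constantCoeff_apply,
      map_mul]

theorem od_mul {A : Type} [Field A] {d : ℕ} {u F : PowerSeries A}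
    (hu : PowerSeries.coeff 0 u ≠ 0) : Od d (u * F) ↔ Od d F := by
  constructor
  · rintro ⟨h1, h2⟩
    have h3 : ∀ j < d, PowerSeries.coeff j F = 0 := by
      intro j
      induction j using Nat.strong_induction_on with
      | _ j ih =>
        intro hj
        have h4 := (coeff_mul_low (u := u) (d := j) fun k hk => ih k hk (by omega)).2
        rw [h1 j hj] at h4
        exact (mul_eq_zero.1 h4.symm).resolve_left hu
    refine ⟨h3, fun h => h2 ?_⟩
    rw [(coeff_mul_low h3).2, h, mul_zero]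
  · rintro ⟨h1, h2⟩
    have h3 := coeff_mul_low (u := u) h1
    exact ⟨h3.1, by rw [h3.2]; exact mul_ne_zero hu h2⟩

theorem mem_tr' (Φ : MvPowerSeries σ ℂ ≃ₐ[ℂ] MvPowerSeries σ ℂ) (U : MvPowerSeries σ ℂ)
    (hU : MvPowerSeries.constantCoeff U ≠ 0) {f g : MvPolynomial σ ℂ}
    (hfg : U * Φ (f : MvPowerSeries σ ℂ) = (g : MvPowerSeries σ ℂ)) {d : ℕ}
    {z : Pt ℂ (σ × Fin (d + 1))} (hz : ∀ i, z (i, 0) = 0) :
    jT (tr Φ d) z ∈ JetS f {0} {c | c ≠ 0} d ↔ z ∈ JetS g {0} {c | c ≠ 0} d := by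
  set V : MvPolynomial σ ℂ := MvPowerSeries.truncTotal (d + 1) U with hV
  have h1 := cg_jT (tr Φ d) z f
  have h2 : Cg d (aeval (ar z) (V * tr Φ d f)) (aeval (ar z) g) := by
    apply cg_of_order _ hz
    rw [← hfg]
    have e1 : ((V * tr Φ d f : MvPolynomial σ ℂ) : MvPowerSeries σ ℂ) - U * Φ f =
        ((V : MvPowerSeries σ ℂ) - U) * ((tr Φ d f : MvPolynomial σ ℂ) : MvPowerSeries σ ℂ) +
        U * (((tr Φ d f : MvPolynomial σ ℂ) : MvPowerSeries σ ℂ) - Φ f) := by
      rw [coe_mul]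
      ring
    rw [e1]
    refine le_trans (le_min ?_ ?_) MvPowerSeries.min_order_le_add
    · exact ((order_trunc U d).trans le_self_add).trans MvPowerSeries.le_order_mul
    · exact ((tr_sub Φ d f).trans le_add_self).trans MvPowerSeries.le_order_mul
  set u := aeval (ar z) V with hu
  have hu0 : PowerSeries.coeff 0 u ≠ 0 := by
    rw [hu, coeff_zero_aevalK]
    have h1 : (fun i => PowerSeries.coeff 0 (ar z i)) = (0 : σ → AlgebraicClosure ℂ) := by
      funext i
      rw [coeff_ar_zero, hz]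
      rfl
    rw [h1]
    have h2 : aeval (0 : σ → AlgebraicClosure ℂ) V = algebraMap ℂ _ (constantCoeff V) :=
      aeval_zero _
    rw [h2, hV, MvPowerSeries.constantCoeff_truncTotal_eq_ite, if_pos (Nat.succ_pos d)]
    exact (map_ne_zero _).2 hU
  have h3 : ∀ k ≤ d, PowerSeries.coeff k (u * aeval (ar (jT (tr Φ d) z)) f)
      = PowerSeries.coeff k (aeval (ar z) g) := by
    intro k hk
    have e2 : aeval (ar z) (V * tr Φ d f) = u * aeval (ar z) (tr Φ d f) := map_mul _ _ _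
    rw [← h2 k hk, e2, PowerSeries.coeff_mul, PowerSeries.coeff_mul]
    refine Finset.sum_congr rfl fun p hp => ?_
    rw [h1 p.2 (by have := Finset.HasAntidiagonal.mem_antidiagonal.1 hp; omega)]
  have h4 : (fun i => jT (tr Φ d) z (i, 0)) = fun i => z (i, 0) := by
    funext i
    rw [center Φ hz, hz]
  have h5 : Od d (u * aeval (ar (jT (tr Φ d) z)) f) ↔ Od d (aeval (ar z) g) := by
    unfold Od
    rw [h3 d le_rfl]
    refine and_congr (forall₂_congr fun j hj => ?_) Iff.rfl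
    rw [h3 j hj.le]
  rw [od_mul hu0] at h5
  unfold JetS
  rw [Set.mem_ofPred_eq, Set.mem_ofPred_eq, h4]
  exact and_congr Iff.rfl h5

end UzL

open JetL UzL in
theorem uz : S_UZ := by
  intro σ _ Φ U f g hU hfg
  obtain ⟨M, -, hM⟩ := exists_meas ℂ
  obtain ⟨V, hV⟩ := isUnit_of hU
  have hgf : Φ.symm ((V⁻¹ : (MvPowerSeries σ ℂ)ˣ) : MvPowerSeries σ ℂ) *
      Φ.symm (g : MvPowerSeries σ ℂ) = (f : MvPowerSeries σ ℂ) := by
    rw [← map_mul, ← hfg, ← hV, Units.inv_mul_cancel_left, AlgEquiv.symm_apply_apply]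
  have hU' : MvPowerSeries.constantCoeff
      (Φ.symm ((V⁻¹ : (MvPowerSeries σ ℂ)ˣ) : MvPowerSeries σ ℂ)) ≠ 0 := by
    have h1 : IsUnit (Φ.symm ((V⁻¹ : (MvPowerSeries σ ℂ)ˣ) : MvPowerSeries σ ℂ)) :=
      (V⁻¹).isUnit.map Φ.symm
    rw [MvPowerSeries.isUnit_iff_constantCoeff] at h1
    exact h1.ne_zero
  unfold zetaO
  congr 2
  funext l
  rw [← hM, ← hM]
  congr 2
  symm
  refine M.iso _ _ (constr_jet g l) (constr_jet f l) (jT (tr Φ l)) (jT (tr Φ.symm l))
    (regularOn_poly (pf_jT _) _) (regularOn_poly (pf_jT _) _) ?_ ?_ ?_ ?_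
  · intro z hz
    exact (mem_tr' Φ U hU hfg (center_of_mem hz)).2 hz
  · intro w hw
    exact (mem_tr' Φ.symm _ hU' hgf (center_of_mem hw)).2 hw
  · intro z hz
    exact jT_tr Φ (center_of_mem hz)
  · intro w hw
    have h1 := jT_tr Φ.symm (center_of_mem hw)
    rw [AlgEquiv.symm_symm] at h1
    exact h1

end Pool.Agent.Helper33K9.RO
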