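import Pool.Agent.Helper33K9.RO.St4
import Pool.Agent.Helper33K9.RO.Stab
import Pool.Agent.Helper33K9.RO.Pres
import Pool.Agent.Helper33K9.RO.Tay
import Pool.Agent.Helper33K9.RO.Hypn
import Pool.Agent.Helper33K9.RO.Coo
import Pool.Agent.Helper33K9.RO.Uz
import Pool.Agent.Helper33K9.RO.Ub

set_option autoImplicit false

/-! # [STQ] the elimination theorem for arbitrary finite index types -/

namespace Pool.Agent.Helper33K9.RO

open MvPolynomial Pool.Agent.H628R4.TP Pool.Agent.W428.MOT Pool.Agent.TH192.MT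
  Pool.Agent.Helper33K9.HP Pool.Agent.Helper33K9.FQ

/-- the elimination theorem for `Fin r`, with `Q` as a hypothesis -/
theorem stabQ (tay : S_TAY) (hypn : S_HYPN) (coo : S_COO) (uz : S_UZ) (ub : S_UB)
    (σ : Type) [Fintype σ] (g : MvPolynomial σ ℂ) (r : ℕ) (R : MvPolynomial (σ ⊕ Fin r) ℂ)
    (l : Fin r → MvPolynomial (σ ⊕ Fin r) ℂ) (u : MvPowerSeries σ ℂ)
    (y : σ → MvPowerSeries σ ℂ) (w : Fin r → MvPowerSeries σ ℂ) (hg : g ≠ 0)
    (hg0 : constantCoeff g = 0) (hu : MvPowerSeries.constantCoeff u ≠ 0) (hy : Coords y)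
    (hw : ∀ j, MvPowerSeries.constantCoeff (w j) = 0)
    (hl : ∀ i, aeval (Sum.elim MvPowerSeries.X w) (l i) = 0)
    (hJ : IsUnit (Matrix.of fun i j =>
      MvPolynomial.coeff (Finsupp.single (Sum.inr j) 1) (l i)).det)
    (hR1 : ∀ j, MvPolynomial.coeff (Finsupp.single (Sum.inr j) 1) R = 0)
    (hgR : u * aeval y g = aeval (Sum.elim MvPowerSeries.X w) R)
    (hind : Q (stabL R l)) : WMMC g := by
  classical
  -- the differences
  set ρ : MvPowerSeries σ ℂ →ₐ[ℂ] MvPowerSeries (σ ⊕ Fin r) ℂ := MvPowerSeries.rename Sum.inl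
    with hρ
  set θ : MvPowerSeries (σ ⊕ Fin r) ℂ →ₐ[ℂ] MvPowerSeries ((σ ⊕ Fin r) ⊕ Fin r) ℂ :=
    MvPowerSeries.rename Sum.inl with hθ
  have hρX : ∀ i, ρ (MvPowerSeries.X i) = MvPowerSeries.X (Sum.inl i) := fun i => by
    rw [hρ, MvPowerSeries.rename_X]
  have hθX : ∀ i, θ (MvPowerSeries.X i) = MvPowerSeries.X (Sum.inl i) := fun i => by
    rw [hθ, MvPowerSeries.rename_X]
  have hρw : ∀ j, MvPowerSeries.constantCoeff (ρ (w j)) = 0 := fun j => by
    rw [hρ, MvPowerSeries.constantCoeff_rename, hw]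
  have key := tay (σ ⊕ Fin r) σ r (fun i => MvPowerSeries.X (Sum.inl i))
    (fun j => MvPowerSeries.X (Sum.inr j)) (fun j => ρ (w j))
    (fun i => MvPowerSeries.constantCoeff_X _) (fun i => MvPowerSeries.constantCoeff_X _) hρw
  have hX : (Sum.elim (fun i => MvPowerSeries.X (Sum.inl i)) fun j =>
      MvPowerSeries.X (Sum.inr j) : σ ⊕ Fin r → MvPowerSeries (σ ⊕ Fin r) ℂ) =
      MvPowerSeries.X := by
    funext i
    rcases i with i | i <;> rfl
  have hXw : ∀ F : MvPolynomial (σ ⊕ Fin r) ℂ,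
      aeval (Sum.elim (fun i => MvPowerSeries.X (Sum.inl i)) fun j => ρ (w j)) F =
        ρ (aeval (Sum.elim MvPowerSeries.X w) F) := by
    intro F
    rw [aeval_comp']
    congr 2
    funext i
    rcases i with i | i
    · exact (hρX i).symm
    · rfl
  obtain ⟨K, hK1, hK2⟩ := key R
  choose P hP1 hP2 using fun i => key (l i)
  rw [hX, ← coe_eq_aeval, hXw, ← hgR] at hK1
  have hP1' : ∀ i, ((l i : MvPolynomial (σ ⊕ Fin r) ℂ) : MvPowerSeries (σ ⊕ Fin r) ℂ) =
      ∑ j, (MvPowerSeries.X (Sum.inr j) - ρ (w j)) * P i j := by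
    intro i
    have h := hP1 i
    rw [hX, ← coe_eq_aeval, hXw, hl, map_zero, sub_zero] at h
    exact h
  -- the coordinates
  have hc := coo σ r y w P K hy hw (fun j => by rw [hK2, hR1]) (by
    refine Eq.mp (congrArg IsUnit (congrArg Matrix.det ?_)) hJ
    ext i j
    exact (hP2 i j).symm)
  set κ : MvPowerSeries σ ℂ →ₐ[ℂ] MvPowerSeries ((σ ⊕ Fin r) ⊕ Fin r) ℂ :=
    MvPowerSeries.rename (fun i => Sum.inl (Sum.inl i)) with hκ
  have hκρ : ∀ F, κ F = θ (ρ F) := by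
    intro F
    rw [hκ, hθ, hρ, MvPowerSeries.rename_rename]
    rfl
  obtain ⟨U, hU⟩ : IsUnit (κ u) := isUnit_of (by
    rw [hκ, MvPowerSeries.constantCoeff_rename]; exact hu)
  set Y : (σ ⊕ Fin r) ⊕ Fin r → MvPowerSeries ((σ ⊕ Fin r) ⊕ Fin r) ℂ :=
    Sum.elim (Sum.elim (fun i => κ (y i)) fun j => MvPowerSeries.X (Sum.inl (Sum.inr j)) -
      κ (w j)) fun j => (∑ i, MvPowerSeries.X (Sum.inr i) * θ (P i j)) + θ (K j) with hY
  have hc2 := AsmL.coords_mul Y hc (Sum.elim (fun _ => 1) fun _ => U⁻¹)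
  set Y' : (σ ⊕ Fin r) ⊕ Fin r → MvPowerSeries ((σ ⊕ Fin r) ⊕ Fin r) ℂ := fun v =>
    Y v * ((Sum.elim (fun _ => 1) (fun _ => U⁻¹) v : (MvPowerSeries ((σ ⊕ Fin r) ⊕ Fin r) ℂ)ˣ) :
      MvPowerSeries ((σ ⊕ Fin r) ⊕ Fin r) ℂ) with hY'
  obtain ⟨Ψ, hΨ⟩ := inv _ Y' hc2.1 (fun i => Eq.mp (congrArg
    (fun v => v ∈ Submodule.span ℂ (Set.range fun j => lin (Y' j)))
    (SumL.single_inst _ _ i)) (hc2.2 i))
  have hΨ2 : ∀ G : MvPolynomial ((σ ⊕ Fin r) ⊕ Fin r) ℂ,
      Ψ (G : MvPowerSeries ((σ ⊕ Fin r) ⊕ Fin r) ℂ) = aeval Y' G := by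
    intro G
    rw [coe_eq_aeval]
    refine (aeval_comp' (Ψ : MvPowerSeries ((σ ⊕ Fin r) ⊕ Fin r) ℂ →ₐ[ℂ]
      MvPowerSeries ((σ ⊕ Fin r) ⊕ Fin r) ℂ) _ G).trans ?_
    congr 2
    funext i
    exact hΨ i
  have h1 : κ u * Ψ ((hypN r g : MvPolynomial ((σ ⊕ Fin r) ⊕ Fin r) ℂ) :
      MvPowerSeries ((σ ⊕ Fin r) ⊕ Fin r) ℂ) =
      ((stabL R l : MvPolynomial ((σ ⊕ Fin r) ⊕ Fin r) ℂ) :
        MvPowerSeries ((σ ⊕ Fin r) ⊕ Fin r) ℂ) := by
    have e1 : aeval Y' (rename (fun i => Sum.inl (Sum.inl i)) g :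
        MvPolynomial ((σ ⊕ Fin r) ⊕ Fin r) ℂ) = κ (aeval y g) := by
      rw [aeval_rename, aeval_comp']
      congr 2
      funext i
      simp only [hY', hY, Function.comp_apply, Sum.elim_inl, Units.val_one, mul_one]
    have e2 : ∀ j, Y' (Sum.inl (Sum.inr j)) =
        MvPowerSeries.X (Sum.inl (Sum.inr j)) - κ (w j) := by
      intro j
      simp only [hY', hY, Sum.elim_inl, Sum.elim_inr, Units.val_one, mul_one]
    have e3 : ∀ j, κ u * Y' (Sum.inr j) =
        (∑ i, MvPowerSeries.X (Sum.inr i) * θ (P i j)) + θ (K j) := by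
      intro j
      simp only [hY', hY, Sum.elim_inr]
      rw [← hU, mul_comm, mul_assoc, Units.inv_mul, mul_one]
    have e4 : ((stabL R l : MvPolynomial ((σ ⊕ Fin r) ⊕ Fin r) ℂ) :
        MvPowerSeries ((σ ⊕ Fin r) ⊕ Fin r) ℂ) =
        θ (R : MvPowerSeries (σ ⊕ Fin r) ℂ) + ∑ i, MvPowerSeries.X (Sum.inr i) *
          θ ((l i : MvPolynomial (σ ⊕ Fin r) ℂ) : MvPowerSeries (σ ⊕ Fin r) ℂ) := by
      unfold stabL
      rw [← coeToMvPowerSeries.ringHom_apply, map_add, map_sum, hθ]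
      congr 1
      · rw [coeToMvPowerSeries.ringHom_apply, MvPowerSeries.rename_coe]
      · refine Finset.sum_congr rfl fun i _ => ?_
        rw [map_mul, coeToMvPowerSeries.ringHom_apply, coeToMvPowerSeries.ringHom_apply, coe_X,
          MvPowerSeries.rename_coe]
    have e5 : (R : MvPowerSeries (σ ⊕ Fin r) ℂ) = ρ (u * aeval y g) +
        ∑ j, (MvPowerSeries.X (Sum.inr j) - ρ (w j)) * K j := by
      rw [← hK1]
      ring
    rw [hΨ2, hypN, map_add, map_sum, e1, e4, e5]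
    simp only [map_mul, aeval_X, e2, hP1', map_add, map_sum, map_sub, hθX, ← hκρ, mul_add,
      Finset.mul_sum]
    rw [add_assoc]
    congr 1
    rw [Finset.sum_comm, ← Finset.sum_add_distrib]
    refine Finset.sum_congr rfl fun j _ => ?_
    have e6 : κ u * ((MvPowerSeries.X (Sum.inl (Sum.inr j)) - κ (w j)) * Y' (Sum.inr j)) =
        (MvPowerSeries.X (Sum.inl (Sum.inr j)) - κ (w j)) * (κ u * Y' (Sum.inr j)) := by ring
    rw [e6, e3, mul_add, Finset.mul_sum, add_comm]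
    congr 1
    refine Finset.sum_congr rfl fun i _ => ?_
    ring
  have hu' : MvPowerSeries.constantCoeff (κ u) ≠ 0 := by
    rw [hκ, MvPowerSeries.constantCoeff_rename]
    exact hu
  have hN0 : (hypN r g : MvPolynomial ((σ ⊕ Fin r) ⊕ Fin r) ℂ) ≠ 0 := by
    intro h
    have h2 := congrArg (aeval (Sum.elim (Sum.elim X 0) 0 :
      (σ ⊕ Fin r) ⊕ Fin r → MvPolynomial σ ℂ)) h
    rw [hypN, map_add, map_sum, aeval_rename, map_zero] at h2
    have h3 : ((Sum.elim (Sum.elim X 0) 0 : (σ ⊕ Fin r) ⊕ Fin r → MvPolynomial σ ℂ) ∘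
      fun i => Sum.inl (Sum.inl i)) = X := rfl
    rw [h3, aeval_X_left_apply, Finset.sum_eq_zero, add_zero] at h2
    · exact hg h2
    · intro j _
      rw [map_mul, aeval_X, aeval_X]
      simp
  have hL0 : stabL R l ≠ 0 := by
    intro h
    rw [h, coe_zero, ← hU, Units.mul_right_eq_zero] at h1
    exact hN0 (coe_eq_zero_iff.1 ((map_eq_zero_iff Ψ Ψ.injective).1 h1))
  have hLc : constantCoeff (stabL R l) = 0 := by
    have h2 := congrArg MvPowerSeries.constantCoeff h1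
    rw [map_mul, hΨ2] at h2
    have h3 : MvPowerSeries.constantCoeff (aeval Y' (hypN r g)) = constantCoeff (hypN r g) := by
      have h4 : ((MvPowerSeries.constantCoeff (σ := (σ ⊕ Fin r) ⊕ Fin r) (R := ℂ)).comp
          ((aeval Y' : MvPolynomial ((σ ⊕ Fin r) ⊕ Fin r) ℂ →ₐ[ℂ]
            MvPowerSeries ((σ ⊕ Fin r) ⊕ Fin r) ℂ) : MvPolynomial ((σ ⊕ Fin r) ⊕ Fin r) ℂ →+*
              MvPowerSeries ((σ ⊕ Fin r) ⊕ Fin r) ℂ)) =
          (constantCoeff : MvPolynomial ((σ ⊕ Fin r) ⊕ Fin r) ℂ →+* ℂ) := by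
        refine ringHom_ext (fun c => ?_) fun i => ?_
        · change MvPowerSeries.constantCoeff (aeval Y' (C c)) = constantCoeff (C c)
          rw [aeval_C, constantCoeff_C, MvPowerSeries.algebraMap_apply]
          exact MvPowerSeries.constantCoeff_C c
        · change MvPowerSeries.constantCoeff (aeval Y' (X i)) = constantCoeff (X i)
          rw [aeval_X, constantCoeff_X]
          exact hc2.1 i
      exact RingHom.congr_fun h4 _
    rw [h3, hypN, map_add, constantCoeff_rename, hg0, map_sum, Finset.sum_eq_zero, add_zero,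
      mul_zero] at h2
    · rw [← MvPowerSeries.coeff_zero_eq_constantCoeff_apply, MvPolynomial.coeff_coe] at h2
      exact h2.symm
    · intro j _
      rw [map_mul, constantCoeff_X, zero_mul]
  obtain ⟨S, hS, hZ⟩ := hind hL0 hLc
  refine (hypn σ r g hg hg0).1 ⟨S, fun p hp => ⟨(hS p hp).1, fun b hb => (hS p hp).2 b ?_⟩, ?_⟩
  · exact ub _ Ψ (κ u) _ _ hu' hN0 h1 b hb
  · rw [uz _ Ψ (κ u) _ _ hu' h1]
    exact hZ

theorem Q_rename {σ τ : Type} [Fintype σ] [Fintype τ] (e : σ ≃ τ) (f : MvPolynomial σ ℂ)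
    (h : Q f) : Q (rename e f) := by
  refine Q_equiv e.symm _ ?_
  rw [rename_rename]
  have h6 : (e.symm : τ → σ) ∘ e = id := by
    funext i
    simp
  rw [h6, rename_id_apply]
  exact h

theorem coeff_single_rename {σ τ : Type} (f : σ → τ) (hf : Function.Injective f) (i : σ)
    (F : MvPolynomial σ ℂ) :
    coeff (Finsupp.single (f i) 1) (rename f F) = coeff (Finsupp.single i 1) F := by
  rw [← coeff_rename_mapDomain f hf F (Finsupp.single i 1), Finsupp.mapDomain_single]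

theorem stq_of (tay : S_TAY) (hypn : S_HYPN) (coo : S_COO) (uz : S_UZ) (ub : S_UB) : S_STQ := by
  intro σ ρ _ _ _ g R l u y w hg hg0 hu hy hw hl hJ hR1 hgR hQ
  classical
  let e : ρ ≃ Fin (Fintype.card ρ) := Fintype.equivFin ρ
  let E : σ ⊕ ρ ≃ σ ⊕ Fin (Fintype.card ρ) := Equiv.sumCongr (Equiv.refl σ) e
  have hE : ∀ F : MvPolynomial (σ ⊕ ρ) ℂ,
      aeval (Sum.elim MvPowerSeries.X fun j => w (e.symm j)) (rename E F) =
        aeval (Sum.elim MvPowerSeries.X w) F := by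
    intro F
    rw [aeval_rename]
    congr 2
    funext i
    rcases i with i | i
    · rfl
    · change w (e.symm (e i)) = w i
      rw [Equiv.symm_apply_apply]
  have hcf : ∀ (j : Fin (Fintype.card ρ)) (F : MvPolynomial (σ ⊕ ρ) ℂ),
      coeff (Finsupp.single (Sum.inr j) 1) (rename E F) =
        coeff (Finsupp.single (Sum.inr (e.symm j)) 1) F := by
    intro j F
    rw [← coeff_single_rename E E.injective]
    congr 2
    change _ = Sum.inr (e (e.symm j))
    rw [Equiv.apply_symm_apply]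
  refine stabQ tay hypn coo uz ub σ g (Fintype.card ρ) (rename E R)
    (fun i => rename E (l (e.symm i))) u y (fun j => w (e.symm j)) hg hg0 hu hy
    (fun j => hw _) (fun i => by rw [hE]; exact hl _) ?_ (fun j => by rw [hcf]; exact hR1 _)
    (by rw [hE]; exact hgR) ?_
  · have h1 : (Matrix.of fun i j : Fin (Fintype.card ρ) =>
        coeff (Finsupp.single (Sum.inr j) 1) (rename E (l (e.symm i)))) =
        (Matrix.of fun i j : ρ => coeff (Finsupp.single (Sum.inr j) 1) (l i)).submatrix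
          e.symm e.symm := by
      ext i j
      exact hcf j _
    rw [h1, Matrix.det_submatrix_equiv_self]
    exact hJ
  · have h1 := Q_rename (Equiv.sumCongr E e) _ hQ
    refine Eq.mp (congrArg Q ?_) h1
    unfold stabL
    rw [map_add, map_sum, rename_rename]
    congr 1
    · rw [rename_rename]
      rfl
    · rw [← Equiv.sum_comp e.symm]
      refine Finset.sum_congr rfl fun i _ => ?_
      rw [map_mul, rename_X, rename_rename, rename_rename]
      congr 2
      change Sum.inr (e (e.symm i)) = _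
      rw [Equiv.apply_symm_apply]

/-- [STQ] -/
theorem stq : S_STQ := stq_of tay hypn coo uz ub

end Pool.Agent.Helper33K9.RO
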