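import Pool.Agent.Helper33K9.RO.St4

/-!
# RO [SYB]: a new root with two children
-/

set_option autoImplicit false

namespace Pool.Agent.Helper33K9.RO

open MvPolynomial

section syb
variable {σ ρ σ' ρ' : Type}

open Classical in
/-- the exponents of the new system -/
noncomputable def SybL.MM {ι ι' : Type} (M : ι → σ ⊕ ρ → ℕ) (M' : ι' → σ' ⊕ ρ' → ℕ) {r : ℕ} (a : ρ) (b : ρ')
    (m n : Fin r → ℕ) : (Unit ⊕ Fin r) ⊕ (ι ⊕ ι') → (σ ⊕ σ') ⊕ (Unit ⊕ (ρ ⊕ ρ')) → ℕ :=
  Sum.elim
    (Sum.elim (fun _ => Sum.elim (fun _ => 0) (Sum.elim (fun _ => 1) fun _ => 0))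
      fun j => Sum.elim (fun _ => 0) (Sum.elim (fun _ => 0)
        (Sum.elim (fun v => if v = a then m j else 0) fun v => if v = b then n j else 0)))
    (Sum.elim
      (fun j => Sum.elim (Sum.elim (fun x => M j (Sum.inl x)) fun _ => 0)
        (Sum.elim (fun _ => 0) (Sum.elim (fun v => M j (Sum.inr v)) fun _ => 0)))
      fun j => Sum.elim (Sum.elim (fun _ => 0) fun x => M' j (Sum.inl x))
        (Sum.elim (fun _ => 0) (Sum.elim (fun _ => 0) fun v => M' j (Sum.inr v))))

theorem SybL.prod_ite {τ κ : Type} [Fintype κ] [DecidableEq κ] (f : κ → τ) (a : κ) (k : ℕ) :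
    ∏ v, (X (f v) : MvPolynomial τ ℂ) ^ (if v = a then k else 0) = X (f a) ^ k := by
  rw [Finset.prod_eq_single a]
  · simp
  · intro v _ hv
    simp [hv]
  · intro h
    exact absurd (Finset.mem_univ a) h

theorem SybL.coeff_zero {κ τ : Type} (f : κ → τ) (P : MvPolynomial κ ℂ) (x : τ)
    (hx : ∀ y, f y ≠ x) : coeff (Finsupp.single x 1) (rename f P) = 0 := by
  refine coeff_rename_eq_zero f P _ fun u hu => ?_
  exfalso
  have h1 : (u.mapDomain f) x = 1 := by rw [hu]; simp
  rw [Finsupp.mapDomain_of_notMem_range] at h1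
  · exact absurd h1 (by norm_num)
  · rintro ⟨y, hy⟩
    exact hx y hy

theorem SybL.coeff_map {κ τ : Type} (f : κ → τ) (hf : Function.Injective f) (P : MvPolynomial κ ℂ)
    (x : κ) : coeff (Finsupp.single (f x) 1) (rename f P) = coeff (Finsupp.single x 1) P := by
  rw [← Finsupp.mapDomain_single, coeff_rename_mapDomain f hf]

theorem SybL.coeff_pow {τ : Type} (a b x : τ) (k l : ℕ) (ha : a ≠ x) (hb : b ≠ x) :
    coeff (Finsupp.single x 1) ((X a : MvPolynomial τ ℂ) ^ k * X b ^ l) = 0 := by
  classical
  rw [X_pow_eq_monomial, X_pow_eq_monomial, monomial_mul, coeff_monomial, if_neg]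
  intro h
  have h1 := DFunLike.congr_fun h x
  simp [Finsupp.single_apply, ha, hb] at h1

theorem SybL.det_block {ρ ρ' : Type} [Fintype ρ] [Fintype ρ'] [DecidableEq ρ] [DecidableEq ρ']
    (inst : DecidableEq (Unit ⊕ (ρ ⊕ ρ')))
    (A : Matrix ρ ρ ℂ) (B : Matrix ρ' ρ' ℂ) (R : Unit → ρ ⊕ ρ' → ℂ) (hA : IsUnit A.det)
    (hB : IsUnit B.det) :
    IsUnit (@Matrix.det _ inst _ ℂ _ (Matrix.fromBlocks (1 : Matrix Unit Unit ℂ) (Matrix.of R) 0
      (Matrix.fromBlocks A 0 0 B))) := by
  have hi : inst = instDecidableEqSum := Subsingleton.elim _ _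
  subst hi
  rw [Matrix.det_fromBlocks_zero₂₁, Matrix.det_fromBlocks_zero₂₁, Matrix.det_one, one_mul]
  exact hA.mul hB

theorem syb : S_SYB := by
  classical
  intro σ ρ σ' ρ' _ _ _ _ s s' h h' r m n p q D hs hs' hp hq hD hw hind
  obtain ⟨ι, hι, c, M, v, g1, g2, g3, g4, g5, g6⟩ := hs
  obtain ⟨ι', hι', c', M', v', g1', g2', g3', g4', g5', g6'⟩ := hs'
  refine ⟨(Unit ⊕ Fin r) ⊕ (ι ⊕ ι'), inferInstance,
    Sum.elim (Sum.elim (fun _ => 1) fun _ => -1) (Sum.elim c c'),
    SybL.MM M M' s.root s'.root m n,
    Sum.elim (fun _ => Sum.inl ()) (Sum.elim (fun j => Sum.inr (Sum.inl (v j)))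
      fun j => Sum.inr (Sum.inr (v' j))), ?_, ?_, ?_, ?_, ?_, ?_⟩
  · rintro ((_ | j) | (j | j))
    · simp
    · simp
    · exact g1 j
    · exact g1' j
  · rintro (_ | v₀ | v₀)
    · simp only [syB, Sum.elim_inl, Fintype.sum_sum_type, Sum.elim_inr, SybL.MM,
        Fintype.prod_sum_type, Finset.univ_unique, Finset.sum_singleton, Finset.prod_singleton,
        if_true, reduceCtorEq, if_false, Finset.sum_const_zero, add_zero, pow_zero,
        Finset.prod_const_one, one_mul, mul_one, pow_one, map_one, map_neg]
      rw [sub_eq_add_neg, ← Finset.sum_neg_distrib]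
      congr 1
      refine Finset.sum_congr rfl fun j _ => ?_
      rw [SybL.prod_ite, SybL.prod_ite]
      ring
    · simp only [syB, Sum.elim_inl, Fintype.sum_sum_type, Sum.elim_inr, SybL.MM,
        Fintype.prod_sum_type, Finset.univ_unique, Finset.sum_singleton, Finset.prod_singleton,
        reduceCtorEq, if_false, Finset.sum_const_zero, add_zero, zero_add, pow_zero,
        Finset.prod_const_one, one_mul, mul_one, Sum.inr.injEq, Sum.inl.injEq]
      rw [g2 v₀, map_sum]
      refine Finset.sum_congr rfl fun j _ => ?_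
      by_cases hj : v j = v₀
      · rw [if_pos hj, if_pos hj]
        simp only [map_mul, map_prod, map_pow, rename_X, rename_C, Fintype.prod_sum_type,
          Sum.map_inl, Sum.map_inr]
      · rw [if_neg hj, if_neg hj, map_zero]
    · simp only [syB, Sum.elim_inl, Fintype.sum_sum_type, Sum.elim_inr, SybL.MM,
        Fintype.prod_sum_type, Finset.univ_unique, Finset.sum_singleton, Finset.prod_singleton,
        reduceCtorEq, if_false, Finset.sum_const_zero, add_zero, zero_add, pow_zero,
        Finset.prod_const_one, one_mul, mul_one, Sum.inr.injEq, Sum.inl.injEq]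
      rw [g2' v₀, map_sum]
      refine Finset.sum_congr rfl fun j _ => ?_
      by_cases hj : v' j = v₀
      · rw [if_pos hj, if_pos hj]
        simp only [map_mul, map_prod, map_pow, rename_X, rename_C, Fintype.prod_sum_type,
          Sum.map_inl, Sum.map_inr]
      · rw [if_neg hj, if_neg hj, map_zero]
  · rintro ((_ | j) | (j | j))
    · simp [syB, SybL.MM, Fintype.sum_sum_type]
    · simp only [syB, Sum.elim_inl, Fintype.sum_sum_type, Sum.elim_inr, SybL.MM,
        Nat.cast_zero, mul_zero, Finset.sum_const_zero, zero_add, Nat.cast_ite, mul_ite,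
        Finset.sum_ite_eq', Finset.mem_univ, if_true]
      exact hw j
    · have h1 := g3 j
      rw [Fintype.sum_sum_type] at h1
      simp only [syB, Sum.elim_inl, Fintype.sum_sum_type, Sum.elim_inr, SybL.MM,
        Nat.cast_zero, mul_zero, Finset.sum_const_zero, zero_add, add_zero]
      rw [← h1, mul_add, Finset.mul_sum, Finset.mul_sum]
      simp only [mul_assoc]
    · have h1 := g3' j
      rw [Fintype.sum_sum_type] at h1
      simp only [syB, Sum.elim_inl, Fintype.sum_sum_type, Sum.elim_inr, SybL.MM,
        Nat.cast_zero, mul_zero, Finset.sum_const_zero, zero_add, add_zero]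
      rw [← h1, mul_add, Finset.mul_sum, Finset.mul_sum]
      simp only [mul_assoc]
  · exact hD
  · have hM : (Matrix.of fun v v' : Unit ⊕ (ρ ⊕ ρ') =>
        coeff (Finsupp.single (Sum.inr v') 1) ((syB s s' m n p q D).l v)) =
        Matrix.fromBlocks (1 : Matrix Unit Unit ℂ)
          (Matrix.of fun _ w => coeff (Finsupp.single (Sum.inr (Sum.inr w)) 1)
            ((syB s s' m n p q D).l (Sum.inl ()))) 0
          (Matrix.fromBlocks (Matrix.of fun v v' : ρ => coeff (Finsupp.single (Sum.inr v') 1) (s.l v))
            0 0 (Matrix.of fun v v' : ρ' => coeff (Finsupp.single (Sum.inr v') 1) (s'.l v))) := by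
      ext x y
      rcases x with _ | x | x <;> rcases y with _ | y | y
      · simp only [Matrix.of_apply, Matrix.fromBlocks_apply₁₁, Matrix.one_apply_eq]
        simp only [syB, Sum.elim_inl, coeff_sub, coeff_sum, coeff_X]
        rw [Finset.sum_eq_zero fun j _ => SybL.coeff_pow _ _ _ _ _ (by simp) (by simp), sub_zero]
        simp
      · rfl
      · rfl
      · simp only [Matrix.of_apply, Matrix.fromBlocks_apply₂₁, Matrix.zero_apply]
        exact SybL.coeff_zero _ _ _ (by rintro (y | y) <;> simp)
      · simp only [Matrix.of_apply, Matrix.fromBlocks_apply₂₂, Matrix.fromBlocks_apply₁₁]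
        exact SybL.coeff_map (Sum.map Sum.inl fun v => Sum.inr (Sum.inl v))
          (Sum.inl_injective.sumMap fun a b hab => by simpa using hab) _ (Sum.inr y)
      · simp only [Matrix.of_apply, Matrix.fromBlocks_apply₂₂, Matrix.fromBlocks_apply₁₂,
          Matrix.zero_apply]
        exact SybL.coeff_zero _ _ _ (by rintro (y | y) <;> simp)
      · simp only [Matrix.of_apply, Matrix.fromBlocks_apply₂₁, Matrix.zero_apply]
        exact SybL.coeff_zero _ _ _ (by rintro (y | y) <;> simp)
      · simp only [Matrix.of_apply, Matrix.fromBlocks_apply₂₂, Matrix.fromBlocks_apply₂₁,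
          Matrix.zero_apply]
        exact SybL.coeff_zero _ _ _ (by rintro (y | y) <;> simp)
      · simp only [Matrix.of_apply, Matrix.fromBlocks_apply₂₂]
        exact SybL.coeff_map (Sum.map Sum.inr fun v => Sum.inr (Sum.inr v))
          (Sum.inr_injective.sumMap fun a b hab => by simpa using hab) _ (Sum.inr y)
    rw [hM]
    exact SybL.det_block _ _ _ _ g5 g5'
  · intro g t δ ha hb
    obtain ⟨α, hα⟩ : ∃ α : Fin r → ℚ, α = fun j => g (Sum.inl (Sum.inr j)) := ⟨_, rfl⟩
    have a0 := ha (Sum.inl ())
    have b0 := hb (Sum.inr (Sum.inl ()))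
    simp only [Fintype.sum_sum_type, Sum.elim_inl, Sum.elim_inr, Finset.univ_unique,
      Finset.sum_singleton, if_true, reduceCtorEq, if_false, Finset.sum_const_zero,
      add_zero] at a0
    simp only [Fintype.sum_sum_type, Sum.elim_inl, Sum.elim_inr, Finset.univ_unique,
      Finset.sum_singleton, if_true, SybL.MM, syB, Nat.cast_zero, Nat.cast_one, mul_zero, mul_one,
      Finset.sum_const_zero, add_zero, CharP.cast_eq_zero] at b0
    have ht : t = ∑ j, α j := by
      rw [hα]
      simp only
      linarith
    have hA := g6 (fun j => g (Sum.inr (Sum.inl j))) (∑ j, α j * m j) δ (fun v₀ => by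
      have := ha (Sum.inr (Sum.inl v₀))
      simpa [Fintype.sum_sum_type] using this) (fun i => by
      rcases i with i | i
      · have := hb (Sum.inl (Sum.inl i))
        simpa [Fintype.sum_sum_type, SybL.MM, syB] using this
      · have := hb (Sum.inr (Sum.inr (Sum.inl i)))
        simp only [Fintype.sum_sum_type, Sum.elim_inl, Sum.elim_inr, Finset.univ_unique,
          Finset.sum_singleton, SybL.MM, syB, Nat.cast_zero, mul_zero,
          Finset.sum_const_zero, add_zero, zero_add, CharP.cast_eq_zero, Sum.inr.injEq,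
          reduceCtorEq, if_false, Nat.cast_ite, mul_ite] at this
        simp only [Sum.inr.injEq, Sum.elim_inr]
        by_cases hi : i = s.root
        · simp only [hi, if_true] at this ⊢
          rw [hα]
          linarith
        · simp only [hi, if_false, Finset.sum_const_zero] at this ⊢
          linarith)
    have hB := g6' (fun j => g (Sum.inr (Sum.inr j))) (∑ j, α j * n j) δ (fun v₀ => by
      have := ha (Sum.inr (Sum.inr v₀))
      simpa [Fintype.sum_sum_type] using this) (fun i => by
      rcases i with i | i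
      · have := hb (Sum.inl (Sum.inr i))
        simpa [Fintype.sum_sum_type, SybL.MM, syB] using this
      · have := hb (Sum.inr (Sum.inr (Sum.inr i)))
        simp only [Fintype.sum_sum_type, Sum.elim_inl, Sum.elim_inr, Finset.univ_unique,
          Finset.sum_singleton, SybL.MM, syB, Nat.cast_zero, mul_zero,
          Finset.sum_const_zero, add_zero, zero_add, CharP.cast_eq_zero, Sum.inr.injEq,
          reduceCtorEq, if_false, Nat.cast_ite, mul_ite] at this
        simp only [Sum.inr.injEq, Sum.elim_inr]
        by_cases hi : i = s'.root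
        · simp only [hi, if_true] at this ⊢
          rw [hα]
          linarith
        · simp only [hi, if_false, Finset.sum_const_zero] at this ⊢
          linarith)
    refine ⟨fun hδ => ?_, fun hδ => ?_⟩
    · obtain ⟨h1, h2⟩ := hA.1 hδ
      obtain ⟨h3, h4⟩ := hB.1 hδ
      have h5 := hind α h1 h3
      have h6 : t = 0 := by
        rw [ht]
        exact Finset.sum_eq_zero fun j _ => h5 j
      refine ⟨h6, ?_⟩
      rintro ((_ | j) | (j | j))
      · have h7 : ∑ j, g (Sum.inl (Sum.inr j)) = 0 := by
          have := ht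
          rw [h6, hα] at this
          exact this.symm
        rw [h7, add_zero] at a0
        exact a0
      · have := h5 j
        rw [hα] at this
        exact this
      · exact h2 j
      · exact h4 j
    · obtain ⟨h1, h2⟩ := hA.2 hδ
      obtain ⟨h3, h4⟩ := hB.2 hδ
      have hp' : (0:ℚ) < p := by exact_mod_cast hp
      have hq' : (0:ℚ) < q := by exact_mod_cast hq
      have hD' : (0:ℚ) < D := by exact_mod_cast hD
      have hwa : (0:ℚ) < s.wt (Sum.inr s.root) := by exact_mod_cast g4
      have hwb : (0:ℚ) < s'.wt (Sum.inr s'.root) := by exact_mod_cast g4'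
      have key : (D : ℚ) * t = p * s.wt (Sum.inr s.root) * ∑ j, α j * m j +
          q * s'.wt (Sum.inr s'.root) * ∑ j, α j * n j := by
        rw [ht, Finset.mul_sum, Finset.mul_sum, Finset.mul_sum, ← Finset.sum_add_distrib]
        refine Finset.sum_congr rfl fun j _ => ?_
        have h5 : (p : ℚ) * s.wt (Sum.inr s.root) * (m j : ℚ) +
            q * s'.wt (Sum.inr s'.root) * (n j : ℚ) = D := by exact_mod_cast hw j
        rw [← h5]
        ring
      have k1 : (p : ℚ) * s.wt (Sum.inr s.root) * ∑ j, α j * m j ≤ 0 :=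
        mul_nonpos_of_nonneg_of_nonpos (by positivity) h1
      have k2 : (q : ℚ) * s'.wt (Sum.inr s'.root) * ∑ j, α j * n j ≤ 0 :=
        mul_nonpos_of_nonneg_of_nonpos (by positivity) h3
      refine ⟨?_, fun h0 => ?_⟩
      · by_contra hcon
        push Not at hcon
        have := mul_pos hD' hcon
        linarith
      · rw [h0, mul_zero] at key
        have e1 : (p : ℚ) * s.wt (Sum.inr s.root) * ∑ j, α j * m j = 0 := by linarith
        have e2 : (q : ℚ) * s'.wt (Sum.inr s'.root) * ∑ j, α j * n j = 0 := by linarith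
        have e3 : ∑ j, α j * m j = 0 := by
          rcases mul_eq_zero.1 e1 with e | e
          · exact absurd e (by positivity)
          · exact e
        have e4 : ∑ j, α j * n j = 0 := by
          rcases mul_eq_zero.1 e2 with e | e
          · exact absurd e (by positivity)
          · exact e
        rintro (_ | x | x)
        · rfl
        · exact h2 e3 x
        · exact h4 e4 x

end syb

end Pool.Agent.Helper33K9.RO
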