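import Pool.Agent.Helper33K9.RO.St4

set_option autoImplicit false

/-! # [SYL] leaves -/

namespace Pool.Agent.Helper33K9.RO

open MvPolynomial

namespace SylL

theorem prod_X {τ : Type} [Fintype τ] (M : τ → ℕ) :
    (∏ i, X i ^ M i : MvPolynomial τ ℂ) =
      monomial (Finsupp.equivFunOnFinite.symm M) (1 : ℂ) := by
  rw [monomial_eq, C_1, one_mul, Finsupp.prod_fintype _ _ (fun i => pow_zero _)]
  rfl

theorem coeff_prod_eq_zero {τ : Type} [Fintype τ] (M : τ → ℕ) (a b : τ)
    (h : M b ≠ (Finsupp.single a 1 : τ →₀ ℕ) b) :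
    coeff (Finsupp.single a 1) (∏ i, X i ^ M i : MvPolynomial τ ℂ) = 0 := by
  classical
  rw [prod_X, coeff_monomial, if_neg]
  intro h1
  apply h
  rw [← h1]
  rfl

theorem det_unit (inst : DecidableEq Unit) (A : Matrix Unit Unit ℂ) :
    @Matrix.det Unit inst _ ℂ _ A = A () () := Matrix.det_unique A

end SylL

open SylL in
theorem syl : S_SYL := by
  classical
  intro σ _ r m w D hl hD hw
  refine ⟨Option (Fin r), inferInstance, fun j => if j = none then 1 else -1,
    fun j => Sum.elim (fun i => Option.elim j 0 fun j => m j i) fun _ => Option.elim j 1 fun _ => 0,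
    fun _ => (), ?_, ?_, ?_, hD, ?_, ?_⟩
  · intro j
    dsimp only
    split_ifs
    · exact one_ne_zero
    · exact neg_ne_zero.2 one_ne_zero
  · intro v₀
    rw [Fintype.sum_option]
    simp only [if_true, Option.elim_none, Option.elim_some, Fintype.prod_sum_type, Sum.elim_inl,
      Sum.elim_inr, pow_zero, Finset.prod_const_one, one_mul, map_one, mul_one,
      reduceCtorEq, if_false]
    change X (Sum.inr ()) - ∑ j, ∏ i, X (Sum.inl i) ^ m j i = _
    rw [sub_eq_add_neg, ← Finset.sum_neg_distrib]
    simp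
  · intro j
    rw [Fintype.sum_sum_type]
    rcases j with _ | j
    · simp [syL]
    · simp only [syL, Sum.elim_inl, Sum.elim_inr, Option.elim_some]
      rw [hw j]
      simp
  · rw [det_unit]
    change IsUnit (coeff (Finsupp.single (Sum.inr ()) 1)
      (X (Sum.inr ()) - ∑ j, ∏ i, X (Sum.inl i) ^ m j i : MvPolynomial (σ ⊕ Unit) ℂ))
    have h1 : ∀ j, coeff (Finsupp.single (Sum.inr ()) 1)
        (∏ i, X (Sum.inl i) ^ m j i : MvPolynomial (σ ⊕ Unit) ℂ) = 0 := by
      intro j
      have h2 := coeff_prod_eq_zero (Sum.elim (m j) fun _ => 0 : σ ⊕ Unit → ℕ) (Sum.inr ())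
        (Sum.inr ()) (by simp)
      rw [Fintype.prod_sum_type] at h2
      simpa using h2
    rw [coeff_sub, coeff_X, coeff_sum, Finset.sum_eq_zero fun j _ => h1 j, sub_zero,
      if_pos rfl]
    exact isUnit_one
  · intro g t δ h1 h2
    have h3 : ∀ j, g (some j) = 0 := by
      rw [Fintype.linearIndependent_iff] at hl
      refine hl (fun j => g (some j)) ?_
      funext i
      have h4 := h2 (Sum.inl i)
      rw [Fintype.sum_option] at h4
      simpa [Finset.sum_apply] using h4
    have h4 : g none = 0 := by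
      have h5 := h1 ()
      rw [Fintype.sum_option] at h5
      simpa [h3] using h5
    have h5 : t = 0 := by
      have h6 := h2 (Sum.inr ())
      rw [Fintype.sum_option] at h6
      simpa [h3, h4, syL] using h6
    refine ⟨fun _ => ⟨h5, fun j => ?_⟩, fun _ => ⟨h5.le, fun _ _ => rfl⟩⟩
    rcases j with _ | j
    · exact h4
    · exact h3 j

end Pool.Agent.Helper33K9.RO
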