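import Pool.Agent.Helper33K9.RO.Syl

set_option autoImplicit false

/-! # [SYU] a new root with one child -/

namespace Pool.Agent.Helper33K9.RO

open MvPolynomial

namespace SyuL

theorem det_inst {n : Type} [Fintype n] (i1 i2 : DecidableEq n) (A : Matrix n n ℂ) :
    @Matrix.det n i1 _ ℂ _ A = @Matrix.det n i2 _ ℂ _ A := by
  rw [Subsingleton.elim i1 i2]

theorem coeff_single_ren {σ τ : Type} (f : σ → τ) (hf : Function.Injective f) (i : σ)
    (F : MvPolynomial σ ℂ) :
    coeff (Finsupp.single (f i) 1) (rename f F) = coeff (Finsupp.single i 1) F := by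
  rw [← coeff_rename_mapDomain f hf F (Finsupp.single i 1), Finsupp.mapDomain_single]

theorem coeff_single_out {σ τ : Type} (f : σ → τ) (b : τ) (hb : b ∉ Set.range f)
    (F : MvPolynomial σ ℂ) : coeff (Finsupp.single b 1) (rename f F) = 0 := by
  refine coeff_rename_eq_zero f F _ fun u hu => ?_
  exfalso
  have h1 := Finsupp.mapDomain_notin_range (f := f) u b hb
  rw [hu, Finsupp.single_eq_same] at h1
  exact one_ne_zero h1

theorem coeff_X_pow_ne {τ : Type} (a b : τ) (hab : a ≠ b) (n : ℕ) :
    coeff (Finsupp.single b 1) (X a ^ n : MvPolynomial τ ℂ) = 0 := by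
  classical
  rw [coeff_X_pow, if_neg]
  intro h
  have h1 := congrArg (fun f => f b) h
  simp [hab] at h1

end SyuL

open SyuL in
theorem syu : S_SYU := by
  classical
  intro σ ρ _ _ s h r m D hs hD hwt hα
  obtain ⟨ι, _, c, M, v, hc, hl, hw, hroot, hdet, hrel⟩ := hs
  have hprod : ∀ k : ι, (∏ i, X i ^ (Sum.elim (fun i => M k (Sum.inl i))
      (Sum.elim (fun _ => 0) fun v => M k (Sum.inr v)) : σ ⊕ (Unit ⊕ ρ) → ℕ) i :
        MvPolynomial (σ ⊕ (Unit ⊕ ρ)) ℂ) =
      rename (Sum.map id Sum.inr) (∏ i, X i ^ M k i) := by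
    intro k
    rw [map_prod, Fintype.prod_sum_type, Fintype.prod_sum_type, Fintype.prod_sum_type]
    simp only [Sum.elim_inl, Sum.elim_inr, pow_zero, Finset.prod_const_one, one_mul, map_pow,
      rename_X, Sum.map_inl, Sum.map_inr, id]
  refine ⟨Option (Fin r) ⊕ ι, inferInstance,
    Sum.elim (fun j => if j = none then 1 else -1) c,
    Sum.elim (fun j => Sum.elim (fun _ => 0) (Sum.elim (fun _ => Option.elim j 1 fun _ => 0)
        fun v => Option.elim j 0 fun j => if v = s.root then m j else 0))
      fun k => Sum.elim (fun i => M k (Sum.inl i)) (Sum.elim (fun _ => 0) fun v => M k (Sum.inr v)),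
    Sum.elim (fun _ => Sum.inl ()) fun k => Sum.inr (v k), ?_, ?_, ?_, hD, ?_, ?_⟩
  · rintro (j | k)
    · dsimp only [Sum.elim_inl]
      split_ifs
      · exact one_ne_zero
      · exact neg_ne_zero.2 one_ne_zero
    · exact hc k
  · have hpw : ∀ j : Fin r, (∏ v : ρ, X (Sum.inr (Sum.inr v)) ^ (if v = s.root then m j else 0) :
        MvPolynomial (σ ⊕ (Unit ⊕ ρ)) ℂ) = X (Sum.inr (Sum.inr s.root)) ^ m j := by
      intro j
      rw [Finset.prod_eq_single s.root]
      · rw [if_pos rfl]
      · intro v _ hv
        rw [if_neg hv, pow_zero]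
      · intro h1
        exact absurd (Finset.mem_univ _) h1
    rintro (v₀ | v₀)
    · rw [Fintype.sum_sum_type, Fintype.sum_option]
      simp only [Sum.elim_inl, Sum.elim_inr, if_true, Option.elim_none, Option.elim_some,
        Fintype.prod_sum_type, pow_zero, Finset.prod_const_one, one_mul, map_one, mul_one,
        reduceCtorEq, if_false, Finset.sum_const_zero, add_zero, hpw]
      change X (Sum.inr (Sum.inl ())) - ∑ j, X (Sum.inr (Sum.inr s.root)) ^ m j = _
      rw [sub_eq_add_neg, ← Finset.sum_neg_distrib]
      simp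
    · rw [Fintype.sum_sum_type]
      simp only [Sum.elim_inl, Sum.elim_inr, reduceCtorEq, if_false, Finset.sum_const_zero,
        zero_add, Sum.inr.injEq, hprod]
      change rename (Sum.map id Sum.inr) (s.l v₀) = _
      rw [hl v₀, map_sum]
      refine Finset.sum_congr rfl fun k _ => ?_
      split_ifs
      · rw [map_mul, rename_C]
      · rw [map_zero]
  · rintro (j | k)
    · rcases j with _ | j
      · simp [Fintype.sum_sum_type, syU]
      · simp only [Fintype.sum_sum_type, syU, Sum.elim_inl, Sum.elim_inr, Option.elim_some,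
          Nat.cast_zero, mul_zero, Finset.sum_const_zero, zero_add]
        rw [Finset.sum_eq_single s.root]
        · rw [if_pos rfl]
          exact hwt j
        · intro v _ hv
          rw [if_neg hv, Nat.cast_zero, mul_zero]
        · intro h1
          exact absurd (Finset.mem_univ _) h1
    · have h1 := hw k
      rw [Fintype.sum_sum_type] at h1
      simp only [Fintype.sum_sum_type, syU, Sum.elim_inl, Sum.elim_inr, Nat.cast_zero, mul_zero,
        Finset.sum_const_zero, zero_add]
      exact h1
  · rw [det_inst _ (instDecidableEqSum)]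
    have h1 : (Matrix.of fun v v' : Unit ⊕ ρ =>
        coeff (Finsupp.single (Sum.inr v') 1) ((syU s m D).l v)) =
        Matrix.fromBlocks (1 : Matrix Unit Unit ℂ)
          (Matrix.of fun (_ : Unit) (v' : ρ) =>
            coeff (Finsupp.single (Sum.inr (Sum.inr v')) 1) ((syU s m D).l (Sum.inl ())))
          0 (Matrix.of fun v v' : ρ => coeff (Finsupp.single (Sum.inr v') 1) (s.l v)) := by
      ext v₁ v₂
      rcases v₁ with v₁ | v₁ <;> rcases v₂ with v₂ | v₂
      · change coeff (Finsupp.single (Sum.inr (Sum.inl ())) 1) (X (Sum.inr (Sum.inl ())) -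
          ∑ j, X (Sum.inr (Sum.inr s.root)) ^ m j : MvPolynomial (σ ⊕ (Unit ⊕ ρ)) ℂ) = 1
        rw [coeff_sub, coeff_X, if_pos rfl, coeff_sum, Finset.sum_eq_zero, sub_zero]
        intro j _
        exact coeff_X_pow_ne _ _ (by simp) _
      · rfl
      · change coeff (Finsupp.single (Sum.inr (Sum.inl v₂)) 1)
          (rename (Sum.map id Sum.inr) (s.l v₁)) = 0
        refine coeff_single_out _ _ ?_ _
        rintro ⟨i | i, hi⟩ <;> simp at hi
      · change coeff (Finsupp.single (Sum.inr (Sum.inr v₂)) 1)
          (rename (Sum.map id Sum.inr) (s.l v₁)) = coeff (Finsupp.single (Sum.inr v₂) 1) (s.l v₁)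
        exact coeff_single_ren (Sum.map id Sum.inr)
          (Function.Injective.sumMap Function.injective_id Sum.inr_injective) (Sum.inr v₂) _
    rw [h1, Matrix.det_fromBlocks_zero₂₁, Matrix.det_one, one_mul]
    rw [det_inst _ (fun a b => Classical.propDecidable (a = b))]
    exact hdet
  · intro g t δ h1 h2
    set α : Fin r → ℚ := fun j => g (Sum.inl (some j)) with hαd
    have h3 : g (Sum.inl none) + ∑ j, α j = 0 := by
      have h4 := h1 (Sum.inl ())
      rw [Fintype.sum_sum_type, Fintype.sum_option] at h4
      simpa using h4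
    have h4 : t = ∑ j, α j := by
      have h5 := h2 (Sum.inr (Sum.inl ()))
      rw [Fintype.sum_sum_type, Fintype.sum_option] at h5
      simp only [Sum.elim_inl, Sum.elim_inr, Option.elim_none, Option.elim_some, Nat.cast_zero,
        mul_zero, Finset.sum_const_zero, add_zero, Nat.cast_one, mul_one] at h5
      rw [if_pos (show (Sum.inr (Sum.inl ()) : σ ⊕ (Unit ⊕ ρ)) = Sum.inr (syU s m D).root
        from rfl)] at h5
      linarith
    have h5 := hrel (fun k => g (Sum.inr k)) (∑ j, α j * m j) δ (by
      intro v₀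
      have h6 := h1 (Sum.inr v₀)
      rw [Fintype.sum_sum_type] at h6
      simpa using h6) (by
      rintro (i | v₁)
      · have h6 := h2 (Sum.inl i)
        rw [Fintype.sum_sum_type] at h6
        simpa using h6
      · have h6 := h2 (Sum.inr (Sum.inr v₁))
        rw [Fintype.sum_sum_type, Fintype.sum_option] at h6
        simp only [Sum.elim_inl, Sum.elim_inr, Option.elim_none, Option.elim_some, Nat.cast_zero,
          mul_zero, zero_add] at h6
        rw [if_neg (show ¬ ((Sum.inr (Sum.inr v₁) : σ ⊕ (Unit ⊕ ρ)) =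
          Sum.inr (syU s m D).root) from fun h8 => by
              have h9 := Sum.inr_injective h8
              change (Sum.inr v₁ : Unit ⊕ ρ) = Sum.inl () at h9
              exact absurd h9 (by simp)), add_zero] at h6
        by_cases h9 : v₁ = s.root
        · rw [if_pos (congrArg Sum.inr h9)]
          simp only [if_pos h9] at h6
          rw [← h6]
          simp only [Sum.elim_inr]
          ring
        · rw [if_neg fun h10 => h9 (Sum.inr_injective h10)]
          simp only [if_neg h9, Nat.cast_zero, mul_zero, Finset.sum_const_zero, zero_add] at h6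
          simp only [Sum.elim_inr, add_zero]
          exact h6)
    have hwr : (0 : ℚ) < s.wt (Sum.inr s.root) := by exact_mod_cast hroot
    have hDQ : (0 : ℚ) < D := by exact_mod_cast hD
    have h6 : (D : ℚ) * ∑ j, α j = s.wt (Sum.inr s.root) * ∑ j, α j * m j := by
      rw [Finset.mul_sum, Finset.mul_sum]
      refine Finset.sum_congr rfl fun j _ => ?_
      have h7 : (s.wt (Sum.inr s.root) : ℚ) * m j = D := by exact_mod_cast hwt j
      rw [← h7]
      ring
    refine ⟨fun hδ => ?_, fun hδ => ?_⟩
    · obtain ⟨h7, h8⟩ := h5.1 hδ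
      have h9 := hα α h7
      have h10 : ∑ j, α j = 0 := Finset.sum_eq_zero fun j _ => h9 j
      refine ⟨by rw [h4, h10], ?_⟩
      rintro ((_ | j) | k)
      · rw [h10, add_zero] at h3
        exact h3
      · exact h9 j
      · exact h8 k
    · obtain ⟨h7, h8⟩ := h5.2 hδ
      have h9 : (D : ℚ) * ∑ j, α j ≤ 0 := by
        rw [h6]
        exact mul_nonpos_of_nonneg_of_nonpos hwr.le h7
      have h10 : ∑ j, α j ≤ 0 := by
        by_contra hcon
        push Not at hcon
        exact absurd h9 (not_le.2 (mul_pos hDQ hcon))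
      refine ⟨by rw [h4]; exact h10, fun ht => ?_⟩
      rw [h4] at ht
      rw [ht, mul_zero] at h6
      have h11 : ∑ j, α j * m j = 0 := by
        rcases mul_eq_zero.1 h6.symm with h12 | h12
        · exact absurd h12 hwr.ne'
        · exact h12
      rintro (_ | v₁)
      · rfl
      · exact h8 h11 v₁

end Pool.Agent.Helper33K9.RO
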