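import Pool.Agent.Helper33K9.RO.St4

set_option autoImplicit false
set_option linter.unusedSectionVars false
set_option linter.unusedVariables false

/-! # The poles of the specialisation of a rational power series -/

namespace Pool.Agent.Helper33K9.RO

open Pool.Agent.W428.MOT Pool.Agent.TH192.MT Pool.Agent.TH192.MU

namespace ToprL

/-! ### sequences with a vanishing difference are polynomials -/

theorem choose_poly (k : ℕ) :
    ∃ P : Polynomial ℂ, ∀ n : ℕ, P.eval (n : ℂ) = (n.choose k : ℂ) := by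
  refine ⟨Polynomial.C ((k.factorial : ℂ)⁻¹) * descPochhammer ℂ k, fun n => ?_⟩
  have hk : (k.factorial : ℂ) ≠ 0 := by exact_mod_cast k.factorial_ne_zero
  rw [Polynomial.eval_mul, Polynomial.eval_C, descPochhammer_eval_eq_descFactorial,
    Nat.descFactorial_eq_factorial_mul_choose]
  push_cast
  field_simp

theorem iter_vanish (f : ℕ → ℂ) (k : ℕ) (h : ∀ n, (fwdDiff 1)^[k] f n = 0) (j : ℕ) (hj : k ≤ j) :
    ∀ n, (fwdDiff 1)^[j] f n = 0 := by
  obtain ⟨i, rfl⟩ := Nat.exists_eq_add_of_le hj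
  induction i with
  | zero => exact h
  | succ i ih =>
    intro n
    rw [← add_assoc, Function.iterate_succ_apply']
    show (fwdDiff 1)^[k + i] f (n + 1) - (fwdDiff 1)^[k + i] f n = 0
    rw [ih (Nat.le_add_right _ _), ih (Nat.le_add_right _ _), sub_zero]

theorem poly_of_diff (f : ℕ → ℂ) (k : ℕ) (h : ∀ n, (fwdDiff 1)^[k] f n = 0) :
    ∃ P : Polynomial ℂ, ∀ n : ℕ, P.eval (n : ℂ) = f n := by
  choose B hB using choose_poly
  refine ⟨∑ j ∈ Finset.range k, Polynomial.C ((fwdDiff 1)^[j] f 0) * B j, fun n => ?_⟩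
  have h1 := shift_eq_sum_fwdDiff_iter (1 : ℕ) f n 0
  rw [zero_add, smul_eq_mul, mul_one] at h1
  rw [h1, Polynomial.eval_finsetSum]
  have h2 : ∑ j ∈ Finset.range k, (Polynomial.C ((fwdDiff 1)^[j] f 0) * B j).eval (n : ℂ) =
      ∑ j ∈ Finset.range (k + (n + 1)), (Polynomial.C ((fwdDiff 1)^[j] f 0) * B j).eval (n : ℂ) := by
    refine Finset.sum_subset (Finset.range_mono (Nat.le_add_right _ _)) fun j _ hj => ?_
    rw [Finset.mem_range, not_lt] at hj
    rw [iter_vanish f k h j hj, Polynomial.C_0, zero_mul, Polynomial.eval_zero]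
  have h3 : ∑ j ∈ Finset.range (n + 1), n.choose j • (fwdDiff 1)^[j] f 0 =
      ∑ j ∈ Finset.range (k + (n + 1)), n.choose j • (fwdDiff 1)^[j] f 0 := by
    refine Finset.sum_subset (Finset.range_mono (Nat.le_add_left _ _)) fun j _ hj => ?_
    rw [Finset.mem_range, not_lt] at hj
    rw [Nat.choose_eq_zero_of_lt (by omega), zero_smul]
  rw [h2, h3]
  refine Finset.sum_congr rfl fun j _ => ?_
  rw [Polynomial.eval_mul, Polynomial.eval_C, hB, nsmul_eq_mul, mul_comm]

/-! ### values in the fraction field -/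

section val

variable {R : Type} [CommRing R] [IsDomain R]

def V (ε : R →+* ℂ) (r : FractionRing R) (c : ℂ) : Prop :=
  ∃ x y : R, r * algebraMap R (FractionRing R) y = algebraMap R (FractionRing R) x ∧ ε y ≠ 0 ∧
    ε x = c * ε y

variable {ε : R →+* ℂ}

theorem V.sub {r r' : FractionRing R} {c c' : ℂ} (h : V ε r c) (h' : V ε r' c') :
    V ε (r - r') (c - c') := by
  obtain ⟨x, y, h1, h2, h3⟩ := h
  obtain ⟨x', y', h1', h2', h3'⟩ := h'
  refine ⟨x * y' - x' * y, y * y', ?_, ?_, ?_⟩
  · rw [map_mul, map_sub, map_mul, map_mul, ← h1, ← h1']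
    ring
  · rw [map_mul]
    exact mul_ne_zero h2 h2'
  · rw [map_sub, map_mul, map_mul, map_mul, h3, h3']
    ring

theorem V.uniq {r : FractionRing R} {c c' : ℂ} (h : V ε r c) (h' : V ε r c') : c = c' := by
  obtain ⟨x, y, h1, h2, h3⟩ := h
  obtain ⟨x', y', h1', h2', h3'⟩ := h'
  have h4 : algebraMap R (FractionRing R) (x * y') = algebraMap R (FractionRing R) (x' * y) := by
    rw [map_mul, map_mul, ← h1, ← h1']
    ring
  have h5 : x * y' = x' * y := IsFractionRing.injective R (FractionRing R) h4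
  have h6 := congrArg ε h5
  rw [map_mul, map_mul, h3, h3'] at h6
  have h7 : (ε y * ε y') * (c - c') = 0 := by linear_combination h6
  exact sub_eq_zero.1 ((mul_eq_zero.1 h7).resolve_left (mul_ne_zero h2 h2'))

theorem V_coe (x : R) : V ε (algebraMap R (FractionRing R) x) (ε x) :=
  ⟨x, 1, by rw [map_one, mul_one], by rw [map_one]; exact one_ne_zero, by rw [map_one, mul_one]⟩

theorem V_iter (r : ℕ → FractionRing R) (c : ℕ → ℂ) (h : ∀ n, V ε (r n) (c n)) (k : ℕ) :
    ∀ n, V ε ((fwdDiff 1)^[k] r n) ((fwdDiff 1)^[k] c n) := by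
  induction k generalizing r c with
  | zero => exact h
  | succ k ih =>
    intro n
    rw [Function.iterate_succ_apply, Function.iterate_succ_apply]
    exact ih _ _ (fun n => (h (n + 1)).sub (h n)) n

end val

/-! ### differences of `N (v ^ s)` -/

section diff

variable {R : Type} [CommRing R]

theorem shift_poly (v : R) (N : Polynomial R) :
    ∃ N' : Polynomial R, ∀ τ : R, N.eval (v * τ) - N.eval τ = (1 - v) * N'.eval τ := by
  induction N using Polynomial.induction_on' with
  | add p q hp hq =>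
    obtain ⟨p', hp'⟩ := hp
    obtain ⟨q', hq'⟩ := hq
    refine ⟨p' + q', fun τ => ?_⟩
    rw [Polynomial.eval_add, Polynomial.eval_add, Polynomial.eval_add, mul_add, ← hp', ← hq']
    ring
  | monomial n a =>
    refine ⟨Polynomial.monomial n (-(a * ∑ i ∈ Finset.range n, v ^ i)), fun τ => ?_⟩
    have h := mul_neg_geom_sum v n
    rw [Polynomial.eval_monomial, Polynomial.eval_monomial, Polynomial.eval_monomial, mul_pow]
    linear_combination (a * τ ^ n) * h

theorem iter_eval (v : R) (k : ℕ) : ∀ (N : Polynomial R) (s : ℕ), ∃ N' : Polynomial R, ∀ n : ℕ,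
    (fwdDiff 1)^[k] (fun n : ℕ => N.eval (v ^ (s + n))) n = (1 - v) ^ k * N'.eval (v ^ (s + n)) := by
  induction k with
  | zero => exact fun N s => ⟨N, fun n => by rw [pow_zero, one_mul]; rfl⟩
  | succ k ih =>
    intro N s
    obtain ⟨N₁, hN₁⟩ := shift_poly v N
    obtain ⟨N₂, hN₂⟩ := ih N₁ s
    refine ⟨N₂, fun n => ?_⟩
    rw [Function.iterate_succ_apply]
    have h1 : (fwdDiff 1) (fun n : ℕ => N.eval (v ^ (s + n))) =
        (1 - v) • fun n : ℕ => N₁.eval (v ^ (s + n)) := by
      funext n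
      show N.eval (v ^ (s + (n + 1))) - N.eval (v ^ (s + n)) = (1 - v) * N₁.eval (v ^ (s + n))
      rw [← hN₁, ← pow_succ', add_assoc]
    rw [h1, fwdDiff_iter_const_smul, Pi.smul_apply, hN₂, smul_eq_mul, pow_succ]
    ring

theorem iter_map {A B : Type} [AddCommGroup A] [AddCommGroup B] (φ : A →+ B) (k : ℕ) :
    ∀ (f : ℕ → A) (n : ℕ), (fwdDiff 1)^[k] (fun n => φ (f n)) n = φ ((fwdDiff 1)^[k] f n) := by
  induction k with
  | zero => exact fun f n => rfl
  | succ k ih =>
    intro f n
    have h : fwdDiff 1 (fun n => φ (f n)) = fun n => φ (fwdDiff 1 f n) := by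
      funext n
      show φ (f (n + 1)) - φ (f n) = φ (f (n + 1) - f n)
      rw [map_sub]
    rw [Function.iterate_succ_apply, Function.iterate_succ_apply, ← ih, h]

end diff

/-! ### the denominators -/

/-- the product of the `1 - u ^ a T ^ b` -/
noncomputable def DD {R : Type} [CommRing R] (u : Rˣ) (I : List (ℤ × ℤ)) : Polynomial R :=
  (I.map fun p => 1 - Polynomial.C ((u ^ p.1 : Rˣ) : R) * Polynomial.X ^ p.2.toNat).prod

theorem ratRing_den {S : Set (ℤ × ℤ)} (hS : ∀ p ∈ S, 0 < p.2) {Z : PowerSeries (MK ℂ)}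
    (hZ : Z ∈ ratRing ℂ S) : ∃ (I : List (ℤ × ℤ)) (N : Polynomial (MK ℂ)), (∀ p ∈ I, p ∈ S) ∧
      (DD (Lu ℂ) I : PowerSeries (MK ℂ)) * Z = (N : PowerSeries (MK ℂ)) := by
  unfold ratRing at hZ
  induction hZ using Algebra.adjoin_induction with
  | mem x hx =>
    rcases hx with rfl | ⟨p, hp, rfl⟩
    · refine ⟨[], Polynomial.X, by simp, ?_⟩
      rw [DD, List.map_nil, List.prod_nil, Polynomial.coe_one, one_mul, Polynomial.coe_X]
    · refine ⟨[p], 1, by simpa using hp, ?_⟩
      rw [DD, List.map_singleton, List.prod_singleton, Polynomial.coe_one, Polynomial.coe_sub,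
        Polynomial.coe_one, Polynomial.coe_mul, Polynomial.coe_C, Polynomial.coe_pow,
        Polynomial.coe_X, geo]
      refine PowerSeries.mul_invOfUnit _ _ ?_
      have hb : p.2.toNat ≠ 0 := by have := hS p hp; omega
      rw [map_sub, map_mul, map_pow, PowerSeries.constantCoeff_X, zero_pow hb, mul_zero, sub_zero,
        map_one, Units.val_one]
  | algebraMap r =>
    refine ⟨[], Polynomial.C r, by simp, ?_⟩
    rw [DD, List.map_nil, List.prod_nil, Polynomial.coe_one, one_mul, Polynomial.coe_C]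
    rfl
  | add x y _ _ hx hy =>
    obtain ⟨I, N, h1, h2⟩ := hx
    obtain ⟨I', N', h1', h2'⟩ := hy
    refine ⟨I ++ I', DD (Lu ℂ) I' * N + DD (Lu ℂ) I * N', fun p hp => ?_, ?_⟩
    · rcases List.mem_append.1 hp with h | h
      · exact h1 p h
      · exact h1' p h
    · have h3 : DD (Lu ℂ) (I ++ I') = DD (Lu ℂ) I * DD (Lu ℂ) I' := by
        rw [DD, DD, DD, List.map_append, List.prod_append]
      rw [h3, Polynomial.coe_mul, Polynomial.coe_add, Polynomial.coe_mul, Polynomial.coe_mul,
        ← h2, ← h2']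
      ring
  | mul x y _ _ hx hy =>
    obtain ⟨I, N, h1, h2⟩ := hx
    obtain ⟨I', N', h1', h2'⟩ := hy
    refine ⟨I ++ I', N * N', fun p hp => ?_, ?_⟩
    · rcases List.mem_append.1 hp with h | h
      · exact h1 p h
      · exact h1' p h
    · have h3 : DD (Lu ℂ) (I ++ I') = DD (Lu ℂ) I * DD (Lu ℂ) I' := by
        rw [DD, DD, DD, List.map_append, List.prod_append]
      rw [h3, Polynomial.coe_mul, Polynomial.coe_mul, ← h2, ← h2']
      ring

theorem map_DD {R R' : Type} [CommRing R] [CommRing R'] (u : Rˣ) (E : R →+* R')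
    (I : List (ℤ × ℤ)) : (DD u I).map E = DD (Units.map (E : R →* R') u) I := by
  rw [DD, DD, ← Polynomial.coe_mapRingHom, map_list_prod, List.map_map]
  congr 1
  refine List.map_congr_left fun p _ => ?_
  rw [Function.comp_apply, Polynomial.coe_mapRingHom, Polynomial.map_sub, Polynomial.map_one,
    Polynomial.map_mul, Polynomial.map_C, Polynomial.map_pow, Polynomial.map_X, ← map_zpow]
  rfl

/-- the polynomial `∏ (b s - a)` -/
noncomputable def pi (I : List (ℤ × ℤ)) : Polynomial ℂ :=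
  (I.map fun p => Polynomial.C (p.2 : ℂ) * Polynomial.X - Polynomial.C (p.1 : ℂ)).prod

theorem eval_DD {R : Type} [CommRing R] [IsDomain R] (u : Rˣ) (ε : R →+* ℂ) (h1 : ε (u : R) = 1)
    (I : List (ℤ × ℤ)) (s : ℕ) (hI : ∀ p ∈ I, 0 < p.2 ∧ 0 < p.2 * s - p.1) :
    (pi I).eval (s : ℂ) ≠ 0 ∧ ∃ G : R, (DD u I).eval (((u⁻¹) ^ s : Rˣ) : R) =
      (1 - ((u⁻¹ : Rˣ) : R)) ^ I.length * G ∧ ε G = (pi I).eval (s : ℂ) := by
  induction I with
  | nil =>
    refine ⟨?_, 1, ?_, ?_⟩
    · rw [pi, List.map_nil, List.prod_nil, Polynomial.eval_one]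
      exact one_ne_zero
    · rw [DD, List.map_nil, List.prod_nil, Polynomial.eval_one, List.length_nil, pow_zero, one_mul]
    · rw [pi, List.map_nil, List.prod_nil, Polynomial.eval_one, map_one]
  | cons p I ih =>
    obtain ⟨h2, G, h3, h4⟩ := ih fun q hq => hI q (List.mem_cons_of_mem _ hq)
    obtain ⟨hb, hk⟩ := hI p List.mem_cons_self
    obtain ⟨k, hk'⟩ : ∃ k : ℕ, (k : ℤ) = p.2 * s - p.1 := ⟨(p.2 * s - p.1).toNat,
      Int.toNat_of_nonneg hk.le⟩
    have hkc : ((k : ℕ) : ℂ) = (p.2 : ℂ) * s - p.1 := by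
      have := congrArg (fun z : ℤ => (z : ℂ)) hk'
      push_cast at this
      exact this
    have hk0 : (k : ℂ) ≠ 0 := by
      have : k ≠ 0 := by omega
      exact_mod_cast this
    set v : R := ((u⁻¹ : Rˣ) : R) with hv
    have hεv : ε v = 1 := by
      have h3 : ε v * ε (u : R) = 1 := by rw [← map_mul, hv, Units.inv_mul, map_one]
      rwa [h1, mul_one] at h3
    have hq : ((u ^ p.1 : Rˣ) : R) * ((((u⁻¹) ^ s : Rˣ) : R)) ^ p.2.toNat = v ^ k := by
      have h2 : (u ^ p.1 : Rˣ) * (((u⁻¹) ^ s) ^ p.2.toNat) = (u⁻¹) ^ k := by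
        rw [← pow_mul, ← zpow_natCast, ← zpow_natCast, inv_zpow', inv_zpow', ← zpow_add]
        congr 1
        rw [hk']
        push_cast
        rw [Int.toNat_of_nonneg hb.le]
        ring
      have h3 := congrArg (fun z : Rˣ => (z : R)) h2
      simpa only [Units.val_mul, Units.val_pow_eq_pow_val] using h3
    have hpi : (pi (p :: I)).eval (s : ℂ) = (k : ℂ) * (pi I).eval (s : ℂ) := by
      rw [pi, pi, List.map_cons, List.prod_cons, Polynomial.eval_mul, hkc]
      simp only [Polynomial.eval_sub, Polynomial.eval_mul, Polynomial.eval_C, Polynomial.eval_X]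
    refine ⟨?_, (∑ i ∈ Finset.range k, v ^ i) * G, ?_, ?_⟩
    · rw [hpi]
      exact mul_ne_zero hk0 h2
    · have h5 : (DD u (p :: I)).eval (((u⁻¹) ^ s : Rˣ) : R) =
          (1 - v ^ k) * (DD u I).eval (((u⁻¹) ^ s : Rˣ) : R) := by
        rw [DD, DD, List.map_cons, List.prod_cons, Polynomial.eval_mul]
        congr 1
        rw [Polynomial.eval_sub, Polynomial.eval_one, Polynomial.eval_mul, Polynomial.eval_C,
          Polynomial.eval_pow, Polynomial.eval_X, hq]
      rw [h5, h3, List.length_cons, ← mul_neg_geom_sum]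
      ring
    · rw [map_mul, h4, hpi, map_sum]
      congr 1
      simp [hεv]

theorem main : S_TOPR := by
  intro R _ _ E ε h1 hu S Z hS hZ p q s₁ hpq hpole s₀ hs₀
  set u : Rˣ := Units.map (E : MK ℂ →* R) (Lu ℂ) with hudef
  have hu1 : ε (u : R) = 1 := h1
  have hune : (u : R) ≠ 1 := hu
  obtain ⟨I, N, hI, hN⟩ := ratRing_den hS hZ
  have hN' : (DD u I : PowerSeries R) * PowerSeries.map E Z = (N.map E : PowerSeries R) := by
    have := congrArg (PowerSeries.map E) hN
    rw [map_mul, ← Polynomial.polynomial_map_coe, ← Polynomial.polynomial_map_coe, map_DD] at this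
    exact this
  set v : R := ((u⁻¹ : Rˣ) : R) with hv
  have hvu : v * (u : R) = 1 := by rw [hv]; exact Units.inv_mul u
  have hw : (1 : R) - v ≠ 0 := by
    intro h
    apply hune
    have : v = 1 := (sub_eq_zero.1 h).symm
    rwa [this, one_mul] at hvu
  have hεv : ε v = 1 := by
    have h3 : ε v * ε (u : R) = 1 := by rw [← map_mul, hvu, map_one]
    rwa [hu1, mul_one] at h3
  -- a large number
  obtain ⟨s₂, hs₁₂, hs₂⟩ : ∃ s₂ : ℕ, s₁ ≤ s₂ ∧ ∀ s : ℕ, s₂ ≤ s →
      ∀ r ∈ I, 0 < r.2 ∧ 0 < r.2 * (s : ℤ) - r.1 := by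
    refine ⟨s₁ + (I.map fun r => r.1.natAbs).sum + 1, by omega, fun s hs r hr => ?_⟩
    have hb := hS r (hI r hr)
    refine ⟨hb, ?_⟩
    have h3 : r.1.natAbs ≤ (I.map fun r => r.1.natAbs).sum :=
      List.le_sum_of_mem (List.mem_map_of_mem (f := fun r : ℤ × ℤ => r.1.natAbs) hr)
    have h4 : (s : ℤ) ≤ r.2 * s := by nlinarith [Int.natCast_nonneg s]
    omega
  -- the values
  have key : ∀ n : ℕ, ∃ c : ℂ, V ε (algebraMap R (FractionRing R) ((N.map E).eval (v ^ (s₂ + n))) /
      (algebraMap R (FractionRing R) (1 - v)) ^ I.length) (c * (pi I).eval ((s₂ + n : ℕ) : ℂ)) ∧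
      p.eval ((s₂ + n : ℕ) : ℂ) = c * q.eval ((s₂ + n : ℕ) : ℂ) := by
    intro n
    obtain ⟨c, ⟨P, Q, x, y, h3, h4, h5, h6, h7⟩, h8⟩ := hpole (s₂ + n) (by omega)
    obtain ⟨h9, G, h10, h11⟩ := eval_DD u ε hu1 I (s₂ + n) (hs₂ _ (by omega))
    refine ⟨c, ⟨x * G, y, ?_, h6, ?_⟩, h8⟩
    · have h12 : Q * N.map E = DD u I * P := by
        have : ((Q * N.map E : Polynomial R) : PowerSeries R) =
            ((DD u I * P : Polynomial R) : PowerSeries R) := by
          rw [Polynomial.coe_mul, Polynomial.coe_mul, ← h3, ← hN']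
          ring
        exact Polynomial.coe_injective _ this
      set τ : R := (((u⁻¹) ^ (s₂ + n) : Rˣ) : R) with hτ
      have hτv : τ = v ^ (s₂ + n) := by rw [hτ, hv, Units.val_pow_eq_pow_val]
      have h13 : Q.eval τ * (N.map E).eval τ = (DD u I).eval τ * P.eval τ := by
        rw [← Polynomial.eval_mul, h12, Polynomial.eval_mul]
      have h14 : (N.map E).eval τ * y = (1 - v) ^ I.length * (x * G) := by
        have h15 : Q.eval τ * ((N.map E).eval τ * y - (1 - v) ^ I.length * (x * G)) = 0 := by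
          rw [h10] at h13
          linear_combination y * h13 + (1 - v) ^ I.length * G * h5
        exact sub_eq_zero.1 ((mul_eq_zero.1 h15).resolve_left h4)
      rw [← hτv]
      have hw' : (algebraMap R (FractionRing R) (1 - v)) ^ I.length ≠ 0 := by
        refine pow_ne_zero _ fun h => hw ?_
        exact (IsFractionRing.injective R (FractionRing R)) (by rw [h, map_zero])
      rw [div_mul_eq_mul_div, div_eq_iff hw', ← map_mul, h14, map_mul, map_pow]
      ring
    · rw [map_mul, h7, h11]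
      ring
  choose c hc1 hc2 using key
  -- the difference vanishes
  have hdiff : ∀ n, (fwdDiff 1)^[I.length + 1]
      (fun n : ℕ => c n * (pi I).eval ((s₂ + n : ℕ) : ℂ)) n = 0 := by
    intro n
    have h3 := V_iter _ _ hc1 (I.length + 1) n
    obtain ⟨N', hN''⟩ := iter_eval v (I.length + 1) (N.map E) s₂
    set K := FractionRing R
    have hw1 : (algebraMap R K (1 - v)) ≠ 0 := by
      refine fun h => hw ?_
      exact (IsFractionRing.injective R K) (by rw [h, map_zero])
    have h4 : (fwdDiff 1)^[I.length + 1] (fun n : ℕ => algebraMap R K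
        ((N.map E).eval (v ^ (s₂ + n))) / (algebraMap R K (1 - v)) ^ I.length) n =
        algebraMap R K ((1 - v) * N'.eval (v ^ (s₂ + n))) := by
      have h5 := iter_map ((AddMonoidHom.mulRight
        ((algebraMap R K (1 - v)) ^ I.length)⁻¹).comp (algebraMap R K).toAddMonoidHom)
        (I.length + 1) (fun n : ℕ => (N.map E).eval (v ^ (s₂ + n))) n
      have h6 : (fun n : ℕ => algebraMap R K
        ((N.map E).eval (v ^ (s₂ + n))) / (algebraMap R K (1 - v)) ^ I.length) =
          fun n => ((AddMonoidHom.mulRight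
        ((algebraMap R K (1 - v)) ^ I.length)⁻¹).comp (algebraMap R K).toAddMonoidHom)
          ((N.map E).eval (v ^ (s₂ + n))) := by
        funext n
        simp [div_eq_mul_inv]
      rw [h6, h5, hN'']
      show algebraMap R K ((1 - v) ^ (I.length + 1) * N'.eval (v ^ (s₂ + n))) *
        ((algebraMap R K (1 - v)) ^ I.length)⁻¹ = _
      rw [map_mul, map_mul, map_pow, pow_succ, mul_inv_eq_iff_eq_mul₀ (pow_ne_zero _ hw1)]
      ring
    rw [h4] at h3
    have h5 := h3.uniq (V_coe _)
    rw [h5, map_mul, map_sub, map_one, hεv, sub_self, zero_mul]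
  obtain ⟨e, he⟩ := poly_of_diff _ _ hdiff
  -- the polynomial identity
  have hid : (p * pi I).comp (Polynomial.X + Polynomial.C (s₂ : ℂ)) =
      e * q.comp (Polynomial.X + Polynomial.C (s₂ : ℂ)) := by
    refine Polynomial.eq_of_infinite_eval_eq _ _ ?_
    refine Set.Infinite.mono ?_ (Set.infinite_range_of_injective
      (Nat.cast_injective (R := ℂ)))
    rintro _ ⟨n, rfl⟩
    show Polynomial.eval (n : ℂ) _ = Polynomial.eval (n : ℂ) _
    have h3 : ((n : ℂ) + (s₂ : ℂ)) = ((s₂ + n : ℕ) : ℂ) := by push_cast; ring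
    rw [Polynomial.eval_comp, Polynomial.eval_mul, Polynomial.eval_mul, Polynomial.eval_comp,
      Polynomial.eval_add, Polynomial.eval_X, Polynomial.eval_C, h3, he, hc2]
    ring
  have hroot : (p * pi I).eval s₀ = 0 := by
    have h3 := congrArg (fun P : Polynomial ℂ => P.eval (s₀ - s₂)) hid
    simp only [Polynomial.eval_comp, Polynomial.eval_mul, Polynomial.eval_add, Polynomial.eval_X,
      Polynomial.eval_C, sub_add_cancel, hs₀, mul_zero] at h3
    rw [Polynomial.eval_mul]
    exact h3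
  have hp0 : p.eval s₀ ≠ 0 := by
    intro h
    obtain ⟨a, b, hab⟩ := hpq
    have := congrArg (fun P : Polynomial ℂ => P.eval s₀) hab
    simp only [Polynomial.eval_add, Polynomial.eval_mul, h, hs₀, mul_zero, add_zero,
      Polynomial.eval_one] at this
    exact zero_ne_one this
  rw [Polynomial.eval_mul] at hroot
  have hpi0 := (mul_eq_zero.1 hroot).resolve_left hp0
  rw [pi, ← Polynomial.coe_evalRingHom, map_list_prod, List.prod_eq_zero_iff, List.map_map] at hpi0
  obtain ⟨r, hr, hr0⟩ := List.mem_map.1 hpi0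
  refine ⟨r, hI r hr, ?_⟩
  have hb : (r.2 : ℂ) ≠ 0 := by exact_mod_cast (hS r (hI r hr)).ne'
  rw [Function.comp_apply, Polynomial.coe_evalRingHom] at hr0
  simp only [Polynomial.eval_sub, Polynomial.eval_mul, Polynomial.eval_C, Polynomial.eval_X] at hr0
  rw [eq_div_iff hb]
  linear_combination hr0

end ToprL

theorem topr : S_TOPR := ToprL.main

end Pool.Agent.Helper33K9.RO
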