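import Pool.Agent.Helper33K9.RO.L5
import Pool.Agent.Helper33K9.RO.Stq
import Pool.Agent.Helper33K9.RO.Syl
import Pool.Agent.Helper33K9.RO.Syu
import Pool.Agent.Helper33K9.RO.Syb
import Pool.Agent.Helper33K9.RO.Fml
import Pool.Agent.Helper33K9.RO.Topr

set_option autoImplicit false
set_option linter.unusedSectionVars false

/-! # Products of nodes: the topological monodromy conjecture -/

namespace Pool.Agent.Helper33K9.RO

open Pool.Agent.H628R4.TP Pool.Agent.W428.MOT Pool.Agent.TH192.MT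
  Pool.Agent.TH192.MU Pool.Agent.Helper33K9.HP Pool.Agent.Helper33K9.FQ

open MvPolynomial (eval)

section spec

variable {R : Type} [CommRing R] {u : Rˣ} {ε : R →+* ℂ}

theorem specAt_const [IsDomain R] (c : ℤ) (s : ℕ) :
    SpecAt u ε (PowerSeries.C (c : R)) s (c : ℂ) := by
  refine ⟨Polynomial.C (c : R), 1, (c : R), 1, ?_, ?_, ?_, ?_, ?_⟩
  · rw [Polynomial.coe_one, one_mul, Polynomial.coe_C]
  · rw [Polynomial.eval_one]
    exact one_ne_zero
  · rw [Polynomial.eval_C, Polynomial.eval_one]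
  · rw [map_one]
    exact one_ne_zero
  · rw [map_one, mul_one, map_intCast]

theorem specAt_smul {Z : PowerSeries R} {s : ℕ} {z : ℂ} (χ : ℤ) (h : SpecAt u ε Z s z) :
    SpecAt u ε (PowerSeries.C (χ : R) * Z) s (χ * z) := by
  obtain ⟨P, Q, x, y, h1, h2, h3, h4, h5⟩ := h
  refine ⟨Polynomial.C (χ : R) * P, Q, (χ : R) * x, y, ?_, h2, ?_, h4, ?_⟩
  · rw [Polynomial.coe_mul, Polynomial.coe_C, ← h1]
    ring
  · rw [Polynomial.eval_mul, Polynomial.eval_C, mul_assoc, h3, mul_assoc]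
  · rw [map_mul, map_intCast, h5, mul_assoc]

theorem specAt_comb [IsDomain R] {s : ℕ} {ι : Type} (t : Finset ι) (c : ℤ) (χ : ι → ℤ)
    (Z : ι → PowerSeries R) (z : ι → ℂ) (h : ∀ i ∈ t, SpecAt u ε (Z i) s (z i)) :
    SpecAt u ε (PowerSeries.C (c : R) + ∑ i ∈ t, PowerSeries.C (χ i : R) * Z i) s
      (c + ∑ i ∈ t, χ i * z i) := by
  classical
  induction t using Finset.induction_on with
  | empty =>
    rw [Finset.sum_empty, Finset.sum_empty, add_zero, add_zero]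
    exact specAt_const c s
  | insert a t ha ih =>
    rw [Finset.sum_insert ha, Finset.sum_insert ha, add_left_comm, add_left_comm (c : ℂ)]
    exact specAt_add (specAt_smul (χ a) (h a (Finset.mem_insert_self _ _)))
      (ih fun i hi => h i (Finset.mem_insert_of_mem hi))

end spec

/-- **the poles of the integral linear combinations of the topological zeta functions** -/
theorem top_comb {Ω : Type} [Fintype Ω] {n : ℕ} {g : Fin n → MvPolynomial Ω ℂ}
    (hg : ∀ t, WMMC (g t)) {R : Type} [CommRing R] [IsDomain R] (E : MK ℂ →+* R) (ε : R →+* ℂ)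
    (h1 : ε (E (Lu ℂ : (MK ℂ)ˣ)) = 1) (hu : E (Lu ℂ : (MK ℂ)ˣ) ≠ 1) (c : ℤ) (χ : Fin n → ℤ)
    (P Q : Polynomial ℂ) (s₁ : ℕ) (hPQ : IsCoprime P Q)
    (hs : ∀ s : ℕ, s₁ ≤ s → ∃ z : Fin n → ℂ,
      (∀ t, SpecAt (Units.map (E : MK ℂ →* R) (Lu ℂ)) ε (PowerSeries.map E (zetaO (g t))) s
        (z t)) ∧ P.eval (s : ℂ) = (c + ∑ t, χ t * z t) * Q.eval (s : ℂ))
    (s₀ : ℂ) (h0 : Q.eval s₀ = 0) : ∃ t, Eig0 (g t) s₀ := by
  choose S hS hZ using hg
  obtain ⟨r, hr, hr'⟩ := topr R E ε h1 hu (⋃ t, (S t : Set (ℤ × ℤ)))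
    (PowerSeries.C (c : MK ℂ) + ∑ t, PowerSeries.C (χ t : MK ℂ) * zetaO (g t)) (fun p hp => by
      obtain ⟨t, ht⟩ := Set.mem_iUnion.1 hp
      exact (hS t p ht).1) (by
      refine add_mem (Subalgebra.algebraMap_mem _ (c : MK ℂ)) (sum_mem fun t _ => ?_)
      exact mul_mem (Subalgebra.algebraMap_mem _ (χ t : MK ℂ))
        (ratRing_mono (Set.subset_iUnion (fun t => (S t : Set (ℤ × ℤ))) t) (hZ t)))
    P Q s₁ hPQ (fun s hs' => by
      obtain ⟨z, hz, hP⟩ := hs s hs'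
      refine ⟨_, ?_, hP⟩
      have h2 := specAt_comb (u := Units.map (E : MK ℂ →* R) (Lu ℂ)) (ε := ε) Finset.univ c χ
        (fun t => PowerSeries.map E (zetaO (g t))) z fun t _ => hz t
      rw [map_add, map_sum]
      simp only [map_mul, PowerSeries.map_C, map_intCast] at h2 ⊢
      exact h2) s₀ h0
  obtain ⟨t, ht⟩ := Set.mem_iUnion.1 hr
  exact ⟨t, by rw [hr']; exact (hS t r ht).2⟩

/-- **The motivic monodromy conjecture for the products of nodes.** -/
theorem fml_wmmc {Ω : Type} [Fintype Ω] {f : MvPolynomial Ω ℂ} {S : Set (MvPolynomial Ω ℂ)}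
    (hf : Fml Ω f S) {h : MvPolynomial Ω ℂ} (hh : h ∈ NodeProd S) (h0 : h ≠ 0) (p : Ω → ℂ)
    (hp : eval p h = 0) : WMMC (trn p h) :=
  mls_wmmc syl syu syb stq (fml Ω f S hf h hh) h0 p hp

end Pool.Agent.Helper33K9.RO
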