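import Pool.Agent.Helper33K9.RO.St

set_option autoImplicit false

/-! # Local normal forms: units, sums, products, powers -/

namespace Pool.Agent.Helper33K9.RO

open Pool.Agent.H628R4.TP Pool.Agent.W428.MOT Pool.Agent.TH192.MT
  Pool.Agent.Helper33K9.HP Pool.Agent.Helper33K9.FQ

open MvPowerSeries (rename constantCoeff)

variable {Ω Ω' : Type} [Fintype Ω] [Fintype Ω']

theorem coords_X : Coords (fun i : Ω => (MvPowerSeries.X i : MvPowerSeries Ω ℂ)) :=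
  co Ω (AlgEquiv.refl)

theorem loc_zero : Loc (0 : MvPowerSeries Ω ℂ) := by
  refine ⟨Ω, inferInstance, Equiv.refl Ω, ∑ j : Fin 0, ∏ i, MvPolynomial.X i ^ (Fin.elim0 j : ℕ),
    fun i => MvPowerSeries.X i, NP.leaf (fun j : Fin 0 => Fin.elim0 j) ?_, coords_X, ?_⟩
  · exact linearIndependent_empty_type
  · rw [Finset.univ_eq_empty, Finset.sum_empty, map_zero]

theorem loc_fs {G : MvPowerSeries Ω ℂ} (h : FS G) : Loc G := by
  obtain ⟨Φ, r, m, hl, hF⟩ := h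
  refine ⟨Ω, inferInstance, Equiv.refl Ω, _, fun i => Φ (MvPowerSeries.X i), NP.leaf m hl,
    co Ω Φ, ?_⟩
  rw [hF, SumL.coe_mon, map_sum, map_sum]
  refine Finset.sum_congr rfl fun j _ => ?_
  simp only [map_prod, map_pow, MvPolynomial.aeval_X]

theorem loc_pow {G : MvPowerSeries Ω ℂ} (h : Loc G) {k : ℕ} (hk : 0 < k) : Loc (G ^ k) := by
  obtain ⟨σ, i1, e, F, y, hF, hy, hG⟩ := h
  rcases Nat.lt_or_ge k 2 with h2 | h2
  · have : k = 1 := by omega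
    subst this
    exact ⟨σ, i1, e, F, y, hF, hy, by rw [pow_one]; exact hG⟩
  · exact ⟨σ, i1, e, F ^ k, y, NP.pow F k h2 hF, hy, by rw [map_pow, hG]⟩

theorem loc_unit (sc : S_SC) {G : MvPowerSeries Ω ℂ} (h : Loc G) (U : (MvPowerSeries Ω ℂ)ˣ) :
    Loc ((U : MvPowerSeries Ω ℂ) * G) := by
  obtain ⟨σ, i1, e, F, y, hF, hy, hG⟩ := h
  obtain ⟨w, D, hD, hw⟩ := sc σ F hF
  obtain ⟨V, hV⟩ := AsmL.root_unit root U D hD
  refine ⟨σ, i1, e, F, fun i => ((V ^ w i : (MvPowerSeries Ω ℂ)ˣ) : MvPowerSeries Ω ℂ) * y i, hF,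
    ?_, ?_⟩
  · have h1 := AsmL.coords_mul _ hy fun ω => V ^ w (e ω)
    simp only [mul_comm] at h1 ⊢
    exact h1
  · rw [hw _ V y, ← hG, ← hV, Units.val_pow_eq_pow_val]

/-- two blocks of variables -/
theorem two (sc : S_SC) {G : MvPowerSeries Ω ℂ} {H : MvPowerSeries Ω' ℂ} (hG : Loc G)
    (hH : Loc H) (U U' : (MvPowerSeries (Ω ⊕ Ω') ℂ)ˣ) :
    ∃ (σ τ : Type) (_ : Fintype σ) (_ : Fintype τ) (e : Ω ⊕ Ω' ≃ σ ⊕ τ) (F : MvPolynomial σ ℂ)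
      (F' : MvPolynomial τ ℂ) (y : σ → MvPowerSeries (Ω ⊕ Ω') ℂ)
      (y' : τ → MvPowerSeries (Ω ⊕ Ω') ℂ),
      NP σ F ∧ NP τ F' ∧ Coords (fun ω => Sum.elim y y' (e ω)) ∧
        (U : MvPowerSeries (Ω ⊕ Ω') ℂ) * rename Sum.inl G = MvPolynomial.aeval y F ∧
        (U' : MvPowerSeries (Ω ⊕ Ω') ℂ) * rename Sum.inr H = MvPolynomial.aeval y' F' := by
  obtain ⟨σ, i1, e, F, y, hF, hy, hG⟩ := hG
  obtain ⟨τ, i2, e', F', y', hF', hy', hH⟩ := hH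
  obtain ⟨w, D, hD, hw⟩ := sc σ F hF
  obtain ⟨w', D', hD', hw'⟩ := sc τ F' hF'
  obtain ⟨V, hV⟩ := AsmL.root_unit root U D hD
  obtain ⟨V', hV'⟩ := AsmL.root_unit root U' D' hD'
  refine ⟨σ, τ, i1, i2, Equiv.sumCongr e e', F, F',
    fun i => ((V ^ w i : (MvPowerSeries (Ω ⊕ Ω') ℂ)ˣ) : MvPowerSeries (Ω ⊕ Ω') ℂ) *
      rename Sum.inl (y i),
    fun i => ((V' ^ w' i : (MvPowerSeries (Ω ⊕ Ω') ℂ)ˣ) : MvPowerSeries (Ω ⊕ Ω') ℂ) *
      rename Sum.inr (y' i), hF, hF', ?_, ?_, ?_⟩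
  · have h1 := AsmL.coords_mul _ (SumL.coords_sum _ _ hy hy')
      (Sum.elim (fun ω => V ^ w (e ω)) fun ω => V' ^ w' (e' ω))
    refine Eq.mp (congrArg Coords ?_) h1
    funext ω
    rcases ω with ω | ω
    · simp only [Sum.elim_inl, Equiv.sumCongr_apply, Sum.map_inl]
      rw [mul_comm]
    · simp only [Sum.elim_inr, Equiv.sumCongr_apply, Sum.map_inr]
      rw [mul_comm]
  · rw [hw _ V fun i => rename Sum.inl (y i), ← hV, Units.val_pow_eq_pow_val, hG]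
    congr 1
    have h2 := congrArg (fun φ => φ F) (MvPolynomial.comp_aeval (R := ℂ) y
      (rename (Sum.inl : Ω → Ω ⊕ Ω') : MvPowerSeries Ω ℂ →ₐ[ℂ] MvPowerSeries (Ω ⊕ Ω') ℂ))
    exact h2
  · rw [hw' _ V' fun i => rename Sum.inr (y' i), ← hV', Units.val_pow_eq_pow_val, hH]
    congr 1
    have h2 := congrArg (fun φ => φ F') (MvPolynomial.comp_aeval (R := ℂ) y'
      (rename (Sum.inr : Ω' → Ω ⊕ Ω') : MvPowerSeries Ω' ℂ →ₐ[ℂ] MvPowerSeries (Ω ⊕ Ω') ℂ))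
    exact h2

theorem loc_add (sc : S_SC) {G : MvPowerSeries Ω ℂ} {H : MvPowerSeries Ω' ℂ} (hG : Loc G)
    (hH : Loc H) (U U' : (MvPowerSeries (Ω ⊕ Ω') ℂ)ˣ) :
    Loc ((U : MvPowerSeries (Ω ⊕ Ω') ℂ) * rename Sum.inl G +
      (U' : MvPowerSeries (Ω ⊕ Ω') ℂ) * rename Sum.inr H) := by
  obtain ⟨σ, τ, i1, i2, e, F, F', y, y', hF, hF', hy, h1, h2⟩ := two sc hG hH U U'
  refine ⟨σ ⊕ τ, inferInstance, e, _, Sum.elim y y', NP.add F F' hF hF', hy, ?_⟩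
  rw [map_add, MvPolynomial.aeval_rename, MvPolynomial.aeval_rename, h1, h2]
  rfl

theorem loc_mul (sc : S_SC) {G : MvPowerSeries Ω ℂ} {H : MvPowerSeries Ω' ℂ} (hG : Loc G)
    (hH : Loc H) : Loc (rename (Sum.inl : Ω → Ω ⊕ Ω') G * rename Sum.inr H) := by
  obtain ⟨σ, τ, i1, i2, e, F, F', y, y', hF, hF', hy, h1, h2⟩ := two sc hG hH 1 1
  refine ⟨σ ⊕ τ, inferInstance, e, _, Sum.elim y y', NP.mul F F' hF hF', hy, ?_⟩
  rw [map_mul, MvPolynomial.aeval_rename, MvPolynomial.aeval_rename]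
  rw [Units.val_one, one_mul] at h1 h2
  rw [h1, h2]
  rfl

end Pool.Agent.Helper33K9.RO
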