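import Pool.Agent.Helper33K9.RO.Lc

set_option autoImplicit false

/-! # Local normal forms of the polynomials in the class -/

namespace Pool.Agent.Helper33K9.RO

open Pool.Agent.H628R4.TP Pool.Agent.W428.MOT Pool.Agent.TH192.MT
  Pool.Agent.Helper33K9.HP Pool.Agent.Helper33K9.FQ

open MvPolynomial

variable {Ω Ω' : Type} [Fintype Ω] [Fintype Ω']

/-- `f(p + x) - f(p)` -/
noncomputable def lt (p : Ω → ℂ) (f : MvPolynomial Ω ℂ) : MvPolynomial Ω ℂ :=
  trn p f - C (eval p f)

theorem cc_lt (p : Ω → ℂ) (f : MvPolynomial Ω ℂ) :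
    MvPowerSeries.constantCoeff (lt p f : MvPowerSeries Ω ℂ) = 0 := by
  rw [← MvPowerSeries.coeff_zero_eq_constantCoeff_apply, MvPolynomial.coeff_coe]
  change constantCoeff (lt p f) = 0
  rw [lt, map_sub, constantCoeff_C, cc_trn, sub_self]

theorem isUnit_of {F : MvPowerSeries Ω ℂ} (h : MvPowerSeries.constantCoeff F ≠ 0) : IsUnit F := by
  rw [MvPowerSeries.isUnit_iff_constantCoeff]
  exact isUnit_iff_ne_zero.2 h

theorem lt_sum (p : Ω ⊕ Ω' → ℂ) (f : MvPolynomial Ω ℂ) (g : MvPolynomial Ω' ℂ) :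
    (lt p (rename Sum.inl f + rename Sum.inr g) : MvPowerSeries (Ω ⊕ Ω') ℂ) =
      MvPowerSeries.rename Sum.inl (lt (fun i => p (Sum.inl i)) f : MvPowerSeries Ω ℂ) +
      MvPowerSeries.rename Sum.inr (lt (fun i => p (Sum.inr i)) g : MvPowerSeries Ω' ℂ) := by
  rw [MvPowerSeries.rename_coe, MvPowerSeries.rename_coe, ← MvPolynomial.coe_add]
  congr 1
  unfold lt
  rw [trn_add, trn_rename, trn_rename, map_add, map_sub, map_sub, MvPolynomial.rename_C,
    MvPolynomial.rename_C, MvPolynomial.eval_rename, MvPolynomial.eval_rename, map_add]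
  simp only [Function.comp_def]
  ring

theorem lt_mul (p : Ω ⊕ Ω' → ℂ) (f : MvPolynomial Ω ℂ) (g : MvPolynomial Ω' ℂ) :
    (lt p (rename Sum.inl f * rename Sum.inr g) : MvPowerSeries (Ω ⊕ Ω') ℂ) =
      MvPowerSeries.C (eval (fun i => p (Sum.inr i)) g) *
        MvPowerSeries.rename Sum.inl (lt (fun i => p (Sum.inl i)) f : MvPowerSeries Ω ℂ) +
      MvPowerSeries.C (eval (fun i => p (Sum.inl i)) f) *
        MvPowerSeries.rename Sum.inr (lt (fun i => p (Sum.inr i)) g : MvPowerSeries Ω' ℂ) +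
      MvPowerSeries.rename Sum.inl (lt (fun i => p (Sum.inl i)) f : MvPowerSeries Ω ℂ) *
        MvPowerSeries.rename Sum.inr (lt (fun i => p (Sum.inr i)) g : MvPowerSeries Ω' ℂ) := by
  rw [MvPowerSeries.rename_coe, MvPowerSeries.rename_coe, ← MvPolynomial.coe_C,
    ← MvPolynomial.coe_C, ← MvPolynomial.coe_mul, ← MvPolynomial.coe_mul,
    ← MvPolynomial.coe_mul, ← MvPolynomial.coe_add, ← MvPolynomial.coe_add]
  congr 1
  unfold lt
  rw [trn_mul, trn_rename, trn_rename, map_mul, map_sub, map_sub, MvPolynomial.rename_C,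
    MvPolynomial.rename_C, MvPolynomial.eval_rename, MvPolynomial.eval_rename, map_mul]
  simp only [Function.comp_def]
  ring

theorem loc_prod (sc : S_SC) (p : Ω ⊕ Ω' → ℂ) (f : MvPolynomial Ω ℂ) (g : MvPolynomial Ω' ℂ)
    (hf : Loc (lt (fun i => p (Sum.inl i)) f : MvPowerSeries Ω ℂ))
    (hg : Loc (lt (fun i => p (Sum.inr i)) g : MvPowerSeries Ω' ℂ)) :
    Loc (lt p (rename Sum.inl f * rename Sum.inr g) : MvPowerSeries (Ω ⊕ Ω') ℂ) := by
  rw [lt_mul]
  have hf0 := cc_lt (fun i => p (Sum.inl i)) f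
  have hg0 := cc_lt (fun i => p (Sum.inr i)) g
  generalize (lt (fun i => p (Sum.inl i)) f : MvPowerSeries Ω ℂ) = f' at *
  generalize (lt (fun i => p (Sum.inr i)) g : MvPowerSeries Ω' ℂ) = g' at *
  generalize eval (fun i => p (Sum.inr i)) g = d
  generalize eval (fun i => p (Sum.inl i)) f = c
  have hu : ∀ (c : ℂ), c ≠ 0 → IsUnit (MvPowerSeries.C c +
      MvPowerSeries.rename (Sum.inl : Ω → Ω ⊕ Ω') f' : MvPowerSeries (Ω ⊕ Ω') ℂ) := fun c hc => by
    refine isUnit_of ?_
    rw [map_add, MvPowerSeries.constantCoeff_C, MvPowerSeries.constantCoeff_rename, hf0, add_zero]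
    exact hc
  have hv : ∀ (c : ℂ), c ≠ 0 → IsUnit (MvPowerSeries.C c +
      MvPowerSeries.rename (Sum.inr : Ω' → Ω ⊕ Ω') g' : MvPowerSeries (Ω ⊕ Ω') ℂ) := fun c hc => by
    refine isUnit_of ?_
    rw [map_add, MvPowerSeries.constantCoeff_C, MvPowerSeries.constantCoeff_rename, hg0, add_zero]
    exact hc
  by_cases hc : c = 0
  · by_cases hd : d = 0
    · have h1 := loc_mul sc hf hg
      rw [hc, hd, map_zero, zero_mul, zero_mul, zero_add, zero_add]
      exact h1
    · obtain ⟨U, hU⟩ := hv d hd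
      have h1 := loc_add sc hf (loc_zero (Ω := Ω')) U 1
      rw [map_zero, mul_zero, add_zero, hU] at h1
      rw [hc, map_zero, zero_mul, add_zero]
      convert h1 using 1
      ring
  · by_cases hd : d = 0
    · obtain ⟨U, hU⟩ := hu c hc
      have h1 := loc_add sc (loc_zero (Ω := Ω)) hg 1 U
      rw [map_zero, mul_zero, zero_add, hU] at h1
      rw [hd, map_zero, zero_mul, zero_add]
      convert h1 using 1
      ring
    · obtain ⟨U, hU⟩ := hu c hc
      obtain ⟨V, hV⟩ : IsUnit (MvPowerSeries.C d : MvPowerSeries (Ω ⊕ Ω') ℂ) :=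
        isUnit_of (by rw [MvPowerSeries.constantCoeff_C]; exact hd)
      have h1 := loc_add sc hf hg V U
      rw [hU, hV] at h1
      convert h1 using 1
      ring

theorem poly_unit (W : Polynomial ℂ) (h : W.eval 0 ≠ 0) (F : MvPowerSeries Ω ℂ)
    (hF : MvPowerSeries.constantCoeff F = 0) : IsUnit (Polynomial.aeval F W) := by
  refine isUnit_of ?_
  have h1 : MvPowerSeries.constantCoeff (Polynomial.aeval F W) = W.eval 0 := by
    have h2 := Polynomial.hom_eval₂ W (algebraMap ℂ (MvPowerSeries Ω ℂ))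
      (MvPowerSeries.constantCoeff (σ := Ω) (R := ℂ)) F
    rw [hF] at h2
    rw [Polynomial.aeval_def, h2]
    have h3 : (MvPowerSeries.constantCoeff (σ := Ω) (R := ℂ)).comp
        (algebraMap ℂ (MvPowerSeries Ω ℂ)) = RingHom.id ℂ := by
      ext r
      simp [MvPowerSeries.algebraMap_apply]
    rw [h3, Polynomial.eval₂_id]
  rw [h1]
  exact h

theorem loc_comp (sc : S_SC) (p : Ω → ℂ) (φ : Polynomial ℂ) (f : MvPolynomial Ω ℂ)
    (hf : Loc (lt p f : MvPowerSeries Ω ℂ)) :
    Loc (lt p (Polynomial.aeval f φ) : MvPowerSeries Ω ℂ) := by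
  set c := eval p f with hc
  set ψ : Polynomial ℂ := φ.comp (Polynomial.X + Polynomial.C c) - Polynomial.C (φ.eval c) with hψ
  have h1 : lt p (Polynomial.aeval f φ) = Polynomial.aeval (lt p f) ψ := by
    have e1 : trn p (Polynomial.aeval f φ) = Polynomial.aeval (trn p f) φ :=
      (Polynomial.aeval_algHom_apply (aeval fun i => X i + C (p i) :
        MvPolynomial Ω ℂ →ₐ[ℂ] MvPolynomial Ω ℂ) f φ).symm
    have e2 : eval p (Polynomial.aeval f φ) = φ.eval c := by
      have := Polynomial.hom_eval₂ φ (algebraMap ℂ (MvPolynomial Ω ℂ)) (eval p) f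
      rw [Polynomial.aeval_def, this, ← hc]
      have h3 : (eval p).comp (algebraMap ℂ (MvPolynomial Ω ℂ)) = RingHom.id ℂ := by
        ext r
        simp
      rw [h3, Polynomial.eval₂_id]
    have e3 : trn p f = lt p f + C c := by rw [lt, ← hc]; ring
    rw [lt, e1, e2, hψ, map_sub, Polynomial.aeval_comp, map_add, Polynomial.aeval_X,
      Polynomial.aeval_C, Polynomial.aeval_C, e3]
    rfl
  have h2 : ψ.eval 0 = 0 := by
    rw [hψ, Polynomial.eval_sub, Polynomial.eval_comp, Polynomial.eval_add, Polynomial.eval_X,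
      Polynomial.eval_C, Polynomial.eval_C, zero_add, sub_self]
  have h3 : ((Polynomial.aeval (lt p f) ψ : MvPolynomial Ω ℂ) : MvPowerSeries Ω ℂ) =
      Polynomial.aeval (lt p f : MvPowerSeries Ω ℂ) ψ :=
    (Polynomial.aeval_algHom_apply (MvPolynomial.coeToMvPowerSeries.algHom ℂ) (lt p f) ψ).symm
  rw [h1, h3]
  by_cases h0 : ψ = 0
  · rw [h0, map_zero]
    exact loc_zero
  obtain ⟨W, hW, hW0⟩ := Polynomial.exists_eq_pow_rootMultiplicity_mul_and_not_dvd ψ h0 0
  have hk : 0 < ψ.rootMultiplicity 0 := by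
    rw [Polynomial.rootMultiplicity_pos h0]
    exact h2
  have hW1 : W.eval 0 ≠ 0 := fun h => hW0 (Polynomial.dvd_iff_isRoot.2 h)
  obtain ⟨U, hU⟩ := poly_unit W hW1 _ (cc_lt p f)
  have h4 := loc_unit sc (loc_pow hf hk) U
  rw [hU] at h4
  rw [hW, map_mul, map_pow, map_sub, Polynomial.aeval_X, map_zero, map_zero, sub_zero, mul_comm]
  exact h4

theorem tls_loc (sc : S_SC) (liso : S_LISO) {f : MvPolynomial Ω ℂ} (hf : Tls Ω f) :
    ∀ p : Ω → ℂ, Loc (lt p f : MvPowerSeries Ω ℂ) := by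
  induction hf with
  | cls f hf => exact fun p => loc_fs (hf.lfs p)
  | sum f g _ _ h1 h2 =>
    intro p
    rw [lt_sum]
    have h3 := loc_add sc (h1 fun i => p (Sum.inl i)) (h2 fun i => p (Sum.inr i)) 1 1
    rw [Units.val_one, one_mul, one_mul] at h3
    exact h3
  | prod f g _ _ h1 h2 => exact fun p => loc_prod sc p f g (h1 _) (h2 _)
  | comp φ f _ h1 => exact fun p => loc_comp sc p φ f (h1 p)
  | iso Φ f _ h1 => exact liso _ _ Φ f h1

end Pool.Agent.Helper33K9.RO
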