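import Pool.Agent.Helper33K9.FQ.Top2

set_option autoImplicit false

/-! # Read-once formulas: normal forms, presentations, and statements of the leaves -/

namespace Pool.Agent.Helper33K9.RO

open MvPolynomial Pool.Agent.H628R4.TP Pool.Agent.W428.MOT Pool.Agent.TH192.MT
  Pool.Agent.Helper33K9.HP Pool.Agent.Helper33K9.FQ

/-- The smallest class of polynomials which contains the class `Cls`, with `f(x)` and `g(y)` the sum
`f(x) + g(y)` and the product `f(x) g(y)` in separate variables, with `f(x)` all the polynomials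
`φ(f(x))`, `φ` a polynomial in one variable, and which is closed under the isomorphisms
(automorphisms) of polynomial rings. -/
inductive Tls : (Ω : Type) → [Fintype Ω] → MvPolynomial Ω ℂ → Prop
  | cls {Ω : Type} [Fintype Ω] (f : MvPolynomial Ω ℂ) (hf : Cls Ω f) : Tls Ω f
  | sum {Ω Ω' : Type} [Fintype Ω] [Fintype Ω'] (f : MvPolynomial Ω ℂ) (g : MvPolynomial Ω' ℂ)
      (hf : Tls Ω f) (hg : Tls Ω' g) : Tls (Ω ⊕ Ω') (rename Sum.inl f + rename Sum.inr g)
  | prod {Ω Ω' : Type} [Fintype Ω] [Fintype Ω'] (f : MvPolynomial Ω ℂ) (g : MvPolynomial Ω' ℂ)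
      (hf : Tls Ω f) (hg : Tls Ω' g) : Tls (Ω ⊕ Ω') (rename Sum.inl f * rename Sum.inr g)
  | comp {Ω : Type} [Fintype Ω] (φ : Polynomial ℂ) (f : MvPolynomial Ω ℂ) (hf : Tls Ω f) :
      Tls Ω (Polynomial.aeval f φ)
  | iso {Ω Ω' : Type} [Fintype Ω] [Fintype Ω'] (Φ : MvPolynomial Ω ℂ ≃ₐ[ℂ] MvPolynomial Ω' ℂ)
      (f : MvPolynomial Ω ℂ) (hf : Tls Ω f) : Tls Ω' (Φ f)

/-- The normal forms: the smallest class of polynomials which contains the sums of monomials with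
linearly independent exponents and is closed under sums and products in separate variables and
powers `F ^ k`, `k ≥ 2`. -/
inductive NP : (σ : Type) → [Fintype σ] → MvPolynomial σ ℂ → Prop
  | leaf {σ : Type} [Fintype σ] {r : ℕ} (m : Fin r → σ → ℕ)
      (hm : LinearIndependent ℚ (fun j i => (m j i : ℚ))) : NP σ (∑ j, ∏ i, X i ^ m j i)
  | add {σ τ : Type} [Fintype σ] [Fintype τ] (F : MvPolynomial σ ℂ) (G : MvPolynomial τ ℂ)
      (hF : NP σ F) (hG : NP τ G) : NP (σ ⊕ τ) (rename Sum.inl F + rename Sum.inr G)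
  | mul {σ τ : Type} [Fintype σ] [Fintype τ] (F : MvPolynomial σ ℂ) (G : MvPolynomial τ ℂ)
      (hF : NP σ F) (hG : NP τ G) : NP (σ ⊕ τ) (rename Sum.inl F * rename Sum.inr G)
  | pow {σ : Type} [Fintype σ] (F : MvPolynomial σ ℂ) (k : ℕ) (hk : 2 ≤ k) (hF : NP σ F) :
      NP σ (F ^ k)

/-- In suitable formal coordinates at the origin `G` is a normal form. -/
def Loc {Ω : Type} [Fintype Ω] (G : MvPowerSeries Ω ℂ) : Prop :=
  ∃ (σ : Type) (_ : Fintype σ) (e : Ω ≃ σ) (F : MvPolynomial σ ℂ) (y : σ → MvPowerSeries Ω ℂ),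
    NP σ F ∧ Coords (fun ω => y (e ω)) ∧ G = aeval y F

/-- A presentation: the data of a sum of monomials `c_j Y ^ (o j) x ^ (P j) t ^ (N j)`. -/
structure Pr (σ : Type) where
  τ : Type
  ι : Type
  fτ : Fintype τ
  fι : Fintype ι
  P : ι → σ → ℕ
  N : ι → τ → ℕ
  c : ι → ℂ
  o : ι → ℕ

attribute [instance] Pr.fτ Pr.fι

/-- the sum of the monomials `c_j Y ^ (o j) x ^ (P j) t ^ (N j)` -/
noncomputable def Pr.val {σ : Type} [Fintype σ] (D : Pr σ) {A : Type} [CommRing A] [Algebra ℂ A]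
    (x : σ → A) (t : D.τ → A) (Y : A) : A :=
  ∑ j, algebraMap ℂ A (D.c j) * Y ^ D.o j * (∏ i, x i ^ D.P j i) * ∏ i, t i ^ D.N j i

/-- the exponents `(P j, N j)` are linearly independent and the coefficients are not zero -/
def Pr.LI {σ : Type} [Fintype σ] (D : Pr σ) : Prop :=
  (∀ g : D.ι → ℚ, (∀ i, ∑ j, g j * D.P j i = 0) → (∀ i, ∑ j, g j * D.N j i = 0) →
    ∀ j, g j = 0) ∧ ∀ j, D.c j ≠ 0

/-- The monodromy property at the origin, for a polynomial which is not zero and vanishes at the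
origin. -/
def Q {σ : Type} [Fintype σ] (f : MvPolynomial σ ℂ) : Prop :=
  f ≠ 0 → constantCoeff f = 0 → WMMC f

/-- `D` is a presentation of `F`: the property `Q` for `Y F(a) + R` follows from the property for the
sum of `R` and the monomials `c_j Y ^ (o j) a ^ (P j) t ^ (N j)` with new variables `t`. -/
def Pres {σ : Type} [Fintype σ] (F : MvPolynomial σ ℂ) (D : Pr σ) : Prop :=
  ∀ (Ω : Type) [Fintype Ω] (a : σ → MvPolynomial Ω ℂ) (Y R : MvPolynomial Ω ℂ),
    (∀ i, constantCoeff (a i) = 0) →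
    Q (D.val (fun i => rename Sum.inl (a i)) (fun i => X (Sum.inr i)) (rename Sum.inl Y) +
      rename Sum.inl R : MvPolynomial (Ω ⊕ D.τ) ℂ) →
    Q (Y * aeval a F + R)

/-- [SC] normal forms are weighted homogeneous -/
def S_SC : Prop :=
  ∀ (σ : Type) [Fintype σ] (F : MvPolynomial σ ℂ), NP σ F →
    ∃ (w : σ → ℤ) (D : ℕ), 0 < D ∧ ∀ (A : Type) [CommRing A] [Algebra ℂ A] (V : Aˣ) (x : σ → A),
      aeval (fun i => ((V ^ w i : Aˣ) : A) * x i) F = (V : A) ^ D * aeval x F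

/-- [ELI] elimination of two variables: `y z + y A + B(z)` and `B(-A)` -/
def S_ELI : Prop :=
  ∀ (Ω : Type) [Fintype Ω] (A : MvPolynomial Ω ℂ) (B : Polynomial (MvPolynomial Ω ℂ)),
    constantCoeff A = 0 → constantCoeff (B.coeff 1) = 0 →
    Q (X (Sum.inr false) * X (Sum.inr true) + X (Sum.inr false) * rename Sum.inl A +
      B.eval₂ (rename Sum.inl : MvPolynomial Ω ℂ →ₐ[ℂ] MvPolynomial (Ω ⊕ Bool) ℂ).toRingHom
        (X (Sum.inr true)) : MvPolynomial (Ω ⊕ Bool) ℂ) →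
    Q (B.eval (-A))

/-- [PRES] normal forms have presentations -/
def S_PRES : Prop :=
  ∀ (σ : Type) [Fintype σ] (F : MvPolynomial σ ℂ), NP σ F → ∃ D : Pr σ, D.LI ∧ Pres F D

/-- [SPA] sums of monomials with linearly independent exponents -/
def S_SPA : Prop :=
  ∀ (Ω ι : Type) [Fintype Ω] [Fintype ι] (m : ι → Ω → ℕ) (c : ι → ℂ), (∀ j, c j ≠ 0) →
    LinearIndependent ℚ (fun j i => (m j i : ℚ)) →
    Q (∑ j, C (c j) * ∏ i, X i ^ m j i : MvPolynomial Ω ℂ)

/-- [LISO] isomorphisms of polynomial rings -/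
def S_LISO : Prop :=
  ∀ (Ω Ω' : Type) [Fintype Ω] [Fintype Ω'] (Φ : MvPolynomial Ω ℂ ≃ₐ[ℂ] MvPolynomial Ω' ℂ)
    (f : MvPolynomial Ω ℂ),
    (∀ p : Ω → ℂ, Loc ((trn p f - C (eval p f) : MvPolynomial Ω ℂ) : MvPowerSeries Ω ℂ)) →
    ∀ p : Ω' → ℂ, Loc ((trn p (Φ f) - C (eval p (Φ f)) : MvPolynomial Ω' ℂ) : MvPowerSeries Ω' ℂ)

/-- [LINV] the property `WMMC` is invariant under formal changes of coordinates -/
def S_LINV : Prop :=
  ∀ (Ω : Type) [Fintype Ω] (Φ : MvPowerSeries Ω ℂ ≃ₐ[ℂ] MvPowerSeries Ω ℂ)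
    (f g : MvPolynomial Ω ℂ), Φ (f : MvPowerSeries Ω ℂ) = (g : MvPowerSeries Ω ℂ) →
    WMMC f → WMMC g

end Pool.Agent.Helper33K9.RO
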