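import Pool.Agent.Helper33K9.RO.Fin

set_option autoImplicit false

/-! # Stably sparse germs: statements of the leaves -/

namespace Pool.Agent.Helper33K9.RO

open MvPolynomial Pool.Agent.H628R4.TP Pool.Agent.W428.MOT Pool.Agent.TH192.MT
  Pool.Agent.Helper33K9.HP Pool.Agent.Helper33K9.FQ

/-- the polynomial `R(x, z) + ∑_i y_i l_i(x, z)` in the variables `x` (`inl (inl _)`), `z`
(`inl (inr _)`) and `y` (`inr _`) -/
noncomputable def stabL {σ : Type} {r : ℕ} (R : MvPolynomial (σ ⊕ Fin r) ℂ)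
    (l : Fin r → MvPolynomial (σ ⊕ Fin r) ℂ) : MvPolynomial ((σ ⊕ Fin r) ⊕ Fin r) ℂ :=
  rename Sum.inl R + ∑ i, X (Sum.inr i) * rename Sum.inl (l i)

/-- [TAY] differences: `F(a, z) - F(a, w) = ∑_j (z_j - w_j) G_j`, and the constant terms of the `G_j`
are the coefficients of the linear terms `z_j` of `F` -/
def S_TAY : Prop :=
  ∀ (V σ : Type) [Fintype V] (r : ℕ) (a : σ → MvPowerSeries V ℂ)
    (z w : Fin r → MvPowerSeries V ℂ), (∀ i, MvPowerSeries.constantCoeff (a i) = 0) →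
    (∀ i, MvPowerSeries.constantCoeff (z i) = 0) → (∀ i, MvPowerSeries.constantCoeff (w i) = 0) →
    ∀ F : MvPolynomial (σ ⊕ Fin r) ℂ, ∃ G : Fin r → MvPowerSeries V ℂ,
      (aeval (Sum.elim a z) F - aeval (Sum.elim a w) F = ∑ j, (z j - w j) * G j) ∧
      ∀ j, MvPowerSeries.constantCoeff (G j) = MvPolynomial.coeff (Finsupp.single (Sum.inr j) 1) F

/-- the polynomial `g(x) + ∑_j z_j y_j` -/
noncomputable def hypN {σ : Type} (r : ℕ) (g : MvPolynomial σ ℂ) :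
    MvPolynomial ((σ ⊕ Fin r) ⊕ Fin r) ℂ :=
  rename (fun i => Sum.inl (Sum.inl i)) g + ∑ j, X (Sum.inl (Sum.inr j)) * X (Sum.inr j)

/-- [HYPN] several hyperbolic planes -/
def S_HYPN : Prop :=
  ∀ (σ : Type) [Fintype σ] (r : ℕ) (g : MvPolynomial σ ℂ), g ≠ 0 → constantCoeff g = 0 →
    (WMMC (hypN r g) ↔ WMMC g)

/-- [SPA2] polynomials with affinely independent exponents -/
def S_SPA2 : Prop :=
  ∀ (Ω : Type) [Fintype Ω] (f : MvPolynomial Ω ℂ),
    AffineIndependent ℚ (fun (m : f.support) (i : Ω) => ((m : Ω →₀ ℕ) i : ℚ)) → Q f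

/-- [COO] coordinates for a graph: `y(x)`, `z_j - w_j(x)`, `∑_i y_i P_ij(x, z) + K_j(x, z)` -/
def S_COO : Prop :=
  ∀ (σ : Type) [Fintype σ] (r : ℕ) (y : σ → MvPowerSeries σ ℂ) (w : Fin r → MvPowerSeries σ ℂ)
    (P : Fin r → Fin r → MvPowerSeries (σ ⊕ Fin r) ℂ) (K : Fin r → MvPowerSeries (σ ⊕ Fin r) ℂ),
    Coords y → (∀ j, MvPowerSeries.constantCoeff (w j) = 0) →
    (∀ j, MvPowerSeries.constantCoeff (K j) = 0) →
    IsUnit (Matrix.of fun i j => MvPowerSeries.constantCoeff (P i j)).det →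
    Coords (Sum.elim (Sum.elim (fun i => MvPowerSeries.rename (fun i => Sum.inl (Sum.inl i)) (y i))
      fun j => MvPowerSeries.X (Sum.inl (Sum.inr j)) -
        MvPowerSeries.rename (fun i => Sum.inl (Sum.inl i)) (w j))
      fun j => (∑ i, MvPowerSeries.X (Sum.inr i) * MvPowerSeries.rename Sum.inl (P i j)) +
        MvPowerSeries.rename Sum.inl (K j) :
      (σ ⊕ Fin r) ⊕ Fin r → MvPowerSeries ((σ ⊕ Fin r) ⊕ Fin r) ℂ)

end Pool.Agent.Helper33K9.RO
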