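import Pool.Agent.Helper33K9.RO.St2

set_option autoImplicit false

/-! # Stably sparse germs: units -/

namespace Pool.Agent.Helper33K9.RO

open MvPolynomial Pool.Agent.H628R4.TP Pool.Agent.W428.MOT Pool.Agent.TH192.MT
  Pool.Agent.Helper33K9.HP Pool.Agent.Helper33K9.FQ

/-- [UZ] the local zeta function does not change under formal changes of coordinates and
multiplication with units -/
def S_UZ : Prop :=
  ∀ (Ω : Type) [Fintype Ω] (Φ : MvPowerSeries Ω ℂ ≃ₐ[ℂ] MvPowerSeries Ω ℂ)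
    (U : MvPowerSeries Ω ℂ) (f g : MvPolynomial Ω ℂ),
    MvPowerSeries.constantCoeff U ≠ 0 →
    U * Φ (f : MvPowerSeries Ω ℂ) = (g : MvPowerSeries Ω ℂ) → zetaO f = zetaO g

/-- [UB] the local functional equations do not change under formal changes of coordinates and
multiplication with units -/
def S_UB : Prop :=
  ∀ (Ω : Type) [Fintype Ω] (Φ : MvPowerSeries Ω ℂ ≃ₐ[ℂ] MvPowerSeries Ω ℂ)
    (U : MvPowerSeries Ω ℂ) (f g : MvPolynomial Ω ℂ),
    MvPowerSeries.constantCoeff U ≠ 0 → f ≠ 0 →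
    U * Φ (f : MvPowerSeries Ω ℂ) = (g : MvPowerSeries Ω ℂ) →
    ∀ b : Polynomial ℂ, IsLocalBFunction f b → IsLocalBFunction g b

/-- [STAB] stably sparse germs -/
def S_STAB : Prop :=
  ∀ (σ : Type) [Fintype σ] (g : MvPolynomial σ ℂ) (r : ℕ) (R : MvPolynomial (σ ⊕ Fin r) ℂ)
    (l : Fin r → MvPolynomial (σ ⊕ Fin r) ℂ) (u : MvPowerSeries σ ℂ)
    (y : σ → MvPowerSeries σ ℂ) (w : Fin r → MvPowerSeries σ ℂ), g ≠ 0 → constantCoeff g = 0 →
    MvPowerSeries.constantCoeff u ≠ 0 → Coords y → (∀ j, MvPowerSeries.constantCoeff (w j) = 0) →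
    (∀ i, aeval (Sum.elim MvPowerSeries.X w) (l i) = 0) →
    IsUnit (Matrix.of fun i j => MvPolynomial.coeff (Finsupp.single (Sum.inr j) 1) (l i)).det →
    (∀ j, MvPolynomial.coeff (Finsupp.single (Sum.inr j) 1) R = 0) →
    u * aeval y g = aeval (Sum.elim MvPowerSeries.X w) R →
    AffineIndependent ℚ (fun (m : (stabL R l).support) (v : (σ ⊕ Fin r) ⊕ Fin r) =>
      ((m : (σ ⊕ Fin r) ⊕ Fin r →₀ ℕ) v : ℚ)) → WMMC g

end Pool.Agent.Helper33K9.RO
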