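import Pool.Agent.Helper33K9.RO.St3

set_option autoImplicit false

/-! # Products of the nodes of read-once formulas: definitions and statements of the leaves -/

namespace Pool.Agent.Helper33K9.RO

open MvPolynomial Pool.Agent.H628R4.TP Pool.Agent.W428.MOT Pool.Agent.TH192.MT
  Pool.Agent.TH192.MU Pool.Agent.Helper33K9.HP Pool.Agent.Helper33K9.FQ

/-- `f` is the polynomial given by a read-once formula over the class `Cls`, and `S` is the set of the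
polynomials given by the subformulas (the nodes): the leaves of the formula are polynomials from the
class `Cls` in separate blocks of variables, the operations are sums, products and arbitrary
polynomials in one variable; isomorphisms (automorphisms) of polynomial rings are allowed. -/
inductive Fml : (Ω : Type) → [Fintype Ω] → MvPolynomial Ω ℂ → Set (MvPolynomial Ω ℂ) → Prop
  | cls {Ω : Type} [Fintype Ω] (f : MvPolynomial Ω ℂ) (hf : Cls Ω f) : Fml Ω f {f}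
  | sum {Ω Ω' : Type} [Fintype Ω] [Fintype Ω'] (f : MvPolynomial Ω ℂ) (g : MvPolynomial Ω' ℂ)
      (S : Set (MvPolynomial Ω ℂ)) (T : Set (MvPolynomial Ω' ℂ)) (hf : Fml Ω f S)
      (hg : Fml Ω' g T) : Fml (Ω ⊕ Ω') (rename Sum.inl f + rename Sum.inr g)
        (insert (rename Sum.inl f + rename Sum.inr g) (rename Sum.inl '' S ∪ rename Sum.inr '' T))
  | prod {Ω Ω' : Type} [Fintype Ω] [Fintype Ω'] (f : MvPolynomial Ω ℂ) (g : MvPolynomial Ω' ℂ)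
      (S : Set (MvPolynomial Ω ℂ)) (T : Set (MvPolynomial Ω' ℂ)) (hf : Fml Ω f S)
      (hg : Fml Ω' g T) : Fml (Ω ⊕ Ω') (rename Sum.inl f * rename Sum.inr g)
        (insert (rename Sum.inl f * rename Sum.inr g) (rename Sum.inl '' S ∪ rename Sum.inr '' T))
  | comp {Ω : Type} [Fintype Ω] (φ : Polynomial ℂ) (f : MvPolynomial Ω ℂ)
      (S : Set (MvPolynomial Ω ℂ)) (hf : Fml Ω f S) :
      Fml Ω (Polynomial.aeval f φ) (insert (Polynomial.aeval f φ) S)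
  | iso {Ω Ω' : Type} [Fintype Ω] [Fintype Ω'] (Φ : MvPolynomial Ω ℂ ≃ₐ[ℂ] MvPolynomial Ω' ℂ)
      (f : MvPolynomial Ω ℂ) (S : Set (MvPolynomial Ω ℂ)) (hf : Fml Ω f S) :
      Fml Ω' (Φ f) (Φ '' S)

/-- The products of the polynomials `g - γ`, `g ∈ S`, `γ ∈ ℂ` -/
noncomputable def NodeProd {Ω : Type} (S : Set (MvPolynomial Ω ℂ)) : Submonoid (MvPolynomial Ω ℂ) :=
  Submonoid.closure {h | ∃ g ∈ S, ∃ γ : ℂ, h = g - C γ}

/-- `f` is given by a read-once formula and `h` is a product of polynomials `g - γ`, `g` a node. -/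
inductive Mls : (Ω : Type) → [Fintype Ω] → MvPolynomial Ω ℂ → MvPolynomial Ω ℂ → Prop
  | cls {Ω : Type} [Fintype Ω] (f : MvPolynomial Ω ℂ) (hf : Cls Ω f) : Mls Ω f 1
  | sum {Ω Ω' : Type} [Fintype Ω] [Fintype Ω'] (f h : MvPolynomial Ω ℂ) (g k : MvPolynomial Ω' ℂ)
      (hf : Mls Ω f h) (hg : Mls Ω' g k) :
      Mls (Ω ⊕ Ω') (rename Sum.inl f + rename Sum.inr g) (rename Sum.inl h * rename Sum.inr k)
  | prod {Ω Ω' : Type} [Fintype Ω] [Fintype Ω'] (f h : MvPolynomial Ω ℂ) (g k : MvPolynomial Ω' ℂ)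
      (hf : Mls Ω f h) (hg : Mls Ω' g k) :
      Mls (Ω ⊕ Ω') (rename Sum.inl f * rename Sum.inr g) (rename Sum.inl h * rename Sum.inr k)
  | comp {Ω : Type} [Fintype Ω] (φ : Polynomial ℂ) (f h : MvPolynomial Ω ℂ) (hf : Mls Ω f h) :
      Mls Ω (Polynomial.aeval f φ) h
  | node {Ω : Type} [Fintype Ω] (γ : ℂ) (f h : MvPolynomial Ω ℂ) (hf : Mls Ω f h) :
      Mls Ω f (h * (f - C γ))
  | iso {Ω Ω' : Type} [Fintype Ω] [Fintype Ω'] (Φ : MvPolynomial Ω ℂ ≃ₐ[ℂ] MvPolynomial Ω' ℂ)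
      (f h : MvPolynomial Ω ℂ) (hf : Mls Ω f h) : Mls Ω' (Φ f) (Φ h)

/-- [FML] -/
def S_FML : Prop :=
  ∀ (Ω : Type) [Fintype Ω] (f : MvPolynomial Ω ℂ) (S : Set (MvPolynomial Ω ℂ)), Fml Ω f S →
    ∀ h ∈ NodeProd S, Mls Ω f h

/-- a system of polynomials `l v`, `v ∈ ρ`, in the variables `x` (`σ`) and `z` (`ρ`), with a root and
weights -/
structure Sy (σ ρ : Type) where
  l : ρ → MvPolynomial (σ ⊕ ρ) ℂ
  root : ρ
  wt : σ ⊕ ρ → ℤ

open Classical in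
/-- The `l v` are the sums of the monomials `c_j x ^ (M j)`, `v j = v`; the monomials of `l v` have the
weight of `z_v`, the weight of the root is positive, the Jacobian matrix `(∂ l_v / ∂ z_v')(0)` is
invertible, and the exponents satisfy the condition on the relations. -/
def Sy.Good {σ ρ : Type} [Fintype σ] [Fintype ρ] (s : Sy σ ρ) (h : ρ → ℕ) : Prop :=
  ∃ (ι : Type) (_ : Fintype ι) (c : ι → ℂ) (M : ι → σ ⊕ ρ → ℕ) (v : ι → ρ),
    (∀ j, c j ≠ 0) ∧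
    (∀ v₀, s.l v₀ = ∑ j, if v j = v₀ then C (c j) * ∏ i, X i ^ M j i else 0) ∧
    (∀ j, ∑ i, s.wt i * (M j i : ℤ) = s.wt (Sum.inr (v j))) ∧
    0 < s.wt (Sum.inr s.root) ∧
    IsUnit (Matrix.of fun v v' : ρ =>
      MvPolynomial.coeff (Finsupp.single (Sum.inr v') 1) (s.l v)).det ∧
    ∀ (g : ι → ℚ) (t δ : ℚ), (∀ v₀, (∑ j, if v j = v₀ then g j else 0) = 0) →
      (∀ i, (∑ j, g j * M j i) + (if i = Sum.inr s.root then t else 0) +
        δ * Sum.elim (fun _ => 0) (fun v => (h v : ℚ)) i = 0) →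
      (δ = 0 → t = 0 ∧ ∀ j, g j = 0) ∧ (δ = 1 → t ≤ 0 ∧ (t = 0 → ∀ v, h v = 0))

/-- a leaf: `z - ∑_j x ^ (m j)` -/
noncomputable def syL {σ : Type} [Fintype σ] {r : ℕ} (m : Fin r → σ → ℕ) (w : σ → ℤ) (D : ℤ) :
    Sy σ Unit where
  l := fun _ => X (Sum.inr ()) - ∑ j, ∏ i, X (Sum.inl i) ^ m j i
  root := ()
  wt := Sum.elim w fun _ => D

/-- [SYL] leaves -/
def S_SYL : Prop :=
  ∀ (σ : Type) [Fintype σ] (r : ℕ) (m : Fin r → σ → ℕ) (w : σ → ℤ) (D : ℤ),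
    LinearIndependent ℚ (fun j i => (m j i : ℚ)) → 0 < D → (∀ j, ∑ i, w i * (m j i : ℤ) = D) →
    (syL m w D).Good fun _ => 0

/-- a new root `z` and the polynomial `z - ∑_j z_a ^ (m j)`, `a` the root of `s` -/
noncomputable def syU {σ ρ : Type} (s : Sy σ ρ) {r : ℕ} (m : Fin r → ℕ) (D : ℤ) :
    Sy σ (Unit ⊕ ρ) where
  l := Sum.elim (fun _ => X (Sum.inr (Sum.inl ())) -
      ∑ j, X (Sum.inr (Sum.inr s.root)) ^ m j)
    fun v => rename (Sum.map id Sum.inr) (s.l v)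
  root := Sum.inl ()
  wt := Sum.elim (fun i => s.wt (Sum.inl i)) (Sum.elim (fun _ => D) fun v => s.wt (Sum.inr v))

/-- [SYU] a new root with one child -/
def S_SYU : Prop :=
  ∀ (σ ρ : Type) [Fintype σ] [Fintype ρ] (s : Sy σ ρ) (h : ρ → ℕ) (r : ℕ) (m : Fin r → ℕ) (D : ℤ),
    s.Good h → 0 < D → (∀ j, s.wt (Sum.inr s.root) * (m j : ℤ) = D) →
    (∀ α : Fin r → ℚ, ∑ j, α j * m j = 0 → ∀ j, α j = 0) →
    (syU s m D).Good (Sum.elim (fun _ => 0) h)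

/-- a new root `z` and the polynomial `z - ∑_j z_a ^ (m j) z_b ^ (n j)`, `a`, `b` the roots of `s`, `s'`;
the weights of `s`, `s'` are multiplied with `p`, `q` -/
noncomputable def syB {σ ρ σ' ρ' : Type} (s : Sy σ ρ) (s' : Sy σ' ρ') {r : ℕ} (m n : Fin r → ℕ)
    (p q D : ℤ) : Sy (σ ⊕ σ') (Unit ⊕ (ρ ⊕ ρ')) where
  l := Sum.elim (fun _ => X (Sum.inr (Sum.inl ())) -
      ∑ j, X (Sum.inr (Sum.inr (Sum.inl s.root))) ^ m j *
        X (Sum.inr (Sum.inr (Sum.inr s'.root))) ^ n j)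
    (Sum.elim (fun v => rename (Sum.map Sum.inl fun v => Sum.inr (Sum.inl v)) (s.l v))
      fun v => rename (Sum.map Sum.inr fun v => Sum.inr (Sum.inr v)) (s'.l v))
  root := Sum.inl ()
  wt := Sum.elim (Sum.elim (fun i => p * s.wt (Sum.inl i)) fun i => q * s'.wt (Sum.inl i))
    (Sum.elim (fun _ => D) (Sum.elim (fun v => p * s.wt (Sum.inr v))
      fun v => q * s'.wt (Sum.inr v)))

/-- [SYB] a new root with two children -/
def S_SYB : Prop :=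
  ∀ (σ ρ σ' ρ' : Type) [Fintype σ] [Fintype ρ] [Fintype σ'] [Fintype ρ'] (s : Sy σ ρ)
    (s' : Sy σ' ρ') (h : ρ → ℕ) (h' : ρ' → ℕ) (r : ℕ) (m n : Fin r → ℕ) (p q D : ℤ),
    s.Good h → s'.Good h' → 0 < p → 0 < q → 0 < D →
    (∀ j, p * s.wt (Sum.inr s.root) * (m j : ℤ) + q * s'.wt (Sum.inr s'.root) * (n j : ℤ) = D) →
    (∀ α : Fin r → ℚ, ∑ j, α j * m j = 0 → ∑ j, α j * n j = 0 → ∀ j, α j = 0) →
    (syB s s' m n p q D).Good (Sum.elim (fun _ => 0) (Sum.elim h h'))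

/-- [STQ] the elimination theorem for arbitrary finite index types -/
def S_STQ : Prop :=
  ∀ (σ ρ : Type) [Fintype σ] [Fintype ρ] [DecidableEq ρ] (g : MvPolynomial σ ℂ)
    (R : MvPolynomial (σ ⊕ ρ) ℂ) (l : ρ → MvPolynomial (σ ⊕ ρ) ℂ) (u : MvPowerSeries σ ℂ)
    (y : σ → MvPowerSeries σ ℂ) (w : ρ → MvPowerSeries σ ℂ), g ≠ 0 → constantCoeff g = 0 →
    MvPowerSeries.constantCoeff u ≠ 0 → Coords y → (∀ j, MvPowerSeries.constantCoeff (w j) = 0) →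
    (∀ i, aeval (Sum.elim MvPowerSeries.X w) (l i) = 0) →
    IsUnit (Matrix.of fun i j => MvPolynomial.coeff (Finsupp.single (Sum.inr j) 1) (l i)).det →
    (∀ j, MvPolynomial.coeff (Finsupp.single (Sum.inr j) 1) R = 0) →
    u * aeval y g = aeval (Sum.elim MvPowerSeries.X w) R →
    Q (rename Sum.inl R + ∑ i, X (Sum.inr i) * rename Sum.inl (l i) :
      MvPolynomial ((σ ⊕ ρ) ⊕ ρ) ℂ) → WMMC g

/-- [TOPR] the poles of the specialisation of a rational power series -/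
def S_TOPR : Prop :=
  ∀ (R : Type) [CommRing R] [IsDomain R] (E : MK ℂ →+* R) (ε : R →+* ℂ),
    ε (E (Lu ℂ : (MK ℂ)ˣ)) = 1 → E (Lu ℂ : (MK ℂ)ˣ) ≠ 1 →
    ∀ (S : Set (ℤ × ℤ)) (Z : PowerSeries (MK ℂ)), (∀ p ∈ S, 0 < p.2) → Z ∈ ratRing ℂ S →
    ∀ (p q : Polynomial ℂ) (s₁ : ℕ), IsCoprime p q →
      (∀ s : ℕ, s₁ ≤ s → ∃ c, SpecAt (Units.map (E : MK ℂ →* R) (Lu ℂ)) ε
        (PowerSeries.map E Z) s c ∧ p.eval (s : ℂ) = c * q.eval (s : ℂ)) →
      ∀ s₀ : ℂ, q.eval s₀ = 0 → ∃ r ∈ S, s₀ = (r.1 : ℂ) / r.2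

/-- In suitable formal coordinates `G` is the root of a good system and `H` is a unit times a product
of powers of its nodes. -/
def Loc2 {Ω : Type} [Fintype Ω] (G H : MvPowerSeries Ω ℂ) : Prop :=
  ∃ (σ ρ : Type) (_ : Fintype σ) (_ : Fintype ρ) (e : Ω ≃ σ) (s : Sy σ ρ) (h : ρ → ℕ)
    (y : σ → MvPowerSeries Ω ℂ) (w : ρ → MvPowerSeries Ω ℂ) (V : (MvPowerSeries Ω ℂ)ˣ),
    s.Good h ∧ Coords (fun ω => y (e ω)) ∧ (∀ v, aeval (Sum.elim y w) (s.l v) = 0) ∧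
    (∀ v, Loc (w v)) ∧ G = w s.root ∧ H = (V : MvPowerSeries Ω ℂ) * ∏ v, w v ^ h v

end Pool.Agent.Helper33K9.RO
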